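import Pool.Agent.TH616.NSH.Free

/-!
Examples of families of triads of dimension at most two.
-/

set_option autoImplicit false

open MeasureTheory Set Filter Topology
open H459R3.NS Pool.Agent.TH305.FB

namespace Pool.Agent.TH616.NSH

/-- The modes with one helicity meet all the triads with mixed helicities. -/
theorem twoD_helicity (s : ℤˣ) : TwoD 0 {m : K3 × ℤˣ | m.2 = s} := by
  refine ⟨∅, fun b => ?_, fun a b c _ _ _ h => ?_⟩
  · simp
  · exfalso
    obtain ⟨-, x, y, z, h1, h2, h3, h4⟩ := h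
    have e1 : x = -s := Int.units_ne_iff_eq_neg.1 h2
    have e2 : y = -s := Int.units_ne_iff_eq_neg.1 h3
    have e3 : z = -s := Int.units_ne_iff_eq_neg.1 h4
    exact h1 ⟨e1.trans e2.symm, e2.trans e3.symm⟩

theorem one_le_floor {b : K3} (hb : b ≠ 0) : 1 ≤ ⌊len b⌋₊ :=
  Nat.le_floor (by exact_mod_cast one_le_len hb)

theorem abs_le_floor {a : K3} {R : ℝ} (h : len a ≤ R) (j : Fin 3) : |a j| ≤ ⌊R⌋₊ := by
  have h1 : (N a : ℝ) ≤ R := (N_le_len a).trans h
  have h2 : N a ≤ ⌊R⌋₊ := Nat.le_floor h1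
  exact (N_le_iff a _).1 h2 j

/-- Triads with a side in a set of frequencies of dimension two. -/
theorem twoD_of_dimTwo {A : ℝ} {Q : Set K3} {Z : Set (K3 × ℤˣ)} (hQ : DimTwo A Q)
    (h : ∀ a b c : K3, a + b + c = 0 → FreeT Z a b c → a ∈ Q ∨ b ∈ Q ∨ c ∈ Q) :
    TwoD (2 * A) Z := by
  have hA := hQ.nonneg
  refine ⟨{p | p.1 ≠ 0 ∧ p.2 ≠ 0 ∧ (p.1 ∈ Q ∨ -p.1 - p.2 ∈ Q)}, fun b => ?_,
    fun a b c habc _ _ hf => ?_⟩
  · by_cases hb : b = 0
    · have : {a : K3 | len a ≤ len b ∧ (a, b) ∈ {p : K3 × K3 | p.1 ≠ 0 ∧ p.2 ≠ 0 ∧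
          (p.1 ∈ Q ∨ -p.1 - p.2 ∈ Q)}} = ∅ := by
        ext a
        simp [hb]
      rw [this, Set.ncard_empty, Nat.cast_zero]
      have := len_nonneg b
      positivity
    · set n := ⌊len b⌋₊ with hn
      have hn1 : 1 ≤ n := one_le_floor hb
      set S1 : Set K3 := {q ∈ Q | ∀ j, |q j - (0 : K3) j| ≤ n} with hS1
      set S2 : Set K3 := {q ∈ Q | ∀ j, |q j - (-b) j| ≤ n} with hS2
      have f1 : S1.Finite := (finite_box 0 n).subset fun q hq => (N_le_iff _ _).2 hq.2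
      have f2 : S2.Finite := (finite_box (-b) n).subset fun q hq => (N_le_iff _ _).2 hq.2
      have hsub : {a : K3 | len a ≤ len b ∧ (a, b) ∈ {p : K3 × K3 | p.1 ≠ 0 ∧ p.2 ≠ 0 ∧
          (p.1 ∈ Q ∨ -p.1 - p.2 ∈ Q)}} ⊆ S1 ∪ (fun q => -q - b) '' S2 := by
        rintro a ⟨h1, -, -, h2⟩
        rcases h2 with h2 | h2
        · left
          refine ⟨h2, fun j => ?_⟩
          simpa using abs_le_floor h1 j
        · right
          refine ⟨-a - b, ⟨h2, fun j => ?_⟩, by simp⟩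
          have h3 := abs_le_floor h1 j
          have e : (-a - b) j - (-b) j = -a j := by simp
          rw [e, abs_neg]
          exact h3
      have hc := Set.ncard_le_ncard hsub (f1.union (f2.image _))
      have hc2 := Set.ncard_union_le S1 ((fun q => -q - b) '' S2)
      have hc3 := Set.ncard_image_le (f := fun q => -q - b) f2
      have hc4 : (({a : K3 | len a ≤ len b ∧ (a, b) ∈ {p : K3 × K3 | p.1 ≠ 0 ∧ p.2 ≠ 0 ∧
          (p.1 ∈ Q ∨ -p.1 - p.2 ∈ Q)}}.ncard : ℕ) : ℝ) ≤ (S1.ncard : ℝ) + S2.ncard := by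
        exact_mod_cast hc.trans (hc2.trans (Nat.add_le_add_left hc3 _))
      have d1 : (S1.ncard : ℝ) ≤ A * (n : ℝ) ^ 2 := hQ 0 n hn1
      have d2 : (S2.ncard : ℝ) ≤ A * (n : ℝ) ^ 2 := hQ (-b) n hn1
      have d3 : (n : ℝ) ≤ len b := Nat.floor_le (len_nonneg b)
      have d4 : A * (n : ℝ) ^ 2 ≤ A * len b ^ 2 := by gcongr
      linarith
  · have ha : a ≠ 0 := by
      rintro rfl
      exact hf.1 (by simp)
    have hb : b ≠ 0 := by
      rintro rfl
      exact hf.1 (by simp)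
    have hc : c ≠ 0 := by
      rintro rfl
      have : b = -a := by rw [eq_neg_iff_add_eq_zero, ← habc]; abel
      exact hf.1 (by rw [this, map_neg, cross_self, neg_zero])
    have ec : -a - b = c := by
      have : c = -(a + b) := by rw [eq_neg_iff_add_eq_zero, ← habc]; abel
      rw [this]; abel
    have eb : -a - c = b := by
      have : b = -(a + c) := by rw [eq_neg_iff_add_eq_zero, ← habc]; abel
      rw [this]; abel
    rcases h a b c habc hf with h1 | h1 | h1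
    · exact Or.inl ⟨ha, hb, Or.inl h1⟩
    · exact Or.inr ⟨ha, hc, Or.inr (by rw [eb]; exact h1)⟩
    · exact Or.inl ⟨ha, hb, Or.inr (by rw [ec]; exact h1)⟩

/-- The number of frequencies in a ball. -/
theorem ncard_ball {R : ℝ} (hR : 1 ≤ R) : ({a : K3 | len a ≤ R}.ncard : ℝ) ≤ 27 * R ^ 3 := by
  set n := ⌊R⌋₊ with hn
  set F : Finset K3 := Finset.Icc (fun _ => -(n : ℤ)) (fun _ => (n : ℤ)) with hF
  have hsub : {a : K3 | len a ≤ R} ⊆ (F : Set K3) := by
    intro a ha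
    rw [Finset.mem_coe, hF, Finset.mem_Icc]
    exact ⟨fun j => (abs_le.1 (abs_le_floor ha j)).1, fun j => (abs_le.1 (abs_le_floor ha j)).2⟩
  have h1 := Set.ncard_le_ncard hsub F.finite_toSet
  rw [Set.ncard_coe_finset] at h1
  have h3 : F.card = (2 * n + 1) ^ 3 := by
    rw [hF, Pi.card_Icc]
    simp only [Int.card_Icc, Finset.prod_const, Finset.card_univ, Fintype.card_fin]
    congr 1
    have : ((n : ℤ) + 1 - -n) = ((2 * n + 1 : ℕ) : ℤ) := by
      push_cast; ring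
    rw [this, Int.toNat_natCast]
  have h4 : (n : ℝ) ≤ R := Nat.floor_le (by linarith)
  calc ({a : K3 | len a ≤ R}.ncard : ℝ) ≤ (F.card : ℝ) := by exact_mod_cast h1
    _ = (2 * (n : ℝ) + 1) ^ 3 := by rw [h3]; push_cast; rfl
    _ ≤ (3 * R) ^ 3 := by
        gcongr
        linarith
    _ = _ := by ring

/-- Triads with a short side. -/
theorem twoD_nonlocal {K : ℝ} {Z : Set (K3 × ℤˣ)} (hK : 0 ≤ K)
    (h : ∀ a b c : K3, a + b + c = 0 → len a ≤ len b → len a ≤ len c → FreeT Z a b c →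
      len a ^ 3 ≤ K * len b ^ 2 ∨ len a ^ 3 ≤ K * len c ^ 2) :
    TwoD (27 * K) Z := by
  refine ⟨{p | p.1 ≠ 0 ∧ len p.1 ^ 3 ≤ K * len p.2 ^ 2}, fun b => ?_,
    fun a b c habc h1 h2 hf => ?_⟩
  · set ρ : ℝ := (K * len b ^ 2) ^ (1 / 3 : ℝ) with hρ
    have hKb : 0 ≤ K * len b ^ 2 := by positivity
    have hρ0 : 0 ≤ ρ := Real.rpow_nonneg hKb _
    have hρ3 : ρ ^ 3 = K * len b ^ 2 := by
      rw [hρ, ← Real.rpow_natCast, ← Real.rpow_mul hKb]
      norm_num
    have hle : ∀ a : K3, len a ^ 3 ≤ K * len b ^ 2 → len a ≤ ρ := by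
      intro a ha
      rw [← hρ3] at ha
      exact (pow_le_pow_iff_left₀ (len_nonneg a) hρ0 three_ne_zero).1 ha
    rcases lt_or_ge ρ 1 with h1 | h1
    · have : {a : K3 | len a ≤ len b ∧ (a, b) ∈ {p : K3 × K3 | p.1 ≠ 0 ∧
          len p.1 ^ 3 ≤ K * len p.2 ^ 2}} = ∅ := by
        ext a
        simp only [mem_ofPred_eq, mem_empty_iff_false, iff_false, not_and]
        intro _ h2 h3
        have := (one_le_len h2).trans (hle a h3)
        linarith
      rw [this, Set.ncard_empty, Nat.cast_zero]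
      positivity
    · have hsub : {a : K3 | len a ≤ len b ∧ (a, b) ∈ {p : K3 × K3 | p.1 ≠ 0 ∧
          len p.1 ^ 3 ≤ K * len p.2 ^ 2}} ⊆ {a : K3 | len a ≤ ρ} := by
        rintro a ⟨-, -, h3⟩
        exact hle a h3
      have h2 := Set.ncard_le_ncard hsub (finite_len ρ)
      calc _ ≤ ({a : K3 | len a ≤ ρ}.ncard : ℝ) := by exact_mod_cast h2
        _ ≤ 27 * ρ ^ 3 := ncard_ball h1
        _ = _ := by rw [hρ3]; ring
  · have ha : a ≠ 0 := by
      rintro rfl
      exact hf.1 (by simp)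
    rcases h a b c habc h1 h2 hf with h3 | h3
    · exact Or.inl ⟨ha, h3⟩
    · exact Or.inr ⟨ha, h3⟩

end Pool.Agent.TH616.NSH
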