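import Pool.Agent.TH616.NSH.Hel

/-!
The convection term in the balance of the critical energy, in terms of the helical parts.
-/

set_option autoImplicit false

open MeasureTheory Set Filter Topology
open H459R3.NS Pool.Agent.TH305.FB

namespace Pool.Agent.TH616.NSH

/-- Multiplication by the length of the frequency. -/
noncomputable def lam (a : K3 → ℂ) (k : K3) : ℂ := (len k : ℂ) * a k

theorem Rap.lam {a : K3 → ℂ} (h : Rap a) : Rap (lam a) := by
  intro n
  refine Summable.of_nonneg_of_le (fun k => by positivity) (fun k => ?_)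
    ((h (n + 1)).mul_left 2)
  have h1 := len_le_N k
  rw [NSH.lam, norm_mul, Complex.norm_real, Real.norm_eq_abs, abs_of_nonneg (len_nonneg k)]
  calc (N k : ℝ) ^ n * (len k * ‖a k‖) ≤ (N k : ℝ) ^ n * ((2 * N k) * ‖a k‖) := by gcongr
    _ = 2 * ((N k : ℝ) ^ (n + 1) * ‖a k‖) := by ring

theorem Rap.add {a b : K3 → ℂ} (ha : Rap a) (hb : Rap b) : Rap (fun k => a k + b k) := by
  intro n
  refine Summable.of_nonneg_of_le (fun k => by positivity) (fun k => ?_) ((ha n).add (hb n))
  rw [← mul_add]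
  gcongr
  exact norm_add_le _ _

theorem Rap.sub {a b : K3 → ℂ} (ha : Rap a) (hb : Rap b) : Rap (fun k => a k - b k) := by
  intro n
  refine Summable.of_nonneg_of_le (fun k => by positivity) (fun k => ?_) ((ha n).add (hb n))
  rw [← mul_add]
  gcongr
  exact norm_sub_le _ _

theorem tri_sub2' {a b b' c : K3 → ℂ} (ha : Summable a) (hb : Summable b) (hb' : Summable b')
    (hc : Summable c) : Tri a (fun k => b k - b' k) c = Tri a b c - Tri a b' c := by
  unfold Tri
  rw [← (summable_tri ha hb hc).tsum_sub (summable_tri ha hb' hc)]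
  exact tsum_congr fun p => by ring

theorem tri_add3' {a b c c' : K3 → ℂ} (ha : Summable a) (hb : Summable b) (hc : Summable c)
    (hc' : Summable c') : Tri a b (fun k => c k + c' k) = Tri a b c + Tri a b c' := by
  unfold Tri
  rw [← (summable_tri ha hb hc).tsum_add (summable_tri ha hb hc')]
  exact tsum_congr fun p => by ring

theorem tri_smul2 {a b c : K3 → ℂ} (r : ℂ) : Tri a (fun k => r * b k) c = r * Tri a b c := by
  unfold Tri
  rw [← tsum_mul_left]
  exact tsum_congr fun p => by ring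

theorem tri_sum3 {ι : Type*} (s : Finset ι) {a b : K3 → ℂ} {c : ι → K3 → ℂ}
    (ha : Summable a) (hb : Summable b) (hc : ∀ i, Summable (c i)) :
    Tri a b (fun k => ∑ i ∈ s, c i k) = ∑ i ∈ s, Tri a b (c i) := by
  unfold Tri
  rw [← Summable.tsum_finsetSum fun i _ => summable_tri ha hb (hc i)]
  refine tsum_congr fun p => ?_
  rw [Finset.mul_sum]

/-- The trilinear form given by the determinant. -/
noncomputable def Dt (A B C : Fin 3 → K3 → ℂ) : ℂ :=
  Tri (A 0) (B 1) (C 2) - Tri (A 0) (B 2) (C 1) + Tri (A 1) (B 2) (C 0) - Tri (A 1) (B 0) (C 2)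
    + Tri (A 2) (B 0) (C 1) - Tri (A 2) (B 1) (C 0)

variable {A B C E : Fin 3 → K3 → ℂ}

theorem Dt_swap23 (A B C : Fin 3 → K3 → ℂ) : Dt A C B = -Dt A B C := by
  unfold Dt
  rw [tri_comm23 (A 0) (C 1), tri_comm23 (A 0) (C 2), tri_comm23 (A 1) (C 2),
    tri_comm23 (A 1) (C 0), tri_comm23 (A 2) (C 0), tri_comm23 (A 2) (C 1)]
  ring

theorem Dt_self23 (A B : Fin 3 → K3 → ℂ) : Dt A B B = 0 := by
  have h := Dt_swap23 A B B
  have h2 : 2 * Dt A B B = 0 := by linear_combination h
  simpa using h2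

theorem Dt_add3 (hA : ∀ i, Summable (A i)) (hB : ∀ i, Summable (B i)) (hC : ∀ i, Summable (C i))
    (hE : ∀ i, Summable (E i)) :
    Dt A B (fun i k => C i k + E i k) = Dt A B C + Dt A B E := by
  unfold Dt
  rw [tri_add3' (hA 0) (hB 1) (hC 2) (hE 2), tri_add3' (hA 0) (hB 2) (hC 1) (hE 1),
    tri_add3' (hA 1) (hB 2) (hC 0) (hE 0), tri_add3' (hA 1) (hB 0) (hC 2) (hE 2),
    tri_add3' (hA 2) (hB 0) (hC 1) (hE 1), tri_add3' (hA 2) (hB 1) (hC 0) (hE 0)]
  ring

theorem Dt_sub2 (hA : ∀ i, Summable (A i)) (hB : ∀ i, Summable (B i)) (hC : ∀ i, Summable (C i))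
    (hE : ∀ i, Summable (E i)) (r : ℂ) :
    Dt A (fun i k => r * (B i k - C i k)) E = r * (Dt A B E - Dt A C E) := by
  unfold Dt
  simp only [tri_smul2]
  rw [tri_sub2' (hA 0) (hB 1) (hC 1) (hE 2), tri_sub2' (hA 0) (hB 2) (hC 2) (hE 1),
    tri_sub2' (hA 1) (hB 2) (hC 2) (hE 0), tri_sub2' (hA 1) (hB 0) (hC 0) (hE 2),
    tri_sub2' (hA 2) (hB 0) (hC 0) (hE 1), tri_sub2' (hA 2) (hB 1) (hC 1) (hE 0)]
  ring

theorem Dt_hasSum (hA : ∀ i, Summable (A i)) (hB : ∀ i, Summable (B i))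
    (hC : ∀ i, Summable (C i)) :
    HasSum (fun p : K3 × K3 => det3 (fun i => A i p.1) (fun i => B i p.2)
      (fun i => C i (-p.1 - p.2))) (Dt A B C) := by
  have h : ∀ i j l, HasSum (fun p : K3 × K3 => A i p.1 * B j p.2 * C l (-p.1 - p.2))
      (Tri (A i) (B j) (C l)) := fun i j l => (summable_tri (hA i) (hB j) (hC l)).hasSum
  exact (((((h 0 1 2).sub (h 0 2 1)).add (h 1 2 0)).sub (h 1 0 2)).add (h 2 0 1)).sub (h 2 1 0)

/-- The convection term in the balance of the critical energy. -/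
noncomputable def CC (U : Fin 3 → K3 → ℂ) : ℂ :=
  ∑ i, ∑ j, Tri (U j) (D j (U i)) (lam (U i))

/-- The vorticity. -/
noncomputable def om (U : Fin 3 → K3 → ℂ) (i : Fin 3) (k : K3) : ℂ :=
  ![D 1 (U 2) k - D 2 (U 1) k, D 2 (U 0) k - D 0 (U 2) k, D 0 (U 1) k - D 1 (U 0) k] i

variable {U : Fin 3 → K3 → ℂ}

theorem div_lam (hdiv : ∀ k, ∑ j, (k j : ℂ) * U j k = 0) (k : K3) :
    ∑ i, D i (lam (U i)) k = 0 := by
  unfold D lam
  have := hdiv k
  calc ∑ j, 2 * (Real.pi : ℂ) * Complex.I * (k j : ℂ) * ((len k : ℂ) * U j k)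
      = 2 * Real.pi * Complex.I * (len k : ℂ) * ∑ j, (k j : ℂ) * U j k := by
        rw [Finset.mul_sum]
        exact Finset.sum_congr rfl fun j _ => by ring
    _ = 0 := by rw [this, mul_zero]

/-- The gradient part. -/
theorem grad_zero (hU : ∀ i, Rap (U i)) (hdiv : ∀ k, ∑ j, (k j : ℂ) * U j k = 0) :
    ∑ i, ∑ j, Tri (U j) (D i (U j)) (lam (U i)) = 0 := by
  have h1 : ∀ i j, 2 * Tri (U j) (D i (U j)) (lam (U i))
      = -Tri (U j) (U j) (D i (lam (U i))) := by
    intro i j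
    have h2 := tri_D3 (hU j) (hU j) (Rap.lam (hU i)) i
    rw [tri_comm12 (D i (U j))] at h2
    linear_combination h2
  have h2 : 2 * ∑ i, ∑ j, Tri (U j) (D i (U j)) (lam (U i)) = 0 := by
    rw [Finset.mul_sum]
    simp_rw [Finset.mul_sum, h1]
    rw [Finset.sum_comm]
    refine Finset.sum_eq_zero fun j _ => ?_
    rw [Finset.sum_neg_distrib, ← tri_sum3 Finset.univ (hU j).summable (hU j).summable
      (fun i => ((Rap.lam (hU i)).D i).summable)]
    have h3 : (fun k => ∑ i, D i (lam (U i)) k) = fun _ => 0 := funext fun k => div_lam hdiv k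
    rw [h3]
    unfold Tri
    simp
  simpa using h2

theorem CC_eq1 (hU : ∀ i, Rap (U i)) (hdiv : ∀ k, ∑ j, (k j : ℂ) * U j k = 0) :
    CC U = -Dt U (om U) (fun i => lam (U i)) := by
  rw [← sub_zero (CC U), ← grad_zero hU hdiv, CC]
  have s : ∀ i, Summable (U i) := fun i => (hU i).summable
  have d : ∀ i j, Summable (D i (U j)) := fun i j => ((hU j).D i).summable
  have l : ∀ i, Summable (lam (U i)) := fun i => (Rap.lam (hU i)).summable
  unfold Dt
  have o0 : om U 0 = fun k => D 1 (U 2) k - D 2 (U 1) k := rfl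
  have o1 : om U 1 = fun k => D 2 (U 0) k - D 0 (U 2) k := rfl
  have o2 : om U 2 = fun k => D 0 (U 1) k - D 1 (U 0) k := rfl
  rw [o0, o1, o2, tri_sub2' (s 0) (d 2 0) (d 0 2) (l 2), tri_sub2' (s 0) (d 0 1) (d 1 0) (l 1),
    tri_sub2' (s 1) (d 0 1) (d 1 0) (l 0), tri_sub2' (s 1) (d 1 2) (d 2 1) (l 2),
    tri_sub2' (s 2) (d 1 2) (d 2 1) (l 1), tri_sub2' (s 2) (d 2 0) (d 0 2) (l 0)]
  simp only [Fin.sum_univ_three]
  ring

theorem om_eq (hdiv : ∀ k, ∑ j, (k j : ℂ) * U j k = 0) (i : Fin 3) (k : K3) :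
    om U i k = 2 * Real.pi * (lam (hp 1 U i) k - lam (hp (-1) U i) k) := by
  have h1 := hp_curl 1 hdiv k i
  have h2 := hp_curl (-1) hdiv k i
  have e : om U i k = 2 * Real.pi * (Complex.I * crossProduct (fun j => (k j : ℂ))
      (fun j => U j k) i) := by
    fin_cases i
    · show om U 0 k = 2 * Real.pi * (Complex.I * crossProduct (fun j => (k j : ℂ))
        (fun j => U j k) 0)
      rw [cross0, show om U 0 k = D 1 (U 2) k - D 2 (U 1) k from rfl, D, D]
      ring
    · show om U 1 k = 2 * Real.pi * (Complex.I * crossProduct (fun j => (k j : ℂ))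
        (fun j => U j k) 1)
      rw [cross1, show om U 1 k = D 2 (U 0) k - D 0 (U 2) k from rfl, D, D]
      ring
    · show om U 2 k = 2 * Real.pi * (Complex.I * crossProduct (fun j => (k j : ℂ))
        (fun j => U j k) 2)
      rw [cross2, show om U 2 k = D 0 (U 1) k - D 1 (U 0) k from rfl, D, D]
      ring
  have e2 : crossProduct (fun j => (k j : ℂ)) (fun j => U j k) i
      = crossProduct (fun j => (k j : ℂ)) (fun j => hp 1 U j k) i
        + crossProduct (fun j => (k j : ℂ)) (fun j => hp (-1) U j k) i := by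
    by_cases hk : k = 0
    · subst hk
      have : (fun j : Fin 3 => (((0 : K3) j : ℤ) : ℂ)) = 0 := by funext j; simp
      rw [this]
      simp
    · have e3 : (fun j => U j k) = (fun j => hp 1 U j k) + (fun j => hp (-1) U j k) := by
        funext j
        rw [Pi.add_apply, hp_add hk j]
      rw [e3, map_add, Pi.add_apply]
  rw [e, e2, mul_add, h1, h2, lam, lam]
  push_cast
  ring

theorem lam_eq (i : Fin 3) (k : K3) :
    lam (U i) k = lam (hp 1 U i) k + lam (hp (-1) U i) k := by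
  unfold lam
  by_cases hk : k = 0
  · subst hk
    simp [len_zero]
  · rw [← mul_add, hp_add hk i]

/-- The convection term in terms of the helical parts. -/
theorem CC_eq (hU : ∀ i, Rap (U i)) (hdiv : ∀ k, ∑ j, (k j : ℂ) * U j k = 0) :
    CC U = -(4 * Real.pi) * Dt U (fun i => lam (hp 1 U i)) (fun i => lam (hp (-1) U i)) := by
  have s : ∀ i, Summable (U i) := fun i => (hU i).summable
  have a : ∀ i, Summable (lam (hp 1 U i)) := fun i => (Rap.lam (Rap_hp 1 hU i)).summable
  have b : ∀ i, Summable (lam (hp (-1) U i)) := fun i => (Rap.lam (Rap_hp (-1) hU i)).summable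
  have e1 : om U = fun i k => 2 * Real.pi * (lam (hp 1 U i) k - lam (hp (-1) U i) k) := by
    funext i k
    exact om_eq hdiv i k
  have e2 : (fun i => lam (U i)) = fun i k => lam (hp 1 U i) k + lam (hp (-1) U i) k := by
    funext i k
    exact lam_eq i k
  have c : ∀ i, Summable (fun k => lam (hp 1 U i) k + lam (hp (-1) U i) k) :=
    fun i => (a i).add (b i)
  rw [CC_eq1 hU hdiv, e1, e2, Dt_sub2 s a b c, Dt_add3 s a a b, Dt_add3 s b a b, Dt_self23,
    Dt_self23, Dt_swap23 U (fun i => lam (hp 1 U i)) (fun i => lam (hp (-1) U i))]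
  ring

end Pool.Agent.TH616.NSH
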