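import Pool.Agent.TH616.NSH.Shell

/-!
The trilinear estimate with a Besov norm.
-/

set_option autoImplicit false

open MeasureTheory Set Filter Topology
open scoped ENNReal
open H459R3.NS Pool.Agent.TH305.FB

namespace Pool.Agent.TH616.NSH

/-- The bound of the shells. -/
def Bes (s : ℝ) (β : ℝ≥0∞) (x : K3 → ℝ≥0∞) : Prop :=
  ∀ j : ℕ, Sj j (fun k => x k ^ 2) ≤ (β * pw (-s * j)) ^ 2

/-- The constant. -/
noncomputable def kap (s : ℝ) : ℝ≥0∞ := (1 - pw (-(5 / 2 - s)))⁻¹

theorem kap_ne_top {s : ℝ} (hs : s < 5 / 2) : kap s ≠ ∞ := by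
  unfold kap
  rw [Ne, ENNReal.inv_eq_top, tsub_eq_zero_iff_le, not_le]
  unfold pw
  rw [ENNReal.ofReal_lt_one]
  exact Real.rpow_lt_one_of_one_lt_of_neg (by norm_num) (by linarith)

variable {s : ℝ} {β : ℝ≥0∞} {x v : K3 → ℝ≥0∞}

theorem Bes.sqrt (h : Bes s β x) (j : ℕ) :
    (Sj j fun k => x k ^ 2) ^ (1 / 2 : ℝ) ≤ β * pw (-s * j) := by
  calc (Sj j fun k => x k ^ 2) ^ (1 / 2 : ℝ) ≤ ((β * pw (-s * j)) ^ 2) ^ (1 / 2 : ℝ) := by
        gcongr
        exact h j
    _ = _ := sqrt_sq_enn _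

open Classical in
/-- The sum over the low frequencies. -/
theorem low_sum (hs : s < 5 / 2) (h : Bes s β x) {b : K3} (hb : b ≠ 0) :
    ∑' a, (if len a ≤ len b then LL a * x a else 0) ≤ 24 * kap s * β * Lp (5 / 2 - s) b := by
  rw [← tsum_Sj]
  have h1 : ∀ j, Sj j (fun a => if len a ≤ len b then LL a * x a else 0)
      ≤ 24 * β * pw ((5 / 2 - s) * sh b) *
        (if j ≤ sh b then pw (-(5 / 2 - s)) ^ (sh b - j) else 0) := by
    intro j
    by_cases hj : j ≤ sh b
    · rw [if_pos hj]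
      calc Sj j (fun a => if len a ≤ len b then LL a * x a else 0)
          ≤ Sj j (fun a => (2 * pw j) * x a) := by
            refine Sj_mono fun k hk => ?_
            split_ifs
            · exact mul_le_mul_left (LL_le_pw hk) _
            · exact bot_le
        _ = (2 * pw j) * Sj j x := Sj_mul j _ _
        _ ≤ (2 * pw j) * (12 * pw (3 / 2 * j) * (β * pw (-s * j))) := by
            gcongr
            exact (Sj_l1 j x).trans (by gcongr; exact h.sqrt j)
        _ = 24 * β * (pw j * pw (3 / 2 * j) * pw (-s * j)) := by ring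
        _ = 24 * β * (pw ((5 / 2 - s) * sh b) * pw (-(5 / 2 - s)) ^ (sh b - j)) := by
            rw [← pw_add, ← pw_add, ← pw_mul_nat, ← pw_add]
            congr 2
            rw [Nat.cast_sub hj]
            ring
        _ = _ := by ring
    · rw [if_neg hj, mul_zero]
      have : Sj j (fun a => if len a ≤ len b then LL a * x a else 0) ≤ Sj j (fun _ => 0) := by
        refine Sj_mono fun k hk => ?_
        rw [if_neg]
        intro h2
        have := sh_mono h2
        omega
      refine this.trans (le_of_eq ?_)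
      unfold Sj
      simp
  refine (ENNReal.tsum_le_tsum h1).trans ?_
  rw [ENNReal.tsum_mul_left]
  calc 24 * β * pw ((5 / 2 - s) * sh b) *
        ∑' j, (if j ≤ sh b then pw (-(5 / 2 - s)) ^ (sh b - j) else 0)
      ≤ 24 * β * Lp (5 / 2 - s) b * kap s := by
        gcongr
        · exact pw_le_Lp hb (by linarith)
        · exact geo1 _ _
    _ = _ := by ring

theorem LL_sq_eq {k : K3} (m : ℝ) (v : K3 → ℝ≥0∞) :
    (LL k * v k) ^ 2 ≤ Lp (2 - m) k * (Lp m k * v k ^ 2) := by
  by_cases hk : k = 0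
  · subst hk; rw [LL_zero, zero_mul]; simp
  · have h := len_pos hk
    have e : LL k ^ 2 = Lp (2 - m) k * Lp m k := by
      unfold LL Lp
      rw [← ENNReal.ofReal_mul (Real.rpow_nonneg h.le _), ← Real.rpow_add h,
        ← ENNReal.ofReal_pow h.le]
      congr 1
      rw [← Real.rpow_natCast]
      congr 1
      push_cast
      ring
    rw [mul_pow, e]
    exact le_of_eq (by ring)

theorem LL_mul_Lp {k : K3} (s : ℝ) : LL k * Lp (5 / 2 - s) k ≤ Lp (7 / 2 - s) k := by
  by_cases hk : k = 0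
  · subst hk; rw [LL_zero, zero_mul]; exact bot_le
  · have h := len_pos hk
    unfold LL Lp
    rw [← ENNReal.ofReal_mul h.le]
    refine le_of_eq ?_
    congr 1
    rw [show (7 / 2 - s) = 1 + (5 / 2 - s) by ring, Real.rpow_add h, Real.rpow_one]

open Classical in
/-- The shortest side is the one of `x`. -/
theorem TZ_case1 (hs : s < 5 / 2) (h : Bes s β x) (v : K3 → ℝ≥0∞) :
    TZ (fun a b c => if len a ≤ len b ∧ len a ≤ len c then W a b c * (x a * (v b * v c)) else 0)
      ≤ 96 * kap s * β * ∑' k, Lp (7 / 2 - s) k * v k ^ 2 := by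
  set f : K3 → K3 → ℝ≥0∞ := fun a b =>
    (if len a ≤ len b then LL a * x a else 0) * (2 * (LL b * v b ^ 2)) with hf
  have h1 : TZ (fun a b c => if len a ≤ len b ∧ len a ≤ len c then
      W a b c * (x a * (v b * v c)) else 0) ≤ TZ (fun a b c => f a b + f a c) := by
    refine TZ_mono fun a b c habc => ?_
    split_ifs with hc
    · obtain ⟨h1, h2⟩ := hc
      obtain ⟨w1, w2⟩ := wr_le1 habc h1 h2
      have W1 : W a b c ≤ 2 * (LL a * LL b) := by
        unfold W LL
        rw [← ENNReal.ofReal_mul (len_nonneg a), ← ENNReal.ofReal_ofNat,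
          ← ENNReal.ofReal_mul (by norm_num)]
        exact ENNReal.ofReal_le_ofReal w1
      have W2 : W a b c ≤ 2 * (LL a * LL c) := by
        unfold W LL
        rw [← ENNReal.ofReal_mul (len_nonneg a), ← ENNReal.ofReal_ofNat,
          ← ENNReal.ofReal_mul (by norm_num)]
        exact ENNReal.ofReal_le_ofReal w2
      simp only [hf]
      rw [if_pos h1, if_pos h2]
      calc W a b c * (x a * (v b * v c)) ≤ W a b c * (x a * (v b ^ 2 + v c ^ 2)) := by
            gcongr
            exact mul_le_sq_add _ _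
        _ = W a b c * (x a * v b ^ 2) + W a b c * (x a * v c ^ 2) := by ring
        _ ≤ (2 * (LL a * LL b)) * (x a * v b ^ 2) + (2 * (LL a * LL c)) * (x a * v c ^ 2) := by
            gcongr
        _ = _ := by ring
    · exact bot_le
  refine h1.trans ?_
  rw [TZ_add, TZ_12 f, TZ_13 f]
  have h2 : ∑' a, ∑' b, f a b ≤ 48 * kap s * β * ∑' k, Lp (7 / 2 - s) k * v k ^ 2 := by
    rw [ENNReal.tsum_comm, ← ENNReal.tsum_mul_left]
    refine ENNReal.tsum_le_tsum fun b => ?_
    simp only [hf]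
    rw [ENNReal.tsum_mul_right]
    by_cases hb : b = 0
    · subst hb; rw [LL_zero]; simp
    · calc (∑' a, if len a ≤ len b then LL a * x a else 0) * (2 * (LL b * v b ^ 2))
          ≤ (24 * kap s * β * Lp (5 / 2 - s) b) * (2 * (LL b * v b ^ 2)) := by
            gcongr
            exact low_sum hs h hb
        _ = 48 * kap s * β * ((LL b * Lp (5 / 2 - s) b) * v b ^ 2) := by ring
        _ ≤ 48 * kap s * β * (Lp (7 / 2 - s) b * v b ^ 2) := by
            gcongr
            exact LL_mul_Lp s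
  calc (∑' a, ∑' b, f a b) + ∑' a, ∑' c, f a c
      ≤ 48 * kap s * β * (∑' k, Lp (7 / 2 - s) k * v k ^ 2)
        + 48 * kap s * β * ∑' k, Lp (7 / 2 - s) k * v k ^ 2 := add_le_add h2 h2
    _ = _ := by ring

/-- The sum over a window of shells. -/
noncomputable def Sw (j : ℕ) (f : K3 → ℝ≥0∞) : ℝ≥0∞ :=
  ∑' k, if sh k ≤ j + 1 ∧ j ≤ sh k + 1 then f k else 0

theorem tsum_Sw (f : K3 → ℝ≥0∞) : ∑' j, Sw j f ≤ 3 * ∑' k, f k := by
  unfold Sw
  rw [ENNReal.tsum_comm, ← ENNReal.tsum_mul_left]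
  refine ENNReal.tsum_le_tsum fun k => ?_
  have h : ∀ j, (if sh k ≤ j + 1 ∧ j ≤ sh k + 1 then f k else 0)
      ≤ (if j = sh k - 1 then f k else 0) + (if j = sh k then f k else 0)
        + (if j = sh k + 1 then f k else 0) := by
    intro j
    split_ifs <;> first | omega | simp
  refine (ENNReal.tsum_le_tsum h).trans ?_
  rw [ENNReal.tsum_add, ENNReal.tsum_add, tsum_ite_eq, tsum_ite_eq, tsum_ite_eq]
  exact le_of_eq (by ring)

theorem TZ_ca (F : K3 → K3 → K3 → ℝ≥0∞) : TZ F = ∑' c, ∑' a, F a (-a - c) c := by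
  have h : TZ (fun a b c => F b c a) = TZ F := by
    rw [← TZ_swap13 F, ← TZ_swap23 (fun a b c => F c b a)]
  rw [← h]
  unfold TZ
  rw [ENNReal.tsum_prod']
  refine tsum_congr fun c => tsum_congr fun a => ?_
  simp only
  rw [show -c - a = -a - c by abel]

/-- the side `Y` in a window -/
theorem Sw_Y {m : ℝ} (hm : 2 - m ≤ 1) (hm' : -1 ≤ 2 - m) (v : K3 → ℝ≥0∞) (j : ℕ) :
    Sw j (fun k => (LL k * v k) ^ 2)
      ≤ 4 * pw ((2 - m) * j) * Sw j (fun k => Lp m k * v k ^ 2) := by
  unfold Sw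
  rw [← ENNReal.tsum_mul_left]
  refine ENNReal.tsum_le_tsum fun k => ?_
  split_ifs with hw
  · by_cases hk : k = 0
    · subst hk; simp [LL_zero]
    · refine (LL_sq_eq m v).trans ?_
      gcongr
      refine (Lp_le_pw hk hm).trans ?_
      have h1 : pw ((2 - m) * sh k) ≤ pw (1 + (2 - m) * j) := by
        refine pw_mono ?_
        have h2 : (sh k : ℝ) ≤ j + 1 := by exact_mod_cast hw.1
        have h3 : (j : ℝ) ≤ sh k + 1 := by exact_mod_cast hw.2
        rcases le_total 0 (2 - m) with h | h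
        · nlinarith
        · nlinarith
      rw [pw_add, pw_one] at h1
      calc 2 * pw ((2 - m) * sh k) ≤ 2 * (2 * pw ((2 - m) * j)) := by gcongr
        _ = _ := by ring
  · simp

theorem Sj_Y {m : ℝ} (hm : 2 - m ≤ 1) (v : K3 → ℝ≥0∞) (l : ℕ) :
    Sj l (fun k => (LL k * v k) ^ 2)
      ≤ 4 * pw ((2 - m) * l) * Sj l (fun k => Lp m k * v k ^ 2) := by
  rw [← Sj_mul]
  refine Sj_mono fun k hk => ?_
  by_cases h0 : k = 0
  · subst h0; rw [LL_zero, zero_mul]; simp
  · refine (LL_sq_eq m v).trans ?_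
    have h1 := Lp_le_pw h0 hm
    rw [hk] at h1
    gcongr
    refine h1.trans ?_
    gcongr
    norm_num

theorem sqrt_mul_enn (x y : ℝ≥0∞) : (x * y) ^ (1 / 2 : ℝ) = x ^ (1 / 2 : ℝ) * y ^ (1 / 2 : ℝ) :=
  ENNReal.mul_rpow_of_nonneg _ _ (by norm_num)

theorem four_sqrt : (4 : ℝ≥0∞) ^ (1 / 2 : ℝ) = 2 := by
  rw [show (4 : ℝ≥0∞) = 2 ^ 2 by norm_num, sqrt_sq_enn]

open Classical in
/-- The shortest side is the third one, fixed third side. -/
theorem inner_sum {m : ℝ} (hm : 2 - m ≤ 1) (hm' : -1 ≤ 2 - m) (h : Bes s β x)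
    (v : K3 → ℝ≥0∞) (c : K3) :
    ∑' a, (if len c ≤ len a ∧ len c ≤ len (-a - c) then
        x a * (LL (-a - c) * v (-a - c)) else 0)
      ≤ ∑' j, (if sh c ≤ j then 2 * β * pw (-s * j + (1 - m / 2) * j)
          * (Sw j fun k => Lp m k * v k ^ 2) ^ (1 / 2 : ℝ) else 0) := by
  rw [← tsum_Sj]
  refine ENNReal.tsum_le_tsum fun j => ?_
  split_ifs with hj
  · set Y' : K3 → ℝ≥0∞ := fun a => if len c ≤ len a ∧ len c ≤ len (-a - c) then
        LL (-a - c) * v (-a - c) else 0 with hY'
    have e1 : (fun a => if len c ≤ len a ∧ len c ≤ len (-a - c) then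
        x a * (LL (-a - c) * v (-a - c)) else 0) = fun a => x a * Y' a := by
      funext a
      simp only [hY']
      split_ifs <;> simp
    rw [e1]
    refine (Sj_cs j x Y').trans ?_
    have h1 : Sj j (fun a => Y' a ^ 2) ≤ Sw j (fun k => (LL k * v k) ^ 2) := by
      have h2 : Sw j (fun k => (LL k * v k) ^ 2) = ∑' a, if sh (-a - c) ≤ j + 1 ∧
          j ≤ sh (-a - c) + 1 then (LL (-a - c) * v (-a - c)) ^ 2 else 0 := by
        unfold Sw
        rw [← (Equiv.subLeft (-c)).tsum_eq]
        refine tsum_congr fun a => ?_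
        simp only [Equiv.subLeft_apply]
        rw [show -c - a = -a - c by abel]
      rw [h2]
      unfold Sj
      refine ENNReal.tsum_le_tsum fun a => ?_
      by_cases hcond : len c ≤ len a ∧ len c ≤ len (-a - c)
      · split_ifs with g1 g2
        · simp only [hY']
          rw [if_pos hcond]
        · exfalso
          apply g2
          obtain ⟨t1, t2, -⟩ := len_tri (a := a) (b := -a - c) (c := c) (by abel)
          have u1 : len (-a - c) ≤ 2 * len a := by linarith [hcond.1]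
          have u2 : len a ≤ 2 * len (-a - c) := by linarith [hcond.2]
          have u3 := sh_le_succ u1
          have u4 := sh_le_succ u2
          rw [g1] at u3 u4
          exact ⟨u3, u4⟩
        · exact bot_le
        · exact bot_le
      · have : Y' a = 0 := by
          simp only [hY']
          rw [if_neg hcond]
        simp only [this]
        split_ifs <;> simp
    have h3 := h1.trans (Sw_Y hm hm' v j)
    calc (Sj j fun k => x k ^ 2) ^ (1 / 2 : ℝ) * (Sj j fun k => Y' k ^ 2) ^ (1 / 2 : ℝ)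
        ≤ (β * pw (-s * j)) * (4 * pw ((2 - m) * j)
          * Sw j (fun k => Lp m k * v k ^ 2)) ^ (1 / 2 : ℝ) := by
          gcongr
          exact h.sqrt j
      _ = (β * pw (-s * j)) * (2 * pw ((2 - m) * j / 2)
          * (Sw j fun k => Lp m k * v k ^ 2) ^ (1 / 2 : ℝ)) := by
          rw [sqrt_mul_enn, sqrt_mul_enn, four_sqrt, pw_sqrt]
      _ = 2 * β * (pw (-s * j) * pw ((2 - m) * j / 2))
          * (Sw j fun k => Lp m k * v k ^ 2) ^ (1 / 2 : ℝ) := by ring
      _ = _ := by
          rw [← pw_add]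
          congr 3
          ring
  · refine le_trans (Sj_mono (g := fun _ => 0) fun a ha => ?_) (by unfold Sj; simp)
    rw [if_neg]
    intro h2
    have := sh_mono h2.1
    omega

/-- The sum of `Y` over the low shells. -/
theorem low_Y {m : ℝ} (hm : 2 - m ≤ 1) (v : K3 → ℝ≥0∞) (j : ℕ) :
    ∑' c, (if sh c ≤ j then LL c * v c else 0)
      ≤ ∑' l, (if l ≤ j then 24 * pw ((5 / 2 - m / 2) * l)
        * (Sj l fun k => Lp m k * v k ^ 2) ^ (1 / 2 : ℝ) else 0) := by
  rw [← tsum_Sj]
  refine ENNReal.tsum_le_tsum fun l => ?_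
  split_ifs with hl
  · calc Sj l (fun c => if sh c ≤ j then LL c * v c else 0)
        ≤ Sj l (fun c => LL c * v c) := by
          refine Sj_mono fun k _ => ?_
          split_ifs
          · exact le_rfl
          · exact bot_le
      _ ≤ 12 * pw (3 / 2 * l) * (Sj l fun k => (LL k * v k) ^ 2) ^ (1 / 2 : ℝ) := Sj_l1 l _
      _ ≤ 12 * pw (3 / 2 * l) * (4 * pw ((2 - m) * l)
          * Sj l (fun k => Lp m k * v k ^ 2)) ^ (1 / 2 : ℝ) := by
          gcongr
          exact Sj_Y hm v l
      _ = 24 * (pw (3 / 2 * l) * pw ((2 - m) * l / 2))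
          * (Sj l fun k => Lp m k * v k ^ 2) ^ (1 / 2 : ℝ) := by
          rw [sqrt_mul_enn, sqrt_mul_enn, four_sqrt, pw_sqrt]
          ring
      _ = _ := by
          rw [← pw_add]
          congr 3
          ring
  · refine le_trans (Sj_mono (g := fun _ => 0) fun a ha => ?_) (by unfold Sj; simp)
    rw [if_neg]
    omega

theorem sq_sqrt_enn (x : ℝ≥0∞) : (x ^ (1 / 2 : ℝ)) ^ 2 = x := enn_half_sq x

open Classical in
/-- The shortest side is the third one. -/
theorem TZ_case2 {m : ℝ} (hsm : m = 7 / 2 - s) (hs0 : 1 / 2 ≤ s) (hs : s < 5 / 2)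
    (h : Bes s β x) (v : K3 → ℝ≥0∞) :
    TZ (fun a b c => if len c ≤ len a ∧ len c ≤ len b then W a b c * (x a * (v b * v c)) else 0)
      ≤ 768 * β * ∑' k, Lp m k * v k ^ 2 := by
  have hm : 2 - m ≤ 1 := by rw [hsm]; linarith
  have hm' : -1 ≤ 2 - m := by rw [hsm]; linarith
  set μ : ℕ → ℝ≥0∞ := fun l => Sj l fun k => Lp m k * v k ^ 2 with hμ
  set μw : ℕ → ℝ≥0∞ := fun j => Sw j fun k => Lp m k * v k ^ 2 with hμw
  set S := ∑' k, Lp m k * v k ^ 2 with hS
  have hμS : ∑' l, μ l = S := tsum_Sj _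
  have hμwS : ∑' j, μw j ≤ 3 * S := tsum_Sw _
  have h1 : TZ (fun a b c => if len c ≤ len a ∧ len c ≤ len b then
      W a b c * (x a * (v b * v c)) else 0)
      ≤ TZ (fun a b c => if len c ≤ len a ∧ len c ≤ len b then
        2 * ((LL c * v c) * (x a * (LL b * v b))) else 0) := by
    refine TZ_mono fun a b c habc => ?_
    split_ifs with hc
    · have w := wr_le3 habc hc.1 hc.2
      have W1 : W a b c ≤ 2 * (LL b * LL c) := by
        unfold W LL
        rw [← ENNReal.ofReal_mul (len_nonneg b), ← ENNReal.ofReal_ofNat,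
          ← ENNReal.ofReal_mul (by norm_num)]
        exact ENNReal.ofReal_le_ofReal w
      calc W a b c * (x a * (v b * v c)) ≤ (2 * (LL b * LL c)) * (x a * (v b * v c)) := by
            gcongr
        _ = _ := by ring
    · exact le_rfl
  refine h1.trans ?_
  rw [TZ_ca]
  have h2 : ∀ c, ∑' a, (if len c ≤ len a ∧ len c ≤ len (-a - c) then
        2 * ((LL c * v c) * (x a * (LL (-a - c) * v (-a - c)))) else 0)
      ≤ 2 * ((LL c * v c) * ∑' j, (if sh c ≤ j then 2 * β * pw (-s * j + (1 - m / 2) * j)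
          * μw j ^ (1 / 2 : ℝ) else 0)) := by
    intro c
    have e : ∀ a, (if len c ≤ len a ∧ len c ≤ len (-a - c) then
        2 * ((LL c * v c) * (x a * (LL (-a - c) * v (-a - c)))) else 0)
        = 2 * ((LL c * v c) * (if len c ≤ len a ∧ len c ≤ len (-a - c) then
        x a * (LL (-a - c) * v (-a - c)) else 0)) := by
      intro a
      split_ifs <;> simp
    simp_rw [e]
    rw [ENNReal.tsum_mul_left, ENNReal.tsum_mul_left]
    gcongr
    exact inner_sum hm hm' h v c
  refine (ENNReal.tsum_le_tsum h2).trans ?_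
  rw [ENNReal.tsum_mul_left]
  have h3 : ∑' c, (LL c * v c) * ∑' j, (if sh c ≤ j then 2 * β * pw (-s * j + (1 - m / 2) * j)
          * μw j ^ (1 / 2 : ℝ) else 0)
      = ∑' j : ℕ, (2 * β * pw (-s * j + (1 - m / 2) * j) * μw j ^ (1 / 2 : ℝ))
        * ∑' c, (if sh c ≤ j then LL c * v c else 0) := by
    simp_rw [← ENNReal.tsum_mul_left]
    rw [ENNReal.tsum_comm]
    refine tsum_congr fun j => tsum_congr fun c => ?_
    split_ifs
    · ring
    · simp
  rw [h3]
  have h4 : ∀ j : ℕ, (2 * β * pw (-s * j + (1 - m / 2) * j) * μw j ^ (1 / 2 : ℝ))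
        * ∑' c, (if sh c ≤ j then LL c * v c else 0)
      ≤ ∑' l, (if l ≤ j then 48 * β * (pw (-1) ^ (j - l) * (μw j + μ l)) else 0) := by
    intro j
    refine (mul_le_mul_right (low_Y hm v j) _).trans ?_
    rw [← ENNReal.tsum_mul_left]
    refine ENNReal.tsum_le_tsum fun l => ?_
    split_ifs with hl
    · have e1 : pw (-s * j + (1 - m / 2) * j) * pw ((5 / 2 - m / 2) * l) ≤ pw (-1) ^ (j - l) := by
        rw [← pw_add, ← pw_mul_nat]
        refine pw_mono ?_
        rw [Nat.cast_sub hl, hsm]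
        have : (l : ℝ) ≤ j := by exact_mod_cast hl
        nlinarith
      have e2 : μw j ^ (1 / 2 : ℝ) * μ l ^ (1 / 2 : ℝ) ≤ μw j + μ l := by
        have := mul_le_sq_add (μw j ^ (1 / 2 : ℝ)) (μ l ^ (1 / 2 : ℝ))
        rwa [sq_sqrt_enn, sq_sqrt_enn] at this
      calc 2 * β * pw (-s * j + (1 - m / 2) * j) * μw j ^ (1 / 2 : ℝ)
            * (24 * pw ((5 / 2 - m / 2) * l) * (Sj l fun k => Lp m k * v k ^ 2) ^ (1 / 2 : ℝ))
          = 48 * β * ((pw (-s * j + (1 - m / 2) * j) * pw ((5 / 2 - m / 2) * l))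
            * (μw j ^ (1 / 2 : ℝ) * μ l ^ (1 / 2 : ℝ))) := by
            simp only [hμ]
            ring
        _ ≤ 48 * β * (pw (-1) ^ (j - l) * (μw j + μ l)) := by gcongr
    · simp
  have h5 : ∑' j, ∑' l, (if l ≤ j then 48 * β * (pw (-1) ^ (j - l) * (μw j + μ l)) else 0)
      ≤ 384 * β * S := by
    have e : ∀ j l : ℕ, (if l ≤ j then 48 * β * (pw (-1) ^ (j - l) * (μw j + μ l)) else 0)
        = (48 * β * μw j) * (if l ≤ j then pw (-1) ^ (j - l) else 0)
          + (48 * β * μ l) * (if l ≤ j then pw (-1) ^ (j - l) else 0) := by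
      intro j l
      split_ifs
      · ring
      · simp
    simp_rw [e, ENNReal.tsum_add]
    have hr : (1 - pw (-1))⁻¹ = 2 := by
      have : pw (-1) = 2⁻¹ := by
        unfold pw
        rw [Real.rpow_neg_one, ENNReal.ofReal_inv_of_pos two_pos, ENNReal.ofReal_ofNat]
      rw [this, ENNReal.one_sub_inv_two, inv_inv]
    have a1 : ∑' j, ∑' l, (48 * β * μw j) * (if l ≤ j then pw (-1) ^ (j - l) else 0)
        ≤ 48 * β * (3 * S) * 2 := by
      calc _ ≤ ∑' j, (48 * β * μw j) * 2 := by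
            refine ENNReal.tsum_le_tsum fun j => ?_
            rw [ENNReal.tsum_mul_left]
            gcongr
            exact (geo1 _ _).trans hr.le
        _ = 48 * β * (∑' j, μw j) * 2 := by
            rw [ENNReal.tsum_mul_right, ENNReal.tsum_mul_left]
        _ ≤ _ := by gcongr
    have a2 : ∑' j, ∑' l, (48 * β * μ l) * (if l ≤ j then pw (-1) ^ (j - l) else 0)
        ≤ 48 * β * S * 2 := by
      rw [ENNReal.tsum_comm]
      calc _ ≤ ∑' l, (48 * β * μ l) * 2 := by
            refine ENNReal.tsum_le_tsum fun l => ?_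
            rw [ENNReal.tsum_mul_left]
            gcongr
            exact (geo2 _ _).trans hr.le
        _ = 48 * β * (∑' l, μ l) * 2 := by
            rw [ENNReal.tsum_mul_right, ENNReal.tsum_mul_left]
        _ = _ := by rw [hμS]
    calc _ ≤ 48 * β * (3 * S) * 2 + 48 * β * S * 2 := add_le_add a1 a2
      _ = _ := by ring
  calc 2 * ∑' j : ℕ, (2 * β * pw (-s * j + (1 - m / 2) * j) * μw j ^ (1 / 2 : ℝ))
        * ∑' c, (if sh c ≤ j then LL c * v c else 0)
      ≤ 2 * ∑' j, ∑' l, (if l ≤ j then 48 * β * (pw (-1) ^ (j - l) * (μw j + μ l)) else 0) := by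
        gcongr
        exact h4 _
    _ ≤ 2 * (384 * β * S) := by gcongr
    _ = _ := by ring

/-- **The trilinear estimate with a Besov norm.** -/
theorem TZ_besov (hs0 : 1 / 2 ≤ s) (hs : s < 5 / 2) (h : Bes s β x) (v : K3 → ℝ≥0∞) :
    TZ (fun a b c => W a b c * (x a * (v b * v c)))
      ≤ (96 * kap s + 1536) * β * ∑' k, Lp (7 / 2 - s) k * v k ^ 2 := by
  classical
  have h1 : TZ (fun a b c => W a b c * (x a * (v b * v c)))
      ≤ TZ (fun a b c => (if len a ≤ len b ∧ len a ≤ len c then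
          W a b c * (x a * (v b * v c)) else 0)
        + ((if len c ≤ len a ∧ len c ≤ len b then W a b c * (x a * (v b * v c)) else 0)
        + (if len b ≤ len a ∧ len b ≤ len c then W a c b * (x a * (v c * v b)) else 0))) := by
    refine TZ_mono fun a b c _ => ?_
    rcases le_total (len a) (len b) with h1 | h1
    · rcases le_total (len a) (len c) with h2 | h2
      · rw [if_pos ⟨h1, h2⟩]
        exact le_self_add
      · rw [if_pos (c := len c ≤ len a ∧ len c ≤ len b) ⟨h2, h2.trans h1⟩]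
        exact le_add_left le_self_add
    · rcases le_total (len b) (len c) with h2 | h2
      · rw [if_pos (c := len b ≤ len a ∧ len b ≤ len c) ⟨h1, h2⟩, W_swap23, mul_comm (v c)]
        exact le_add_left le_add_self
      · rw [if_pos (c := len c ≤ len a ∧ len c ≤ len b) ⟨h2.trans h1, h2⟩]
        exact le_add_left le_self_add
  refine h1.trans ?_
  rw [TZ_add, TZ_add]
  have e : TZ (fun a b c => if len b ≤ len a ∧ len b ≤ len c then
      W a c b * (x a * (v c * v b)) else 0)
      = TZ (fun a b c => if len c ≤ len a ∧ len c ≤ len b then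
      W a b c * (x a * (v b * v c)) else 0) :=
    TZ_swap23 (fun a b c => if len c ≤ len a ∧ len c ≤ len b then
      W a b c * (x a * (v b * v c)) else 0)
  rw [e]
  have c1 := TZ_case1 hs h v
  have c2 := TZ_case2 (m := 7 / 2 - s) rfl hs0 hs h v
  calc _ ≤ 96 * kap s * β * (∑' k, Lp (7 / 2 - s) k * v k ^ 2)
        + (768 * β * (∑' k, Lp (7 / 2 - s) k * v k ^ 2)
        + 768 * β * ∑' k, Lp (7 / 2 - s) k * v k ^ 2) := add_le_add c1 (add_le_add c2 c2)
    _ = _ := by ring

end Pool.Agent.TH616.NSH
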