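import Pool.Agent.TH616.NSH.Free
import Pool.Agent.TH616.NSH.Alg

/-!
The bound of the convection term.
-/

set_option autoImplicit false

open MeasureTheory Set Filter Topology
open scoped ENNReal
open H459R3.NS Pool.Agent.TH305.FB

namespace Pool.Agent.TH616.NSH

variable {U : Fin 3 → K3 → ℂ}

/-- The size of a helical mode. -/
noncomputable def hm (U : Fin 3 → K3 → ℂ) (s : ℤˣ) (k : K3) : ℝ≥0∞ :=
  ENNReal.ofReal (∑ i, ‖hp s U i k‖)

/-- The sum of the sizes of the two modes. -/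
noncomputable def vv (U : Fin 3 → K3 → ℂ) (k : K3) : ℝ≥0∞ := hm U 1 k + hm U (-1) k

open Classical in
/-- The sum of the sizes of the modes in `Z`. -/
noncomputable def mz (Z : Set (K3 × ℤˣ)) (U : Fin 3 → K3 → ℂ) (k : K3) : ℝ≥0∞ :=
  (if (k, (1 : ℤˣ)) ∈ Z then hm U 1 k else 0) + (if (k, (-1 : ℤˣ)) ∈ Z then hm U (-1) k else 0)

theorem hm_le_vv (s : ℤˣ) (k : K3) : hm U s k ≤ vv U k := by
  unfold vv
  rcases Int.units_eq_one_or s with h | h
  · rw [h]; exact le_self_add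
  · rw [h]; exact le_add_self

theorem hm_le_mz {Z : Set (K3 × ℤˣ)} {s : ℤˣ} {k : K3} (h : (k, s) ∈ Z) :
    hm U s k ≤ mz Z U k := by
  unfold mz
  rcases Int.units_eq_one_or s with h1 | h1
  · subst h1
    rw [if_pos h]; exact le_self_add
  · subst h1
    rw [if_pos (c := (k, (-1 : ℤˣ)) ∈ Z) h]; exact le_add_self

theorem mz_zero (Z : Set (K3 × ℤˣ)) : mz Z U 0 = 0 := by
  have : ∀ s, hm U s 0 = 0 := by
    intro s
    unfold hm
    simp [hp_zero]
  unfold mz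
  rw [this, this]
  simp

/-- the sums over the placements -/
noncomputable def plc (x v : K3 → ℝ≥0∞) (a b c : K3) : ℝ≥0∞ :=
  W a b c * (x a * (v b * v c)) + (W b a c * (x b * (v a * v c)) + W c b a * (x c * (v b * v a)))

theorem TZ_plc (x v : K3 → ℝ≥0∞) :
    TZ (plc x v) = 3 * TZ (fun a b c => W a b c * (x a * (v b * v c))) := by
  set F : K3 → K3 → K3 → ℝ≥0∞ := fun a b c => W a b c * (x a * (v b * v c)) with hF
  have : plc x v = fun a b c => F a b c + (F b a c + F c b a) := rfl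
  rw [this, TZ_add, TZ_add, TZ_swap12 F, TZ_swap13 F]
  ring

theorem plc_le1 (x v : K3 → ℝ≥0∞) (a b c : K3) : W a b c * (x a * (v b * v c)) ≤ plc x v a b c :=
  le_self_add

theorem plc_le2 (x v : K3 → ℝ≥0∞) (a b c : K3) :
    W a b c * (v a * (x b * v c)) ≤ plc x v a b c := by
  unfold plc
  refine le_add_left (le_add_right (le_of_eq ?_))
  rw [W_swap12]
  ring

theorem plc_le3 (x v : K3 → ℝ≥0∞) (a b c : K3) :
    W a b c * (v a * (v b * x c)) ≤ plc x v a b c := by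
  unfold plc
  refine le_add_left (le_add_left (le_of_eq ?_))
  rw [W_swap12, W_swap23, W_swap12]
  ring

open Classical in
/-- The total kernel. -/
noncomputable def ker (X Y : Set (K3 × ℤˣ)) (U : Fin 3 → K3 → ℂ) (a b c : K3) : ℝ≥0∞ :=
  plc (mz X U) (vv U) a b c + (plc (mz Y U) (vv U) a b c +
    (if FreeT (X ∪ Y) a b c then W a b c * (vv U a * (vv U b * vv U c)) else 0))

theorem mode_term (X Y : Set (K3 × ℤˣ)) {a b c : K3} (hab : crossProduct a b ≠ 0)
    (s : ℤˣ) : W a b c * (hm U s a * (hm U 1 b * hm U (-1) c)) ≤ ker X Y U a b c := by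
  have ha := hm_le_vv (U := U) s a
  have hb := hm_le_vv (U := U) 1 b
  have hc := hm_le_vv (U := U) (-1) c
  have key : ∀ Z : Set (K3 × ℤˣ), ((a, s) ∈ Z ∨ (b, (1 : ℤˣ)) ∈ Z ∨ (c, (-1 : ℤˣ)) ∈ Z) →
      W a b c * (hm U s a * (hm U 1 b * hm U (-1) c)) ≤ plc (mz Z U) (vv U) a b c := by
    intro Z h
    rcases h with h | h | h
    · refine le_trans ?_ (plc_le1 _ _ a b c)
      gcongr
      exact hm_le_mz h
    · refine le_trans ?_ (plc_le2 _ _ a b c)
      gcongr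
      exact hm_le_mz h
    · refine le_trans ?_ (plc_le3 _ _ a b c)
      gcongr
      exact hm_le_mz h
  by_cases hX : (a, s) ∈ X ∨ (b, (1 : ℤˣ)) ∈ X ∨ (c, (-1 : ℤˣ)) ∈ X
  · exact (key X hX).trans le_self_add
  by_cases hY : (a, s) ∈ Y ∨ (b, (1 : ℤˣ)) ∈ Y ∨ (c, (-1 : ℤˣ)) ∈ Y
  · exact le_add_left ((key Y hY).trans le_self_add)
  push Not at hX hY
  have hfr : FreeT (X ∪ Y) a b c := by
    refine ⟨hab, s, 1, -1, ?_, ?_, ?_, ?_⟩
    · rintro ⟨-, h⟩
      exact absurd h (by decide)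
    · rintro (h | h)
      · exact hX.1 h
      · exact hY.1 h
    · rintro (h | h)
      · exact hX.2.1 h
      · exact hY.2.1 h
    · rintro (h | h)
      · exact hX.2.2 h
      · exact hY.2.2 h
  unfold ker
  rw [if_pos hfr]
  refine le_add_left (le_add_left ?_)
  gcongr

theorem det3_lam (u P M : Fin 3 → ℂ) (r s : ℂ) :
    det3 u (fun i => r * P i) (fun i => s * M i) = r * s * det3 u P M := by
  unfold det3
  ring

theorem term_le (X Y : Set (K3 × ℤˣ)) (hdiv : ∀ k, ∑ j, (k j : ℂ) * U j k = 0)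
    {a b c : K3} (habc : a + b + c = 0) :
    ‖det3 (fun i => U i a) (fun i => lam (hp 1 U i) b) (fun i => lam (hp (-1) U i) c)‖ₑ
      ≤ 4 * ker X Y U a b c := by
  have e : det3 (fun i => U i a) (fun i => lam (hp 1 U i) b) (fun i => lam (hp (-1) U i) c)
      = (len b : ℂ) * (len c : ℂ) * det3 (fun i => U i a) (fun i => hp 1 U i b)
        (fun i => hp (-1) U i c) := det3_lam _ _ _ _ _
  have e2 : ‖det3 (fun i => U i a) (fun i => lam (hp 1 U i) b) (fun i => lam (hp (-1) U i) c)‖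
      = (len b * len c) * ‖det3 (fun i => U i a) (fun i => hp 1 U i b)
        (fun i => hp (-1) U i c)‖ := by
    rw [e, norm_mul, ← Complex.ofReal_mul, Complex.norm_real, Real.norm_eq_abs,
      abs_of_nonneg (mul_nonneg (len_nonneg b) (len_nonneg c))]
  have hP : ∀ i, Complex.I * crossProduct (fun j => (b j : ℂ)) (fun j => hp 1 U j b) i
      = (len b : ℂ) * hp 1 U i b := by
    intro i
    rw [hp_curl 1 hdiv b i]
    push_cast
    ring
  have hM : ∀ i, Complex.I * crossProduct (fun j => (c j : ℂ)) (fun j => hp (-1) U j c) i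
      = -((len c : ℂ) * hp (-1) U i c) := by
    intro i
    rw [hp_curl (-1) hdiv c i]
    push_cast
    ring
  rw [← ofReal_norm, e2]
  by_cases hab : crossProduct a b = 0
  · rw [det_zero habc hab _ _ _ (hdiv a) (hp_div 1 hdiv b) (hp_div (-1) hdiv c) hP hM
      (fun h => by subst h; funext i; exact hp_zero _ _)
      (fun h => by subst h; funext i; exact hp_zero _ _)]
    simp
  have ha : a ≠ 0 := by
    rintro rfl
    exact hab (by simp)
  have h1 := norm_det_le habc _ _ _ (hdiv a) (hp_div 1 hdiv b) (hp_div (-1) hdiv c) hP hM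
  have hU : ∑ i, ‖U i a‖ ≤ (∑ i, ‖hp 1 U i a‖) + ∑ i, ‖hp (-1) U i a‖ := by
    rw [← Finset.sum_add_distrib]
    refine Finset.sum_le_sum fun i _ => ?_
    rw [← hp_add (U := U) ha i]
    exact norm_add_le _ _
  have s1 : 0 ≤ ∑ i, ‖hp 1 U i a‖ := Finset.sum_nonneg fun _ _ => norm_nonneg _
  have s1' : 0 ≤ ∑ i, ‖hp (-1) U i a‖ := Finset.sum_nonneg fun _ _ => norm_nonneg _
  have s2 : 0 ≤ ∑ i, ‖hp 1 U i b‖ := Finset.sum_nonneg fun _ _ => norm_nonneg _
  have s3 : 0 ≤ ∑ i, ‖hp (-1) U i c‖ := Finset.sum_nonneg fun _ _ => norm_nonneg _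
  have hw := coef_le_wr a b c
  have hw0 := wr_nonneg a b c
  have h2 : (len b * len c) * ‖det3 (fun i => U i a) (fun i => hp 1 U i b)
        (fun i => hp (-1) U i c)‖
      ≤ 2 * (wr a b c * ((∑ i, ‖hp 1 U i a‖) * ((∑ i, ‖hp 1 U i b‖) * ∑ i, ‖hp (-1) U i c‖)))
        + 2 * (wr a b c * ((∑ i, ‖hp (-1) U i a‖)
          * ((∑ i, ‖hp 1 U i b‖) * ∑ i, ‖hp (-1) U i c‖))) := by
    refine h1.trans ?_
    calc 2 * (len a * min (len b) (len c)) * ((∑ i, ‖U i a‖) * (∑ i, ‖hp 1 U i b‖)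
          * ∑ i, ‖hp (-1) U i c‖)
        ≤ 2 * wr a b c * (((∑ i, ‖hp 1 U i a‖) + ∑ i, ‖hp (-1) U i a‖) * (∑ i, ‖hp 1 U i b‖)
          * ∑ i, ‖hp (-1) U i c‖) := by
          gcongr
      _ = _ := by ring
  refine (ENNReal.ofReal_le_ofReal h2).trans ?_
  have key : ∀ s : ℤˣ, ENNReal.ofReal (2 * (wr a b c * ((∑ i, ‖hp s U i a‖)
      * ((∑ i, ‖hp 1 U i b‖) * ∑ i, ‖hp (-1) U i c‖))))
      = 2 * (W a b c * (hm U s a * (hm U 1 b * hm U (-1) c))) := by
    intro s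
    have s4 : 0 ≤ ∑ i, ‖hp s U i a‖ := Finset.sum_nonneg fun _ _ => norm_nonneg _
    unfold W hm
    rw [ENNReal.ofReal_mul (by norm_num), ENNReal.ofReal_mul hw0, ENNReal.ofReal_mul s4,
      ENNReal.ofReal_mul s2, ENNReal.ofReal_ofNat]
  rw [ENNReal.ofReal_add (by positivity) (by positivity), key, key]
  have t1 := mode_term (U := U) X Y hab 1 (c := c)
  have t2 := mode_term (U := U) X Y hab (-1) (c := c)
  calc _ ≤ 2 * ker X Y U a b c + 2 * ker X Y U a b c := by gcongr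
    _ = _ := by ring

theorem CC_le (X Y : Set (K3 × ℤˣ)) (hU : ∀ i, Rap (U i))
    (hdiv : ∀ k, ∑ j, (k j : ℂ) * U j k = 0) :
    ‖CC U‖ₑ ≤ 52 * TZ (ker X Y U) := by
  rw [CC_eq hU hdiv, enorm_mul]
  have h1 := Dt_hasSum (A := U) (B := fun i => lam (hp 1 U i)) (C := fun i => lam (hp (-1) U i))
    (fun i => (hU i).summable) (fun i => (Rap.lam (Rap_hp 1 hU i)).summable)
    (fun i => (Rap.lam (Rap_hp (-1) hU i)).summable)
  rw [← h1.tsum_eq]
  have h2 : ‖-(4 * (Real.pi : ℂ))‖ₑ ≤ 13 := by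
    rw [← ofReal_norm, norm_neg, norm_mul, Complex.norm_real, Complex.norm_ofNat,
      Real.norm_eq_abs, abs_of_pos Real.pi_pos]
    have h3 : 4 * Real.pi ≤ 13 := by linarith [Real.pi_lt_d2]
    calc ENNReal.ofReal (4 * Real.pi) ≤ ENNReal.ofReal 13 := ENNReal.ofReal_le_ofReal h3
      _ = 13 := ENNReal.ofReal_ofNat 13
  calc _ ≤ 13 * ∑' p : K3 × K3, 4 * ker X Y U p.1 p.2 (-p.1 - p.2) := by
        gcongr
        refine enorm_tsum_le_tsum_enorm.trans (ENNReal.tsum_le_tsum fun p => ?_)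
        exact term_le X Y hdiv (by abel)
    _ = _ := by
        rw [ENNReal.tsum_mul_left]
        unfold TZ
        ring

/-- The bound of the total kernel. -/
theorem TZ_ker (X Y : Set (K3 × ℤˣ)) {A σ s0 s : ℝ} {α β : ℝ≥0∞} {x0 x1 : K3 → ℝ≥0∞}
    (hA : 0 ≤ A) (hZ : TwoD A (X ∪ Y)) (hσ0 : 0 ≤ σ) (hσ1 : σ ≤ 1)
    (hs00 : 1 / 2 ≤ s0) (hs01 : s0 < 5 / 2) (hs0 : 1 / 2 ≤ s) (hs1 : s < 5 / 2)
    (hx : ∀ k, mz X U k ≤ x0 k + x1 k) (h0 : Bes s0 α x0) (h1 : Bes s β x1) :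
    TZ (ker X Y U) ≤ 3 * ((96 * kap s0 + 1536) * α * ∑' k, Lp (7 / 2 - s0) k * vv U k ^ 2)
      + 3 * ((96 * kap s + 1536) * β * ∑' k, Lp (7 / 2 - s) k * vv U k ^ 2)
      + 12 * ((∑' k, Lp σ k * mz Y U k) * ∑' k, Lp (2 - σ) k * vv U k ^ 2)
      + 12 * ENNReal.ofReal (Real.sqrt A) * ((∑' k, (LL k * vv U k) ^ 2) ^ (1 / 2 : ℝ)
        * ∑' k, (LL k * vv U k) ^ 2) := by
  classical
  have e : TZ (ker X Y U) = TZ (plc (mz X U) (vv U)) + (TZ (plc (mz Y U) (vv U))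
      + TZ (fun a b c => if FreeT (X ∪ Y) a b c then
        W a b c * (vv U a * (vv U b * vv U c)) else 0)) := by
    rw [← TZ_add, ← TZ_add]
    unfold ker
    rfl
  rw [e, TZ_plc, TZ_plc]
  have b1 : TZ (fun a b c => W a b c * (mz X U a * (vv U b * vv U c)))
      ≤ (96 * kap s0 + 1536) * α * (∑' k, Lp (7 / 2 - s0) k * vv U k ^ 2)
        + (96 * kap s + 1536) * β * ∑' k, Lp (7 / 2 - s) k * vv U k ^ 2 := by
    refine le_trans (TZ_mono (G := fun a b c => W a b c * (x0 a * (vv U b * vv U c))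
      + W a b c * (x1 a * (vv U b * vv U c))) fun a b c _ => ?_) ?_
    · calc W a b c * (mz X U a * (vv U b * vv U c))
          ≤ W a b c * ((x0 a + x1 a) * (vv U b * vv U c)) := by
            gcongr
            exact hx a
        _ = _ := by ring
    · rw [TZ_add]
      exact add_le_add (TZ_besov hs00 hs01 h0 _) (TZ_besov hs0 hs1 h1 _)
  have b2 := TZ_wiener hσ0 hσ1 (mz Y U) (vv U)
  have b3 := TZ_free hA hZ (vv U)
  calc _ ≤ 3 * ((96 * kap s0 + 1536) * α * (∑' k, Lp (7 / 2 - s0) k * vv U k ^ 2)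
        + (96 * kap s + 1536) * β * ∑' k, Lp (7 / 2 - s) k * vv U k ^ 2)
        + (3 * (4 * ((∑' k, Lp σ k * mz Y U k) * ∑' k, Lp (2 - σ) k * vv U k ^ 2))
        + 12 * ENNReal.ofReal (Real.sqrt A) * ((∑' k, (LL k * vv U k) ^ 2) ^ (1 / 2 : ℝ)
        * ∑' k, (LL k * vv U k) ^ 2)) := by
        gcongr
    _ = _ := by ring

end Pool.Agent.TH616.NSH
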