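import Pool.Agent.TH616.NSH.Alg

/-!
The balance of the critical energy of a smooth periodic solution.
-/

set_option autoImplicit false

open MeasureTheory Set Filter Topology
open scoped ContDiff
open H459R3.NS Pool.Agent.TH305.FB

namespace Pool.Agent.TH616.NSH

/-- The critical energy. -/
noncomputable def EE (U : Fin 3 → K3 → ℂ) : ℝ := ∑' k, len k * e2 U k

/-- The dissipation of the critical energy. -/
noncomputable def DD (U : Fin 3 → K3 → ℂ) : ℝ := ∑' k, len k ^ 3 * e2 U k

/-- The middle norm. -/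
noncomputable def GG (U : Fin 3 → K3 → ℂ) : ℝ := ∑' k, len k ^ 2 * e2 U k

variable {U : Fin 3 → K3 → ℂ}

theorem summable_len (hU : ∀ i, Rap (U i)) (n : ℕ) : Summable fun k => len k ^ n * e2 U k := by
  have hs : Summable fun k => (N k : ℝ) ^ n * am U k := summable_am_pow hU n
  have hs0 : Summable (am U) := summable_am hU
  have hM : ∀ k, am U k ≤ ∑' m, am U m := fun k => hs0.le_tsum k fun _ _ => am_nonneg _ _
  refine Summable.of_nonneg_of_le
    (fun k => mul_nonneg (pow_nonneg (len_nonneg k) n) (e2_nonneg U k)) (fun k => ?_)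
    ((hs.mul_left (2 ^ n)).mul_right (∑' m, am U m))
  have h1 := len_le_N k
  have h2 := e2_le U k
  have h3 := am_nonneg U k
  calc len k ^ n * e2 U k ≤ (2 * N k) ^ n * (am U k * am U k) := by
        have : e2 U k ≤ am U k * am U k := by rw [← sq]; exact h2
        have := len_nonneg k
        have := e2_nonneg U k
        gcongr
    _ ≤ (2 * N k) ^ n * (am U k * ∑' m, am U m) := by
        have := hM k
        gcongr
    _ = 2 ^ n * ((N k : ℝ) ^ n * am U k) * ∑' m, am U m := by rw [mul_pow]; ring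

theorem summable_EE (hU : ∀ i, Rap (U i)) : Summable fun k => len k * e2 U k := by
  simpa using summable_len hU 1

theorem EE_nonneg (U : Fin 3 → K3 → ℂ) : 0 ≤ EE U :=
  tsum_nonneg fun k => mul_nonneg (len_nonneg k) (e2_nonneg U k)

theorem DD_nonneg (U : Fin 3 → K3 → ℂ) : 0 ≤ DD U :=
  tsum_nonneg fun k => mul_nonneg (pow_nonneg (len_nonneg k) 3) (e2_nonneg U k)

theorem GG_nonneg (U : Fin 3 → K3 → ℂ) : 0 ≤ GG U :=
  tsum_nonneg fun k => mul_nonneg (pow_nonneg (len_nonneg k) 2) (e2_nonneg U k)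

section

variable {ν T : ℝ} {u : ℝ → V → V} {p : ℝ → V → ℝ}

/-- The convection term. -/
theorem hasSum_conv1 (h : IsSol ν T u p) {t : ℝ} (ht : t ∈ Ico 0 T) (i : Fin 3) :
    HasSum (fun k => ((len k : ℝ) : ℂ) *
      ((starRingEnd ℂ) (uh u t i k) * fr (conv (fun i y => u t y i) i) k))
      (∑ j, Tri (uh u t j) (D j (uh u t i)) (lam (uh u t i))) := by
  have hR := rap_uh h ht
  have hc : Rap (lam (uh u t i)) := Rap.lam (hR i)
  have hsp : ∀ i, SP (fun y => u t y i) := fun i => h.sp ht i
  have hcs := hc.summable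
  set c : K3 → ℂ := lam (uh u t i) with hcdef
  have hcont : Continuous fun x : V => ((conv (fun i y => u t y i) i x : ℝ) : ℂ) :=
    (contDiff_ofReal (sp_conv hsp i).smooth).continuous
  have h1 := integral_S_mul hcs hcont
  have e1 : ∀ k, c k * ∫ x in cube, ee k x * ((conv (fun i y => u t y i) i x : ℝ) : ℂ)
      = c k * fr (conv (fun i y => u t y i) i) (-k) := by
    intro k
    unfold fr fc
    rw [neg_neg]
  simp_rw [e1] at h1
  have h2 := (Equiv.neg K3).hasSum_iff.2 h1
  have e2' : ((fun k => c k * fr (conv (fun i y => u t y i) i) (-k)) ∘ (Equiv.neg K3))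
      = fun k => ((len k : ℝ) : ℂ) *
      ((starRingEnd ℂ) (uh u t i k) * fr (conv (fun i y => u t y i) i) k) := by
    funext k
    simp only [Function.comp_apply, Equiv.neg_apply, neg_neg, hcdef, lam]
    rw [len_neg, uh, fr_conj]
    ring
  rw [e2'] at h2
  have e3 : ∑ j, Tri (uh u t j) (D j (uh u t i)) c
      = ∫ x in cube, S c x * ((conv (fun i y => u t y i) i x : ℝ) : ℂ) := by
    have e4 : ∀ j, Tri (uh u t j) (D j (uh u t i)) c
        = ∫ x in cube, S c x * ((u t x j * pd j (fun y => u t y i) x : ℝ) : ℂ) := by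
      intro j
      rw [tri_eq (hR j).summable ((hR i).D j).summable hcs]
      congr 1
      funext x
      have a1 : S (uh u t j) x = ((u t x j : ℝ) : ℂ) := S_fr (hsp j) x
      have a2 : S (D j (uh u t i)) x = ((pd j (fun y => u t y i) x : ℝ) : ℂ) := by
        rw [uh, ← fr_pd (hsp i)]
        exact S_fr ((hsp i).pd j) x
      rw [a1, a2]
      push_cast
      ring
    simp_rw [e4]
    rw [← integral_finsetSum]
    · congr 1
      funext x
      rw [← Finset.mul_sum]
      unfold conv
      push_cast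
      rfl
    · intro j _
      exact integrableOn_cube ((S_continuous hcs).mul
        (contDiff_ofReal ((hsp j).mul ((hsp i).pd j)).smooth).continuous)
  rw [e3]
  exact h2

theorem hasSum_CC (h : IsSol ν T u p) {t : ℝ} (ht : t ∈ Ico 0 T) :
    HasSum (fun k => ((len k : ℝ) : ℂ) *
      ∑ i, (starRingEnd ℂ) (uh u t i k) * fr (conv (fun i y => u t y i) i) k)
      (CC (uh u t)) := by
  unfold CC
  have h1 := hasSum_sum (s := Finset.univ) fun i _ => hasSum_conv1 h ht i
  simp_rw [Finset.mul_sum]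
  exact h1

theorem half_len_le (k : K3) : len k / 2 ≤ (N k : ℝ) ^ 4 := by
  have h1 := len_le_N k
  rcases Nat.eq_zero_or_pos (N k) with h | h
  · rw [h] at h1 ⊢
    push_cast at h1 ⊢
    linarith
  · have h2 : (1 : ℝ) ≤ N k := by exact_mod_cast h
    have h3 : (N k : ℝ) ≤ (N k : ℝ) ^ 4 := le_self_pow₀ h2 (by norm_num)
    linarith

theorem EE_eq (h : IsSol ν T u p) {t : ℝ} (ht : t ∈ Ico 0 T) :
    EE (uh u t) = 2 * ∑ i, ∑' k, len k / 2 * ‖uh u t i k‖ ^ 2 := by
  have hs : ∀ i, Summable fun k => len k / 2 * ‖uh u t i k‖ ^ 2 := by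
    intro i
    refine Summable.of_nonneg_of_le (fun k => mul_nonneg (by linarith [len_nonneg k])
      (by positivity)) (fun k => ?_) ((summable_EE (rap_uh h ht)).mul_left (1 / 2))
    have h1 : ‖uh u t i k‖ ^ 2 ≤ e2 (uh u t) k :=
      Finset.single_le_sum (f := fun i => ‖uh u t i k‖ ^ 2) (fun _ _ => sq_nonneg _)
        (Finset.mem_univ i)
    have h2 := mul_le_mul_of_nonneg_left h1 (len_nonneg k)
    linarith
  unfold EE TH305.FB.e2
  rw [← Summable.tsum_finsetSum fun i _ => hs i, ← tsum_mul_left]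
  refine tsum_congr fun k => ?_
  rw [Finset.mul_sum, Finset.mul_sum]
  exact Finset.sum_congr rfl fun i _ => by ring

theorem EE_continuousOn (h : IsSol ν T u p) : ContinuousOn (fun t => EE (uh u t)) (Ico 0 T) := by
  have h1 : ContinuousOn (fun t => 2 * ∑ i, ∑' k, len k / 2 * ‖fr (fun y => u t y i) k‖ ^ 2)
      (Ico 0 T) := by
    refine continuousOn_const.mul (continuousOn_finsetSum _ fun i _ => ?_)
    exact continuousOn_tsum_fr (f := fun t y => u t y i) (h.smooth_c i)
      (fun t ht => (h.sp ht i).per) (fun k => by linarith [len_nonneg k]) half_len_le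
  exact h1.congr fun t ht => EE_eq h ht

theorem EE_hasDerivAt (h : IsSol ν T u p) {t : ℝ} (ht : t ∈ Ioo 0 T) :
    HasDerivAt (fun s => EE (uh u s))
      (-(8 * Real.pi ^ 2 * ν * DD (uh u t)) - 2 * (CC (uh u t)).re) t := by
  have hI : t ∈ Ico 0 T := ⟨ht.1.le, ht.2⟩
  have h1 : HasDerivAt (fun s => 2 * ∑ i, ∑' k, len k / 2 * ‖fr (fun y => u s y i) k‖ ^ 2)
      (2 * ∑ i, ∑' k, len k / 2 * (2 * ((starRingEnd ℂ) (uh u t i k)
        * fr (dt (fun s y => u s y i) t) k).re)) t :=
    (HasDerivAt.fun_sum fun i _ => hasDerivAt_tsum_fr (f := fun s y => u s y i) (h.smooth_c i)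
      (fun t ht => (h.sp ht i).per) (fun k => by linarith [len_nonneg k]) half_len_le
      ht).const_mul 2
  have h2 : HasDerivAt (fun s => EE (uh u s))
      (2 * ∑ i, ∑' k, len k / 2 * (2 * ((starRingEnd ℂ) (uh u t i k)
        * fr (dt (fun s y => u s y i) t) k).re)) t := by
    refine h1.congr_of_eventuallyEq ?_
    filter_upwards [Ioo_mem_nhds ht.1 ht.2] with s hs
    exact EE_eq h ⟨hs.1.le, hs.2⟩
  refine h2.congr_deriv ?_
  have hR := rap_uh h hI
  have hsum : ∀ i, Summable fun k => len k / 2 * (2 * ((starRingEnd ℂ) (uh u t i k)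
        * fr (dt (fun s y => u s y i) t) k).re) := by
    intro i
    obtain ⟨C, hC⟩ := norm_fr_le (h.sp_dt ht i)
    have hC0 : 0 ≤ C := (norm_nonneg _).trans (hC 0)
    refine Summable.of_norm_bounded (((hR i) 4).mul_left (2 * C)) fun k => ?_
    have h3 : |((starRingEnd ℂ) (uh u t i k) * fr (dt (fun s y => u s y i) t) k).re|
        ≤ ‖uh u t i k‖ * C := by
      refine (Complex.abs_re_le_norm _).trans ?_
      rw [norm_mul, RCLike.norm_conj]
      exact mul_le_mul_of_nonneg_left (hC k) (norm_nonneg _)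
    have h4 : 0 ≤ len k / 2 := by linarith [len_nonneg k]
    rw [Real.norm_eq_abs, abs_mul, abs_mul, abs_of_nonneg h4, abs_two]
    calc len k / 2 * (2 * |((starRingEnd ℂ) (uh u t i k)
          * fr (dt (fun s y => u s y i) t) k).re|)
        ≤ (N k : ℝ) ^ 4 * (2 * (‖uh u t i k‖ * C)) :=
          mul_le_mul (half_len_le k) (by linarith) (by positivity) (by positivity)
      _ = _ := by ring
  rw [← Summable.tsum_finsetSum fun i _ => hsum i, ← tsum_mul_left]
  have hre := Complex.hasSum_re (hasSum_CC h hI)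
  have hA : Summable fun k => len k ^ 3 * e2 (uh u t) k := summable_len hR 3
  have h5 := (hA.hasSum.mul_left (-(8 * Real.pi ^ 2 * ν))).sub (hre.mul_left 2)
  have h6 : (fun k => -(8 * Real.pi ^ 2 * ν) * (len k ^ 3 * e2 (uh u t) k)
      - 2 * (((len k : ℝ) : ℂ) *
      ∑ i, (starRingEnd ℂ) (uh u t i k) * fr (conv (fun i y => u t y i) i) k).re)
      = fun k => 2 * ∑ i, len k / 2 * (2 * ((starRingEnd ℂ) (uh u t i k)
        * fr (dt (fun s y => u s y i) t) k).re) := by
    funext k
    rw [← Finset.mul_sum, re_sum h ht k, Complex.re_ofReal_mul, ← len_sq_nk2]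
    ring
  rw [h6] at h5
  rw [h5.tsum_eq]
  unfold DD
  ring

end

end Pool.Agent.TH616.NSH
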