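import Pool.Agent.TH616.NSH.Bound
import Pool.Agent.TH616.NSH.Ode

/-!
The differential inequality for the critical energy.
-/

set_option autoImplicit false

open MeasureTheory Set Filter Topology
open scoped ENNReal
open H459R3.NS Pool.Agent.TH305.FB

namespace Pool.Agent.TH616.NSH

variable {U : Fin 3 → K3 → ℂ}

theorem young1 {L β ε q : ℝ} (hL : 0 ≤ L) (hβ : 0 ≤ β) (hε : 0 < ε) (hq : 1 ≤ q) :
    β * L ^ (3 - 2 / q) ≤ ε ^ (1 - q) * β ^ q * L + ε * L ^ 3 := by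
  have hq0 : 0 < q := by linarith
  rcases hL.eq_or_lt with h | hL0
  · rw [← h]
    have : (3 - 2 / q) ≠ 0 := by
      have : 2 / q ≤ 2 := by
        rw [div_le_iff₀ hq0]; linarith
      linarith
    rw [Real.zero_rpow this]
    simp
  have hw : 0 ≤ 1 - 1 / q := by
    have : 1 / q ≤ 1 := by
      rw [div_le_iff₀ hq0]; linarith
    linarith
  have hq1 : 0 ≤ 1 / q := by positivity
  have h := Real.geom_mean_le_arith_mean2_weighted hq1 hw
    (p₁ := ε ^ (1 - q) * β ^ q) (p₂ := ε * L ^ 2) (by positivity) (by positivity) (by ring)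
  have e1 : (ε ^ (1 - q) * β ^ q) ^ (1 / q) = ε ^ ((1 - q) / q) * β := by
    rw [Real.mul_rpow (by positivity) (by positivity), ← Real.rpow_mul hε.le,
      ← Real.rpow_mul hβ]
    have : q * (1 / q) = 1 := by field_simp
    rw [this, Real.rpow_one]
    congr 2
    ring
  have e2 : (ε * L ^ 2) ^ (1 - 1 / q) = ε ^ (1 - 1 / q) * L ^ (2 - 2 / q) := by
    rw [Real.mul_rpow hε.le (by positivity)]
    congr 1
    rw [← Real.rpow_natCast L 2, ← Real.rpow_mul hL]
    congr 1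
    push_cast
    ring
  have e3 : ε ^ ((1 - q) / q) * ε ^ (1 - 1 / q) = 1 := by
    rw [← Real.rpow_add hε]
    have : (1 - q) / q + (1 - 1 / q) = 0 := by field_simp; ring
    rw [this, Real.rpow_zero]
  rw [e1, e2] at h
  have e4 : ε ^ ((1 - q) / q) * β * (ε ^ (1 - 1 / q) * L ^ (2 - 2 / q))
      = β * L ^ (2 - 2 / q) := by
    calc _ = (ε ^ ((1 - q) / q) * ε ^ (1 - 1 / q)) * (β * L ^ (2 - 2 / q)) := by ring
      _ = _ := by rw [e3, one_mul]
  rw [e4] at h
  have h2 : β * L ^ (2 - 2 / q) ≤ ε ^ (1 - q) * β ^ q + ε * L ^ 2 := by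
    refine h.trans ?_
    have a1 : 0 ≤ ε ^ (1 - q) * β ^ q := by positivity
    have a2 : 0 ≤ ε * L ^ 2 := by positivity
    have a3 : 1 / q ≤ 1 := by linarith
    nlinarith
  have e5 : L ^ (3 - 2 / q) = L ^ (2 - 2 / q) * L := by
    rw [show (3 - 2 / q) = (2 - 2 / q) + 1 by ring, Real.rpow_add hL0, Real.rpow_one]
  rw [e5]
  calc β * (L ^ (2 - 2 / q) * L) = (β * L ^ (2 - 2 / q)) * L := by ring
    _ ≤ (ε ^ (1 - q) * β ^ q + ε * L ^ 2) * L := by gcongr
    _ = _ := by ring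

theorem vv_sq_le (k : K3) : vv U k ^ 2 ≤ 108 * ENNReal.ofReal (e2 U k) := by
  have h1 : ∀ s, hm U s k ≤ ENNReal.ofReal (3 * am U k) := by
    intro s
    unfold hm
    refine ENNReal.ofReal_le_ofReal ?_
    rw [Fin.sum_univ_three]
    linarith [norm_hp_le (U := U) s 0 k, norm_hp_le (U := U) s 1 k, norm_hp_le (U := U) s 2 k]
  have h0 := am_nonneg U k
  have h2 : vv U k ≤ ENNReal.ofReal (6 * am U k) := by
    unfold vv
    refine (add_le_add (h1 1) (h1 (-1))).trans (le_of_eq ?_)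
    rw [← ENNReal.ofReal_add (by positivity) (by positivity)]
    congr 1; ring
  calc vv U k ^ 2 ≤ ENNReal.ofReal (6 * am U k) ^ 2 := by gcongr
    _ = ENNReal.ofReal ((6 * am U k) ^ 2) := (ENNReal.ofReal_pow (by positivity) 2).symm
    _ ≤ ENNReal.ofReal (108 * e2 U k) := by
        refine ENNReal.ofReal_le_ofReal ?_
        have := am_sq_le U k
        nlinarith
    _ = _ := by rw [ENNReal.ofReal_mul (by norm_num), ENNReal.ofReal_ofNat]

theorem sum_Lp_le (m : ℝ) : ∑' k, Lp m k * vv U k ^ 2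
    ≤ 108 * ∑' k, Lp m k * ENNReal.ofReal (e2 U k) := by
  rw [← ENNReal.tsum_mul_left]
  refine ENNReal.tsum_le_tsum fun k => ?_
  calc Lp m k * vv U k ^ 2 ≤ Lp m k * (108 * ENNReal.ofReal (e2 U k)) := by
        gcongr
        exact vv_sq_le k
    _ = _ := by ring

theorem sum_young (hU : ∀ i, Rap (U i)) {β ε q : ℝ} (hβ : 0 ≤ β) (hε : 0 < ε) (hq : 1 ≤ q) :
    ENNReal.ofReal β * ∑' k, Lp (3 - 2 / q) k * vv U k ^ 2
      ≤ 108 * ENNReal.ofReal (ε ^ (1 - q) * β ^ q * EE U + ε * DD U) := by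
  have h1 : ENNReal.ofReal β * ∑' k, Lp (3 - 2 / q) k * ENNReal.ofReal (e2 U k)
      ≤ ENNReal.ofReal (ε ^ (1 - q) * β ^ q * EE U + ε * DD U) := by
    have hs : Summable fun k => ε ^ (1 - q) * β ^ q * (len k * e2 U k)
        + ε * (len k ^ 3 * e2 U k) :=
      ((summable_EE hU).mul_left _).add ((summable_len hU 3).mul_left _)
    have e1 : ε ^ (1 - q) * β ^ q * EE U + ε * DD U
        = ∑' k, (ε ^ (1 - q) * β ^ q * (len k * e2 U k) + ε * (len k ^ 3 * e2 U k)) := by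
      rw [((summable_EE hU).mul_left _).tsum_add ((summable_len hU 3).mul_left _),
        tsum_mul_left, tsum_mul_left]
      rfl
    have h0 : ∀ k, 0 ≤ ε ^ (1 - q) * β ^ q * (len k * e2 U k) + ε * (len k ^ 3 * e2 U k) := by
      intro k
      have := len_nonneg k
      have := e2_nonneg U k
      positivity
    rw [e1, ENNReal.ofReal_tsum_of_nonneg h0 hs, ← ENNReal.tsum_mul_left]
    refine ENNReal.tsum_le_tsum fun k => ?_
    have h2 := e2_nonneg U k
    have h3 := len_nonneg k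
    unfold Lp
    rw [← ENNReal.ofReal_mul (Real.rpow_nonneg h3 _), ← ENNReal.ofReal_mul hβ]
    refine ENNReal.ofReal_le_ofReal ?_
    have h4 := mul_le_mul_of_nonneg_right (young1 h3 hβ hε hq) h2
    calc β * (len k ^ (3 - 2 / q) * e2 U k) = β * len k ^ (3 - 2 / q) * e2 U k := by ring
      _ ≤ _ := h4
      _ = _ := by ring
  calc ENNReal.ofReal β * ∑' k, Lp (3 - 2 / q) k * vv U k ^ 2
      ≤ ENNReal.ofReal β * (108 * ∑' k, Lp (3 - 2 / q) k * ENNReal.ofReal (e2 U k)) := by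
        gcongr
        exact sum_Lp_le _
    _ = 108 * (ENNReal.ofReal β * ∑' k, Lp (3 - 2 / q) k * ENNReal.ofReal (e2 U k)) := by ring
    _ ≤ _ := by gcongr

theorem sum_nat (hU : ∀ i, Rap (U i)) (n : ℕ) :
    ∑' k, Lp n k * vv U k ^ 2 ≤ 108 * ENNReal.ofReal (∑' k, len k ^ n * e2 U k) := by
  refine (sum_Lp_le _).trans ?_
  gcongr
  rw [ENNReal.ofReal_tsum_of_nonneg (fun k => mul_nonneg (pow_nonneg (len_nonneg k) n)
    (e2_nonneg U k)) (summable_len hU n)]
  refine ENNReal.tsum_le_tsum fun k => le_of_eq ?_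
  unfold Lp
  rw [Real.rpow_natCast, ENNReal.ofReal_mul (pow_nonneg (len_nonneg k) n)]

theorem sum_DD (hU : ∀ i, Rap (U i)) :
    ∑' k, Lp (7 / 2 - 1 / 2) k * vv U k ^ 2 ≤ 108 * ENNReal.ofReal (DD U) := by
  have h := sum_nat hU 3
  have e : ((3 : ℕ) : ℝ) = 7 / 2 - 1 / 2 := by norm_num
  rw [e] at h
  exact h

theorem sum_GG (hU : ∀ i, Rap (U i)) :
    ∑' k, (LL k * vv U k) ^ 2 ≤ 108 * ENNReal.ofReal (GG U) := by
  refine le_trans (le_of_eq ?_) (sum_nat hU 2)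
  refine tsum_congr fun k => ?_
  rw [mul_pow]
  congr 1
  unfold LL Lp
  rw [Real.rpow_natCast, ENNReal.ofReal_pow (len_nonneg k)]

theorem GG_young (hU : ∀ i, Rap (U i)) {y ε : ℝ} (hε : 0 < ε) :
    y * GG U ≤ y ^ 2 / (4 * ε) * EE U + ε * DD U := by
  have h1 : Summable fun k => y * (len k ^ 2 * e2 U k) := (summable_len hU 2).mul_left y
  have h2 : Summable fun k => y ^ 2 / (4 * ε) * (len k * e2 U k) + ε * (len k ^ 3 * e2 U k) :=
    ((summable_EE hU).mul_left _).add ((summable_len hU 3).mul_left _)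
  have e1 : y * GG U = ∑' k, y * (len k ^ 2 * e2 U k) := by
    rw [tsum_mul_left]; rfl
  have e2' : y ^ 2 / (4 * ε) * EE U + ε * DD U
      = ∑' k, (y ^ 2 / (4 * ε) * (len k * e2 U k) + ε * (len k ^ 3 * e2 U k)) := by
    rw [((summable_EE hU).mul_left _).tsum_add ((summable_len hU 3).mul_left _),
      tsum_mul_left, tsum_mul_left]
    rfl
  rw [e1, e2']
  refine Summable.tsum_le_tsum (fun k => ?_) h1 h2
  have h3 := len_nonneg k
  have h4 := e2_nonneg U k
  have h5 : y * len k ^ 2 ≤ y ^ 2 / (4 * ε) * len k + ε * len k ^ 3 := by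
    have h6 : 0 ≤ (y - 2 * ε * len k) ^ 2 / (4 * ε) * len k := by positivity
    have h7 : (y - 2 * ε * len k) ^ 2 / (4 * ε) * len k
        = y ^ 2 / (4 * ε) * len k + ε * len k ^ 3 - y * len k ^ 2 := by
      field_simp
      ring
    linarith
  calc y * (len k ^ 2 * e2 U k) = y * len k ^ 2 * e2 U k := by ring
    _ ≤ (y ^ 2 / (4 * ε) * len k + ε * len k ^ 3) * e2 U k := by gcongr
    _ = _ := by ring

/-- The constant of the Besov estimate. -/
noncomputable def Kc (s : ℝ) : ℝ := (96 * kap s + 1536).toReal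

theorem Kc_eq {s : ℝ} (hs : s < 5 / 2) : 96 * kap s + 1536 = ENNReal.ofReal (Kc s) := by
  unfold Kc
  rw [ENNReal.ofReal_toReal]
  exact ENNReal.add_ne_top.2 ⟨ENNReal.mul_ne_top (by norm_num) (kap_ne_top hs), by norm_num⟩

theorem Kc_pos {s : ℝ} (hs : s < 5 / 2) : 0 < Kc s := by
  unfold Kc
  refine ENNReal.toReal_pos ?_ ?_
  · simp
  · exact ENNReal.add_ne_top.2 ⟨ENNReal.mul_ne_top (by norm_num) (kap_ne_top hs), by norm_num⟩

/-- The bound of the convection term, with real numbers. -/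
theorem CC_real (X Y : Set (K3 × ℤˣ)) (hU : ∀ i, Rap (U i))
    (hdiv : ∀ k, ∑ j, (k j : ℂ) * U j k = 0) {A q r α β γ ε1 ε2 ε3 : ℝ} {x0 x1 : K3 → ℝ≥0∞}
    (hA : 0 ≤ A) (hZ : TwoD A (X ∪ Y)) (hq : 1 < q) (hr1 : 1 ≤ r) (hr2 : r ≤ 2)
    (hα : 0 ≤ α) (hβ : 0 ≤ β) (hγ : 0 ≤ γ) (h1 : 0 < ε1) (h2 : 0 < ε2) (h3 : 0 < ε3)
    (hx : ∀ k, mz X U k ≤ x0 k + x1 k) (hx0 : Bes (1 / 2) (ENNReal.ofReal α) x0)
    (hx1 : Bes (1 / 2 + 2 / q) (ENNReal.ofReal β) x1)
    (hy : ∑' k, Lp (2 / r - 1) k * mz Y U k ≤ ENNReal.ofReal γ) :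
    ‖CC U‖ ≤ 16848 * Kc (1 / 2) * α * DD U
      + 16848 * Kc (1 / 2 + 2 / q) * (ε1 ^ (1 - q) * β ^ q * EE U + ε1 * DD U)
      + 67392 * (ε2 ^ (1 - r) * γ ^ r * EE U + ε2 * DD U)
      + ((741312 ^ 2 * A * GG U) / (4 * ε3) * EE U + ε3 * DD U) := by
  have hq0 : 0 < q := by linarith
  have hr0 : 0 < r := by linarith
  have hs1 : 1 / 2 + 2 / q < 5 / 2 := by
    have : 2 / q < 2 := by rw [div_lt_iff₀ hq0]; linarith
    linarith
  have hs0 : 1 / 2 ≤ 1 / 2 + 2 / q := by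
    have : 0 < 2 / q := by positivity
    linarith
  have hσ0 : 0 ≤ 2 / r - 1 := by
    have : 1 ≤ 2 / r := by rw [le_div_iff₀ hr0]; linarith
    linarith
  have hσ1 : 2 / r - 1 ≤ 1 := by
    have : 2 / r ≤ 2 := by rw [div_le_iff₀ hr0]; linarith
    linarith
  have hK0 := Kc_pos (s := 1 / 2) (by norm_num)
  have hK1 := Kc_pos hs1
  have hD := DD_nonneg U
  have hE := EE_nonneg U
  have hG := GG_nonneg U
  have b := CC_le X Y hU hdiv
  have b2 := TZ_ker (U := U) X Y hA hZ hσ0 hσ1 le_rfl (by norm_num) hs0 hs1 hx hx0 hx1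
  have e1 : (7 / 2 - (1 / 2 + 2 / q)) = 3 - 2 / q := by ring
  have e2 : (2 - (2 / r - 1)) = 3 - 2 / r := by ring
  rw [e1, e2, Kc_eq (by norm_num), Kc_eq hs1] at b2
  -- the four terms
  have t1 : ENNReal.ofReal (Kc (1 / 2)) * ENNReal.ofReal α
        * ∑' k, Lp (7 / 2 - 1 / 2) k * vv U k ^ 2
      ≤ ENNReal.ofReal (108 * (Kc (1 / 2) * α * DD U)) := by
    calc _ ≤ ENNReal.ofReal (Kc (1 / 2)) * ENNReal.ofReal α * (108 * ENNReal.ofReal (DD U)) := by
          gcongr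
          exact sum_DD hU
      _ = 108 * (ENNReal.ofReal (Kc (1 / 2)) * ENNReal.ofReal α * ENNReal.ofReal (DD U)) := by
          ring
      _ = _ := by
          rw [← ENNReal.ofReal_mul hK0.le, ← ENNReal.ofReal_mul (by positivity),
            ← ENNReal.ofReal_ofNat, ← ENNReal.ofReal_mul (by norm_num)]
  set R1 := ε1 ^ (1 - q) * β ^ q * EE U + ε1 * DD U with hR1
  set R2 := ε2 ^ (1 - r) * γ ^ r * EE U + ε2 * DD U with hR2
  have hR10 : 0 ≤ R1 := by positivity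
  have hR20 : 0 ≤ R2 := by positivity
  have t2 : ENNReal.ofReal (Kc (1 / 2 + 2 / q)) * ENNReal.ofReal β
        * ∑' k, Lp (3 - 2 / q) k * vv U k ^ 2
      ≤ ENNReal.ofReal (108 * (Kc (1 / 2 + 2 / q) * R1)) := by
    calc _ = ENNReal.ofReal (Kc (1 / 2 + 2 / q)) * (ENNReal.ofReal β
          * ∑' k, Lp (3 - 2 / q) k * vv U k ^ 2) := by ring
      _ ≤ ENNReal.ofReal (Kc (1 / 2 + 2 / q)) * (108 * ENNReal.ofReal R1) :=
          mul_le_mul_right (sum_young hU hβ h1 hq.le) _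
      _ = 108 * (ENNReal.ofReal (Kc (1 / 2 + 2 / q)) * ENNReal.ofReal R1) := by ring
      _ = _ := by
          rw [← ENNReal.ofReal_mul hK1.le,
            ← ENNReal.ofReal_ofNat, ← ENNReal.ofReal_mul (by norm_num)]
  have t3 : (∑' k, Lp (2 / r - 1) k * mz Y U k) * ∑' k, Lp (3 - 2 / r) k * vv U k ^ 2
      ≤ ENNReal.ofReal (108 * R2) := by
    calc _ ≤ ENNReal.ofReal γ * ∑' k, Lp (3 - 2 / r) k * vv U k ^ 2 := by gcongr
      _ ≤ 108 * ENNReal.ofReal R2 := sum_young hU hγ h2 hr1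
      _ = _ := by rw [← ENNReal.ofReal_ofNat, ← ENNReal.ofReal_mul (by norm_num)]
  have t4 : ENNReal.ofReal (Real.sqrt A) * ((∑' k, (LL k * vv U k) ^ 2) ^ (1 / 2 : ℝ)
        * ∑' k, (LL k * vv U k) ^ 2)
      ≤ ENNReal.ofReal (Real.sqrt A * (11 * Real.sqrt (GG U) * (108 * GG U))) := by
    have g1 := sum_GG hU
    have g2 : (108 * ENNReal.ofReal (GG U)) ^ (1 / 2 : ℝ)
        ≤ ENNReal.ofReal (11 * Real.sqrt (GG U)) := by
      have : 108 * ENNReal.ofReal (GG U) ≤ ENNReal.ofReal (11 * Real.sqrt (GG U)) ^ 2 := by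
        rw [← ENNReal.ofReal_pow (by positivity), mul_pow, Real.sq_sqrt hG,
          ← ENNReal.ofReal_ofNat, ← ENNReal.ofReal_mul (by norm_num)]
        exact ENNReal.ofReal_le_ofReal (by nlinarith)
      calc _ ≤ (ENNReal.ofReal (11 * Real.sqrt (GG U)) ^ 2) ^ (1 / 2 : ℝ) := by gcongr
        _ = _ := sqrt_sq_enn _
    calc _ ≤ ENNReal.ofReal (Real.sqrt A) * ((108 * ENNReal.ofReal (GG U)) ^ (1 / 2 : ℝ)
          * (108 * ENNReal.ofReal (GG U))) := by gcongr
      _ ≤ ENNReal.ofReal (Real.sqrt A) * (ENNReal.ofReal (11 * Real.sqrt (GG U))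
          * (108 * ENNReal.ofReal (GG U))) := by gcongr
      _ = _ := by
          rw [← ENNReal.ofReal_ofNat, ← ENNReal.ofReal_mul (p := OfNat.ofNat 108) (by norm_num),
            ← ENNReal.ofReal_mul (by positivity), ← ENNReal.ofReal_mul (by positivity)]
  set R4 := Real.sqrt A * (11 * Real.sqrt (GG U) * (108 * GG U)) with hR4
  have hR40 : 0 ≤ R4 := by positivity
  have tot : ‖CC U‖ₑ ≤ ENNReal.ofReal (52 * (3 * (108 * (Kc (1 / 2) * α * DD U))
      + 3 * (108 * (Kc (1 / 2 + 2 / q) * R1)) + 12 * (108 * R2) + 12 * R4)) := by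
    refine b.trans ?_
    have o3 : (3 : ℝ≥0∞) = ENNReal.ofReal 3 := (ENNReal.ofReal_ofNat 3).symm
    have o12 : (12 : ℝ≥0∞) = ENNReal.ofReal 12 := (ENNReal.ofReal_ofNat 12).symm
    have o52 : (52 : ℝ≥0∞) = ENNReal.ofReal 52 := (ENNReal.ofReal_ofNat 52).symm
    calc _ ≤ 52 * (3 * ENNReal.ofReal (108 * (Kc (1 / 2) * α * DD U))
          + 3 * ENNReal.ofReal (108 * (Kc (1 / 2 + 2 / q) * R1))
          + 12 * ENNReal.ofReal (108 * R2) + 12 * ENNReal.ofReal R4) := by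
          gcongr
          refine b2.trans ?_
          rw [mul_assoc 12 (ENNReal.ofReal (Real.sqrt A))]
          gcongr
      _ = _ := by
          rw [o3, o12, o52, ← ENNReal.ofReal_mul (by norm_num), ← ENNReal.ofReal_mul
            (by norm_num), ← ENNReal.ofReal_mul (by norm_num), ← ENNReal.ofReal_mul
            (by norm_num), ← ENNReal.ofReal_add (by positivity) (by positivity),
            ← ENNReal.ofReal_add (by positivity) (by positivity),
            ← ENNReal.ofReal_add (by positivity) (by positivity),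
            ← ENNReal.ofReal_mul (by norm_num)]
  rw [← ofReal_norm, ENNReal.ofReal_le_ofReal_iff (by positivity)] at tot
  refine tot.trans ?_
  have g := GG_young hU (y := 741312 * (Real.sqrt A * Real.sqrt (GG U))) h3
  have hsq : (741312 * (Real.sqrt A * Real.sqrt (GG U))) ^ 2 = 741312 ^ 2 * A * GG U := by
    rw [mul_pow, mul_pow, Real.sq_sqrt hA, Real.sq_sqrt hG]; ring
  rw [hsq] at g
  have e4 : 52 * (12 * R4) = 741312 * (Real.sqrt A * Real.sqrt (GG U)) * GG U := by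
    rw [hR4]; ring
  calc 52 * (3 * (108 * (Kc (1 / 2) * α * DD U)) + 3 * (108 * (Kc (1 / 2 + 2 / q) * R1))
        + 12 * (108 * R2) + 12 * R4)
      = 16848 * Kc (1 / 2) * α * DD U + 16848 * Kc (1 / 2 + 2 / q) * R1 + 67392 * R2
        + 52 * (12 * R4) := by ring
    _ ≤ _ := by
        rw [e4]
        linarith

end Pool.Agent.TH616.NSH
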