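import Pool.Agent.TH616.NSH.Besov

/-!
Two-dimensional families of triads.
-/

set_option autoImplicit false

open MeasureTheory Set Filter Topology
open scoped ENNReal
open H459R3.NS Pool.Agent.TH305.FB

namespace Pool.Agent.TH616.NSH

/-- The triad `a, b, c` is not collinear and carries three helical modes outside `Z` whose
helicities are not all equal. -/
def FreeT (Z : Set (K3 × ℤˣ)) (a b c : K3) : Prop :=
  crossProduct a b ≠ 0 ∧
    ∃ r s t : ℤˣ, ¬(r = s ∧ s = t) ∧ (a, r) ∉ Z ∧ (b, s) ∉ Z ∧ (c, t) ∉ Z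

/-- The free triads form a family of dimension at most two, with constant `A`: each of them can be
assigned to one of its two longer sides in such a way that for every frequency `b` there are at most
`A |b|²` triads assigned to `b`. -/
def TwoD (A : ℝ) (Z : Set (K3 × ℤˣ)) : Prop :=
  ∃ F : Set (K3 × K3), (∀ b : K3, ({a : K3 | len a ≤ len b ∧ (a, b) ∈ F}.ncard : ℝ)
      ≤ A * len b ^ 2) ∧
    ∀ a b c : K3, a + b + c = 0 → len a ≤ len b → len a ≤ len c → FreeT Z a b c →
      (a, b) ∈ F ∨ (a, c) ∈ F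

variable {Z : Set (K3 × ℤˣ)}

theorem FreeT.swap12 {a b c : K3} (h : FreeT Z a b c) : FreeT Z b a c := by
  obtain ⟨h0, r, s, t, h1, h2, h3, h4⟩ := h
  refine ⟨?_, s, r, t, ?_, h3, h2, h4⟩
  · rw [← cross_anticomm, Ne, neg_eq_zero]
    exact h0
  · rintro ⟨e1, e2⟩
    exact h1 ⟨e1.symm, e1.trans e2⟩

theorem FreeT.swap23 {a b c : K3} (habc : a + b + c = 0) (h : FreeT Z a b c) : FreeT Z a c b := by
  obtain ⟨h0, r, s, t, h1, h2, h3, h4⟩ := h
  refine ⟨?_, r, t, s, ?_, h2, h4, h3⟩
  · have hc : c = -a - b := by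
      have : c = -(a + b) := by rw [eq_neg_iff_add_eq_zero, ← habc]; abel
      rw [this]; abel
    rw [hc, map_sub, map_neg, cross_self, neg_zero, zero_sub, Ne, neg_eq_zero]
    exact h0
  · rintro ⟨e1, e2⟩
    exact h1 ⟨e1.trans e2, e2.symm⟩

theorem FreeT.swap13 {a b c : K3} (habc : a + b + c = 0) (h : FreeT Z a b c) : FreeT Z c b a :=
  ((h.swap23 habc).swap12).swap23 (by rw [← habc]; abel)

theorem finite_len (R : ℝ) : {a : K3 | len a ≤ R}.Finite := by
  refine (finite_box 0 ⌊R⌋₊).subset fun a ha => ?_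
  have h1 : (N a : ℝ) ≤ R := (N_le_len a).trans ha
  show N (a - 0) ≤ ⌊R⌋₊
  rw [sub_zero]
  exact Nat.le_floor h1

open Classical in
theorem count_enn {P : K3 → Prop} (hf : {a | P a}.Finite) :
    ∑' a, (if P a then (1 : ℝ≥0∞) else 0) = ({a | P a}.ncard : ℝ≥0∞) := by
  rw [tsum_eq_sum (s := hf.toFinset)]
  · rw [Finset.sum_congr rfl fun a ha => if_pos (by simpa using ha)]
    rw [Finset.sum_const, nsmul_eq_mul, mul_one, Set.ncard_eq_toFinset_card _ hf]
  · intro a ha
    rw [if_neg (by simpa using ha)]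

variable {A : ℝ} {v : K3 → ℝ≥0∞}

open Classical in
theorem TZ_F {F : Set (K3 × K3)} (hA : 0 ≤ A)
    (hF : ∀ b : K3, ({a : K3 | len a ≤ len b ∧ (a, b) ∈ F}.ncard : ℝ) ≤ A * len b ^ 2)
    (v : K3 → ℝ≥0∞) :
    TZ (fun a b c => (if len a ≤ len b ∧ (a, b) ∈ F then v b else 0)
      * ((LL a * v a) * (LL c * v c)))
      ≤ ENNReal.ofReal (Real.sqrt A) * ((∑' k, (LL k * v k) ^ 2) ^ (1 / 2 : ℝ)
        * ∑' k, (LL k * v k) ^ 2) := by
  set G := ∑' k, (LL k * v k) ^ 2 with hG
  have h1 := enn_cs (fun p : K3 × K3 => if len p.1 ≤ len p.2 ∧ (p.1, p.2) ∈ F then v p.2 else 0)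
    (fun p : K3 × K3 => (LL p.1 * v p.1) * (LL (-p.1 - p.2) * v (-p.1 - p.2)))
  have h2 : ∑' p : K3 × K3, ((LL p.1 * v p.1) * (LL (-p.1 - p.2) * v (-p.1 - p.2))) ^ 2
      = G * G := by
    have e := TZ_13 (fun a c => ((LL a * v a) * (LL c * v c)) ^ 2)
    unfold TZ at e
    refine e.trans ?_
    simp_rw [mul_pow (LL _ * v _), ENNReal.tsum_mul_left, ENNReal.tsum_mul_right]
    rfl
  have h3 : ∑' p : K3 × K3, (if len p.1 ≤ len p.2 ∧ (p.1, p.2) ∈ F then v p.2 else 0) ^ 2
      ≤ ENNReal.ofReal A * G := by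
    rw [ENNReal.tsum_prod', ENNReal.tsum_comm, hG, ← ENNReal.tsum_mul_left]
    refine ENNReal.tsum_le_tsum fun b => ?_
    have hf : {a : K3 | len a ≤ len b ∧ (a, b) ∈ F}.Finite :=
      (finite_len (len b)).subset fun a ha => ha.1
    have e1 : ∀ a, (if len a ≤ len b ∧ (a, b) ∈ F then v b else 0) ^ 2
        = (if len a ≤ len b ∧ (a, b) ∈ F then (1 : ℝ≥0∞) else 0) * v b ^ 2 := by
      intro a
      split_ifs <;> simp
    have e3 : ∑' a, (if len a ≤ len b ∧ (a, b) ∈ F then (1 : ℝ≥0∞) else 0)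
        = ({a : K3 | len a ≤ len b ∧ (a, b) ∈ F}.ncard : ℝ≥0∞) := by
      refine (tsum_congr fun a => ?_).trans (count_enn hf)
      congr
    calc ∑' a, (if len a ≤ len b ∧ (a, b) ∈ F then v b else 0) ^ 2
        = ({a : K3 | len a ≤ len b ∧ (a, b) ∈ F}.ncard : ℝ≥0∞) * v b ^ 2 := by
          simp_rw [e1]
          rw [ENNReal.tsum_mul_right, e3]
      _ ≤ (ENNReal.ofReal A * LL b ^ 2) * v b ^ 2 := by
          gcongr
          unfold LL
          rw [← ENNReal.ofReal_pow (len_nonneg b), ← ENNReal.ofReal_mul hA,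
            ← ENNReal.ofReal_natCast]
          exact ENNReal.ofReal_le_ofReal (hF b)
      _ = _ := by ring
  have h4 : (ENNReal.ofReal A) ^ (1 / 2 : ℝ) = ENNReal.ofReal (Real.sqrt A) := by
    have : ENNReal.ofReal A = ENNReal.ofReal (Real.sqrt A) ^ 2 := by
      rw [← ENNReal.ofReal_pow (Real.sqrt_nonneg A), Real.sq_sqrt hA]
    rw [this, sqrt_sq_enn]
  unfold TZ
  refine h1.trans ?_
  rw [h2]
  calc _ ≤ (ENNReal.ofReal A * G) ^ (1 / 2 : ℝ) * (G * G) ^ (1 / 2 : ℝ) := by gcongr
    _ = _ := by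
        rw [sqrt_mul_enn, h4, ← sq, sqrt_sq_enn]
        ring

open Classical in
theorem TZ_free1 (hA : 0 ≤ A) (hZ : TwoD A Z) (v : K3 → ℝ≥0∞) :
    TZ (fun a b c => if (len a ≤ len b ∧ len a ≤ len c) ∧ FreeT Z a b c then
      W a b c * (v a * (v b * v c)) else 0)
      ≤ 4 * ENNReal.ofReal (Real.sqrt A) * ((∑' k, (LL k * v k) ^ 2) ^ (1 / 2 : ℝ)
        * ∑' k, (LL k * v k) ^ 2) := by
  obtain ⟨F, hF, hFr⟩ := hZ
  set f : K3 → K3 → K3 → ℝ≥0∞ := fun a b c =>
    (if len a ≤ len b ∧ (a, b) ∈ F then v b else 0) * ((LL a * v a) * (LL c * v c)) with hf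
  have h1 : TZ (fun a b c => if (len a ≤ len b ∧ len a ≤ len c) ∧ FreeT Z a b c then
      W a b c * (v a * (v b * v c)) else 0) ≤ TZ (fun a b c => 2 * (f a b c + f a c b)) := by
    refine TZ_mono fun a b c habc => ?_
    split_ifs with hc
    · obtain ⟨⟨h1, h2⟩, h3⟩ := hc
      obtain ⟨w1, w2⟩ := wr_le1 habc h1 h2
      have W1 : W a b c ≤ 2 * (LL a * LL b) := by
        unfold W LL
        rw [← ENNReal.ofReal_mul (len_nonneg a), ← ENNReal.ofReal_ofNat,
          ← ENNReal.ofReal_mul (by norm_num)]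
        exact ENNReal.ofReal_le_ofReal w1
      have W2 : W a b c ≤ 2 * (LL a * LL c) := by
        unfold W LL
        rw [← ENNReal.ofReal_mul (len_nonneg a), ← ENNReal.ofReal_ofNat,
          ← ENNReal.ofReal_mul (by norm_num)]
        exact ENNReal.ofReal_le_ofReal w2
      simp only [hf]
      rcases hFr a b c habc h1 h2 h3 with h4 | h4
      · rw [if_pos (c := len a ≤ len b ∧ (a, b) ∈ F) ⟨h1, h4⟩]
        calc W a b c * (v a * (v b * v c)) ≤ (2 * (LL a * LL c)) * (v a * (v b * v c)) := by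
              gcongr
          _ = 2 * (v b * ((LL a * v a) * (LL c * v c))) := by ring
          _ ≤ _ := by
              gcongr
              exact le_self_add
      · rw [if_pos (c := len a ≤ len c ∧ (a, c) ∈ F) ⟨h2, h4⟩]
        calc W a b c * (v a * (v b * v c)) ≤ (2 * (LL a * LL b)) * (v a * (v b * v c)) := by
              gcongr
          _ = 2 * (v c * ((LL a * v a) * (LL b * v b))) := by ring
          _ ≤ _ := by
              gcongr
              exact le_add_self
    · exact bot_le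
  refine h1.trans ?_
  rw [TZ_mul, TZ_add, TZ_swap23 f]
  have h2 := TZ_F hA hF v
  calc 2 * (TZ f + TZ f) ≤ 2 * (ENNReal.ofReal (Real.sqrt A)
        * ((∑' k, (LL k * v k) ^ 2) ^ (1 / 2 : ℝ) * ∑' k, (LL k * v k) ^ 2)
      + ENNReal.ofReal (Real.sqrt A)
        * ((∑' k, (LL k * v k) ^ 2) ^ (1 / 2 : ℝ) * ∑' k, (LL k * v k) ^ 2)) := by
        gcongr
    _ = _ := by ring

open Classical in
/-- The estimate for a two-dimensional family of triads. -/
theorem TZ_free (hA : 0 ≤ A) (hZ : TwoD A Z) (v : K3 → ℝ≥0∞) :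
    TZ (fun a b c => if FreeT Z a b c then W a b c * (v a * (v b * v c)) else 0)
      ≤ 12 * ENNReal.ofReal (Real.sqrt A) * ((∑' k, (LL k * v k) ^ 2) ^ (1 / 2 : ℝ)
        * ∑' k, (LL k * v k) ^ 2) := by
  set F : K3 → K3 → K3 → ℝ≥0∞ := fun a b c =>
    if (len a ≤ len b ∧ len a ≤ len c) ∧ FreeT Z a b c then
      W a b c * (v a * (v b * v c)) else 0 with hF
  have h1 : TZ (fun a b c => if FreeT Z a b c then W a b c * (v a * (v b * v c)) else 0)
      ≤ TZ (fun a b c => F a b c + (F b a c + F c b a)) := by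
    refine TZ_mono fun a b c habc => ?_
    split_ifs with hfr
    · rcases le_total (len a) (len b) with h1 | h1
      · rcases le_total (len a) (len c) with h2 | h2
        · have : F a b c = W a b c * (v a * (v b * v c)) := if_pos ⟨⟨h1, h2⟩, hfr⟩
          rw [this]
          exact le_self_add
        · have : F c b a = W c b a * (v c * (v b * v a)) :=
            if_pos ⟨⟨h2.trans h1, h2⟩, hfr.swap13 habc⟩
          rw [this]
          refine le_add_left (le_add_left (le_of_eq ?_))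
          rw [W_swap12, W_swap23, W_swap12]
          ring
      · rcases le_total (len b) (len c) with h2 | h2
        · have : F b a c = W b a c * (v b * (v a * v c)) :=
            if_pos ⟨⟨h1, h2⟩, hfr.swap12⟩
          rw [this]
          refine le_add_left (le_add_right (le_of_eq ?_))
          rw [W_swap12]
          ring
        · have : F c b a = W c b a * (v c * (v b * v a)) :=
            if_pos ⟨⟨h2, h2.trans h1⟩, hfr.swap13 habc⟩
          rw [this]
          refine le_add_left (le_add_left (le_of_eq ?_))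
          rw [W_swap12, W_swap23, W_swap12]
          ring
    · exact bot_le
  refine h1.trans ?_
  rw [TZ_add, TZ_add, TZ_swap12 F, TZ_swap13 F]
  have h := TZ_free1 hA hZ v
  calc TZ F + (TZ F + TZ F) ≤ _ := add_le_add h (add_le_add h h)
    _ = _ := by ring

end Pool.Agent.TH616.NSH
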