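import Pool.Agent.TH616.NSH.Ode
import Pool.Agent.H459R3.NS.Final
import Pool.Agent.TH305.FB.Gw

/-!
From the differential inequality for the critical energy to bounded velocity.
-/

set_option autoImplicit false

open MeasureTheory Set Filter Topology
open scoped ENNReal
open H459R3.NS Pool.Agent.TH305.FB

namespace Pool.Agent.TH616.NSH

variable {U : Fin 3 → K3 → ℂ}

theorem GG_young' (hU : ∀ i, Rap (U i)) {y ε : ℝ} (hε : 0 < ε) :
    y * GG U ≤ y ^ 2 / (4 * ε) * EE U + ε * DD U := by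
  have h1 : Summable fun k => y * (len k ^ 2 * TH305.FB.e2 U k) := (summable_len hU 2).mul_left y
  have h2 : Summable fun k => y ^ 2 / (4 * ε) * (len k * TH305.FB.e2 U k)
      + ε * (len k ^ 3 * TH305.FB.e2 U k) :=
    ((summable_EE hU).mul_left _).add ((summable_len hU 3).mul_left _)
  have e1 : y * GG U = ∑' k, y * (len k ^ 2 * TH305.FB.e2 U k) := by
    rw [tsum_mul_left]; rfl
  have e2' : y ^ 2 / (4 * ε) * EE U + ε * DD U
      = ∑' k, (y ^ 2 / (4 * ε) * (len k * TH305.FB.e2 U k)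
        + ε * (len k ^ 3 * TH305.FB.e2 U k)) := by
    rw [((summable_EE hU).mul_left _).tsum_add ((summable_len hU 3).mul_left _),
      tsum_mul_left, tsum_mul_left]
    rfl
  rw [e1, e2']
  refine Summable.tsum_le_tsum (fun k => ?_) h1 h2
  have h3 := len_nonneg k
  have h4 := e2_nonneg U k
  have h5 : y * len k ^ 2 ≤ y ^ 2 / (4 * ε) * len k + ε * len k ^ 3 := by
    have h6 : 0 ≤ (y - 2 * ε * len k) ^ 2 / (4 * ε) * len k := by positivity
    have h7 : (y - 2 * ε * len k) ^ 2 / (4 * ε) * len k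
        = y ^ 2 / (4 * ε) * len k + ε * len k ^ 3 - y * len k ^ 2 := by
      field_simp
      ring
    linarith
  calc y * (len k ^ 2 * TH305.FB.e2 U k) = y * len k ^ 2 * TH305.FB.e2 U k := by ring
    _ ≤ (y ^ 2 / (4 * ε) * len k + ε * len k ^ 3) * TH305.FB.e2 U k := by gcongr
    _ = _ := by ring

theorem DD_ge (hU : ∀ i, Rap (U i)) {M : ℝ} (hM : 0 < M) (hE : EE U ≤ M) :
    GG U ^ 2 / M ≤ DD U := by
  have h := GG_young' hU (y := 2 * GG U / M) (ε := 1) one_pos
  have hG := GG_nonneg U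
  have h2 : (2 * GG U / M) ^ 2 / (4 * 1) * EE U ≤ GG U ^ 2 / M := by
    calc (2 * GG U / M) ^ 2 / (4 * 1) * EE U ≤ (2 * GG U / M) ^ 2 / (4 * 1) * M := by gcongr
      _ = _ := by field_simp; ring
  have e : 2 * GG U / M * GG U = 2 * (GG U ^ 2 / M) := by ring
  rw [e] at h
  linarith

section

variable {ν T : ℝ} {u : ℝ → V → V} {p : ℝ → V → ℝ}

theorem GG_eq (h : IsSol ν T u p) {t : ℝ} (ht : t ∈ Ico 0 T) :
    4 * Real.pi ^ 2 * GG (uh u t) = enstrophy (u t) := by
  have hsp : ∀ i, SP (fun y => u t y i) := fun i => h.sp ht i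
  have hR := rap_uh h ht
  have h1 : enstrophy (u t) = ∑ i, ∑ m, n2 (D m (fr (fun y => u t y i))) ^ 2 :=
    (sum_grad (v := fun i y => u t y i) hsp).symm
  have h2 : ∀ i m, n2 (D m (fr (fun y => u t y i))) ^ 2
      = ∑' k, ‖D m (uh u t i) k‖ ^ 2 := fun i m => n2_sq _
  have hs : ∀ i m, Summable fun k => ‖D m (uh u t i) k‖ ^ 2 := fun i m =>
    summable_sq ((hR i).D m).summable
  rw [h1]
  simp_rw [h2]
  rw [Finset.sum_congr rfl fun i _ => (Summable.tsum_finsetSum fun m _ => hs i m).symm,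
    ← Summable.tsum_finsetSum fun i _ => summable_sum fun m _ => hs i m]
  unfold GG
  rw [← tsum_mul_left]
  refine tsum_congr fun k => ?_
  have e : ∀ i m, ‖D m (uh u t i) k‖ ^ 2
      = 4 * Real.pi ^ 2 * ((k m : ℝ) ^ 2 * ‖uh u t i k‖ ^ 2) := by
    intro i m
    rw [D, norm_mul, norm_mul, norm_mul, norm_mul, Complex.norm_I, mul_one, Complex.norm_real,
      Real.norm_eq_abs, abs_of_pos Real.pi_pos, Complex.norm_ofNat, Complex.norm_intCast]
    rw [← sq_abs (k m : ℝ)]
    ring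
  simp_rw [e, ← Finset.mul_sum, ← Finset.sum_mul]
  rw [← len_sq, ← Finset.mul_sum]
  rfl

theorem crit_gron (h : IsSol ν T u p) (hν : 0 < ν) {g : ℝ → ℝ} {B : ℝ}
    (hg0 : ∀ s ∈ Ioo 0 T, 0 ≤ g s) (hgi : ∀ t ∈ Ico 0 T, IntegrableOn g (Icc 0 t))
    (hgB : ∀ t ∈ Ico 0 T, ∫ s in (0 : ℝ)..t, g s ≤ B)
    (hd : ∀ s ∈ Ioo 0 T, -(8 * Real.pi ^ 2 * ν * DD (uh u s)) - 2 * (CC (uh u s)).re
      ≤ -(ν * DD (uh u s)) + g s * EE (uh u s)) :
    (∀ t ∈ Ico 0 T, EE (uh u t) ≤ EE (uh u 0) * Real.exp B) ∧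
    ∃ C, ∀ t ∈ Ico 0 T, ∀ x i, |u t x i| ≤ C := by
  have hcont := EE_continuousOn h
  have hEn : ∀ t ∈ Ico 0 T, EE (uh u t) ≤ EE (uh u 0) * Real.exp B := by
    intro t ht
    set y : ℝ → ℝ := fun s => EE (uh u s) with hy
    have hy0 : ∀ s, 0 ≤ y s := fun s => EE_nonneg _
    have hyc : ContinuousOn y (Icc 0 t) := hcont.mono fun s hs => ⟨hs.1, hs.2.trans_lt ht.2⟩
    have hlog : ∀ ε : ℝ, 0 < ε → y t + ε ≤ (y 0 + ε) * Real.exp B := by
      intro ε hε
      have hpos : ∀ s, 0 < y s + ε := fun s => by linarith [hy0 s]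
      refine gron_log (F := fun s => y s + ε)
        (F' := fun s => -(8 * Real.pi ^ 2 * ν * DD (uh u s)) - 2 * (CC (uh u s)).re) (g := g)
        ht.1 (hyc.add continuousOn_const) (fun s _ => hpos s) (fun s hs => ?_) (hgi t ht)
        (hgB t ht) (fun s hs => ?_)
      · exact (EE_hasDerivAt h ⟨hs.1, hs.2.trans ht.2⟩).add_const ε
      · have hs' : s ∈ Ioo 0 T := ⟨hs.1, hs.2.trans ht.2⟩
        refine (hd s hs').trans ?_
        have h1 : 0 ≤ ν * DD (uh u s) := mul_nonneg hν.le (DD_nonneg _)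
        have h2 := mul_nonneg (hg0 s hs') hε.le
        show -(ν * DD (uh u s)) + g s * EE (uh u s) ≤ g s * (EE (uh u s) + ε)
        linarith
    have hlim1 : Tendsto (fun ε : ℝ => y t + ε) (𝓝[>] 0) (𝓝 (y t + 0)) :=
      (tendsto_const_nhds.add tendsto_id).mono_left nhdsWithin_le_nhds
    have hlim2 : Tendsto (fun ε : ℝ => (y 0 + ε) * Real.exp B) (𝓝[>] 0)
        (𝓝 ((y 0 + 0) * Real.exp B)) :=
      ((tendsto_const_nhds.add tendsto_id).mul_const _).mono_left nhdsWithin_le_nhds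
    have := le_of_tendsto_of_tendsto hlim1 hlim2 (by
      filter_upwards [self_mem_nhdsWithin] with ε hε
      exact hlog ε hε)
    simpa using this
  refine ⟨hEn, ?_⟩
  rcases le_or_gt T 0 with hT | hT
  · exact ⟨0, fun t ht => absurd (ht.1.trans_lt ht.2) (by linarith)⟩
  -- the integral of the square of the enstrophy
  set M : ℝ := EE (uh u 0) * Real.exp B + 1 with hM
  have hE0 := EE_nonneg (uh u 0)
  have hM0 : 0 < M := by positivity
  have hEM : ∀ t ∈ Ico 0 T, EE (uh u t) ≤ M := fun t ht => (hEn t ht).trans (by linarith)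
  have hGc : ContinuousOn (fun s => GG (uh u s)) (Ico 0 T) := by
    have h1 : ContinuousOn (fun s => enstrophy (u s) / (4 * Real.pi ^ 2)) (Ico 0 T) :=
      h.enstrophy_continuousOn.div_const _
    refine h1.congr fun s hs => ?_
    simp only
    rw [← GG_eq h hs]
    have := Real.pi_pos
    field_simp
  have hG2 : ∀ t ∈ Ico 0 T, ∫ s in (0 : ℝ)..t, GG (uh u s) ^ 2
      ≤ (EE (uh u 0) + M * B) * M / ν := by
    intro t ht
    have hyc : ContinuousOn (fun s => EE (uh u s)) (Icc 0 t) :=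
      hcont.mono fun s hs => ⟨hs.1, hs.2.trans_lt ht.2⟩
    have hGc' : ContinuousOn (fun s => GG (uh u s) ^ 2) (Icc 0 t) :=
      (hGc.mono fun s hs => ⟨hs.1, hs.2.trans_lt ht.2⟩).pow 2
    have i1 : IntervalIntegrable (fun s => -(ν / M * GG (uh u s) ^ 2)) volume 0 t :=
      ((intervalIntegrable_iff_integrableOn_Icc_of_le ht.1).2
        (hGc'.integrableOn_Icc.const_mul (ν / M))).neg
    have i2 : IntervalIntegrable (fun s => M * g s) volume 0 t :=
      ((intervalIntegrable_iff_integrableOn_Icc_of_le ht.1).2 (hgi t ht)).const_mul _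
    have hint : IntegrableOn (fun s => -(ν / M * GG (uh u s) ^ 2) + M * g s) (Icc 0 t) :=
      (hGc'.integrableOn_Icc.const_mul (ν / M)).neg.add ((hgi t ht).const_mul _)
    have h1 := intervalIntegral.sub_le_integral_of_hasDeriv_right_of_le ht.1 hyc
      (fun s hs => (EE_hasDerivAt h ⟨hs.1, hs.2.trans ht.2⟩).hasDerivWithinAt) hint
      (fun s hs => by
        have hs' : s ∈ Ioo 0 T := ⟨hs.1, hs.2.trans ht.2⟩
        have hI : s ∈ Ico 0 T := ⟨hs'.1.le, hs'.2⟩
        refine (hd s hs').trans ?_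
        have a1 := DD_ge (rap_uh h hI) hM0 (hEM s hI)
        have a2 : g s * EE (uh u s) ≤ M * g s := by
          rw [mul_comm]
          exact mul_le_mul_of_nonneg_right (hEM s hI) (hg0 s hs')
        have a3 : ν / M * GG (uh u s) ^ 2 ≤ ν * DD (uh u s) := by
          calc ν / M * GG (uh u s) ^ 2 = ν * (GG (uh u s) ^ 2 / M) := by ring
            _ ≤ _ := by gcongr
        linarith)
    rw [intervalIntegral.integral_add i1 i2, intervalIntegral.integral_neg,
      intervalIntegral.integral_const_mul, intervalIntegral.integral_const_mul] at h1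
    have a1 := mul_le_mul_of_nonneg_left (hgB t ht) hM0.le
    have a4 := EE_nonneg (uh u t)
    have a5 : ν / M * ∫ s in (0 : ℝ)..t, GG (uh u s) ^ 2 ≤ EE (uh u 0) + M * B := by linarith
    rw [le_div_iff₀ hν]
    calc (∫ s in (0 : ℝ)..t, GG (uh u s) ^ 2) * ν
        = (ν / M * ∫ s in (0 : ℝ)..t, GG (uh u s) ^ 2) * M := by field_simp
      _ ≤ _ := by gcongr
  -- the Serrin condition
  obtain ⟨Cs, hCs0, hCs⟩ := sobolev
  set E0 := energy (u 0) with hE0'
  have hE00 : 0 ≤ E0 := energy_nonneg _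
  set b : ℝ → ℝ := fun t => Cs * Real.sqrt (enstrophy (u t) + E0) with hb
  have hb0 : ∀ t, 0 ≤ b t := fun t => by positivity
  have hL6 : ∀ t ∈ Ioo 0 T, ∀ i, eLpNorm (fun x => u t x i) 6 (volume.restrict cube)
      ≤ ENNReal.ofReal (b t) := by
    intro t ht i
    have hI : t ∈ Ico 0 T := ⟨ht.1.le, ht.2⟩
    refine (hCs _ (h.sp hI i)).trans (ENNReal.ofReal_le_ofReal ?_)
    simp only [hb]
    gcongr
    · exact Finset.single_le_sum (f := fun i => ∑ j, ∫ x in cube, pd j (fun y => u t y i) x ^ 2)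
        (fun _ _ => Finset.sum_nonneg fun _ _ => integral_nonneg fun _ => sq_nonneg _)
        (Finset.mem_univ i)
    · refine le_trans ?_ (h.energy_le hν hI)
      exact Finset.single_le_sum (f := fun i => ∫ x in cube, u t x i ^ 2)
        (fun _ _ => integral_nonneg fun _ => sq_nonneg _) (Finset.mem_univ i)
  have hbi : IntegrableOn (fun t => b t ^ (4 : ℝ)) (Ioo 0 T) := by
    have hb4 : ∀ t, b t ^ (4 : ℝ) = Cs ^ 4 * (enstrophy (u t) + E0) ^ 2 := by
      intro t
      have hen := enstrophy_nonneg (u t)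
      rw [show (4 : ℝ) = ((4 : ℕ) : ℝ) by norm_num, Real.rpow_natCast]
      simp only [hb]
      rw [mul_pow]
      congr 1
      calc Real.sqrt (enstrophy (u t) + E0) ^ 4 = (Real.sqrt (enstrophy (u t) + E0) ^ 2) ^ 2 := by
            ring
        _ = _ := by rw [Real.sq_sqrt (by positivity)]
    simp_rw [hb4]
    rw [← integrableOn_Ioc_iff_integrableOn_Ioo]
    set f : ℝ → ℝ := fun t => Cs ^ 4 * (enstrophy (u t) + E0) ^ 2 with hf
    have hfc : ContinuousOn f (Ico 0 T) :=
      continuousOn_const.mul ((h.enstrophy_continuousOn.add continuousOn_const).pow 2)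
    set bb : ℕ → ℝ := fun n => T - T / (n + 1) with hbb
    have hbbI : ∀ n, bb n ∈ Ico 0 T := by
      intro n
      simp only [hbb]
      have h1 : 0 < T / (n + 1) := by positivity
      have h2 : T / (n + 1) ≤ T := by
        rw [div_le_iff₀ (by positivity)]
        have : (0 : ℝ) ≤ n := Nat.cast_nonneg n
        nlinarith
      exact ⟨by linarith, by linarith⟩
    have hbbt : Tendsto bb atTop (𝓝 T) := by
      have h1 : Tendsto (fun n : ℕ => T / ((n : ℝ) + 1)) atTop (𝓝 0) :=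
        tendsto_const_div_atTop_nhds_zero_nat T |>.comp (tendsto_add_atTop_nat 1) |>.congr
          fun n => by simp
      have h2 := h1.const_sub T
      simpa using h2
    refine integrableOn_Ioc_of_intervalIntegral_norm_bounded_right (l := atTop) (b := bb)
      (I := Cs ^ 4 * (2 * (4 * Real.pi ^ 2) ^ 2 * ((EE (uh u 0) + M * B) * M / ν)
        + 2 * E0 ^ 2 * T)) (fun n => ?_) hbbt (Eventually.of_forall fun n => ?_)
    · have h9 : IntegrableOn f (Icc 0 (bb n)) :=
        (hfc.mono fun s hs => ⟨hs.1, hs.2.trans_lt (hbbI n).2⟩ :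
        ContinuousOn f (Icc 0 (bb n))).integrableOn_Icc
      exact h9.mono_set Ioc_subset_Icc_self
    · have hI := hbbI n
      rw [← intervalIntegral.integral_of_le hI.1]
      have hGc' : ContinuousOn (fun s => GG (uh u s) ^ 2) (Icc 0 (bb n)) :=
        (hGc.mono fun s hs => ⟨hs.1, hs.2.trans_lt hI.2⟩).pow 2
      have i1 : IntervalIntegrable (fun s => GG (uh u s) ^ 2) volume 0 (bb n) :=
        (intervalIntegrable_iff_integrableOn_Icc_of_le hI.1).2 hGc'.integrableOn_Icc
      have i2 : IntervalIntegrable (fun s => 2 * (4 * Real.pi ^ 2) ^ 2 * GG (uh u s) ^ 2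
          + 2 * E0 ^ 2) volume 0 (bb n) :=
        (i1.const_mul _).add intervalIntegrable_const
      have i3 : IntervalIntegrable (fun s => Cs ^ 4 * (2 * (4 * Real.pi ^ 2) ^ 2
          * GG (uh u s) ^ 2 + 2 * E0 ^ 2)) volume 0 (bb n) := i2.const_mul _
      have i0 : IntervalIntegrable (fun s => ‖f s‖) volume 0 (bb n) := by
        refine ((intervalIntegrable_iff_integrableOn_Icc_of_le hI.1).2 ?_).norm
        exact (hfc.mono fun s hs => ⟨hs.1, hs.2.trans_lt hI.2⟩ :
          ContinuousOn f (Icc 0 (bb n))).integrableOn_Icc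
      have j1 : ∫ s in (0 : ℝ)..bb n, ‖f s‖ ≤ ∫ s in (0 : ℝ)..bb n,
          Cs ^ 4 * (2 * (4 * Real.pi ^ 2) ^ 2 * GG (uh u s) ^ 2 + 2 * E0 ^ 2) := by
        refine intervalIntegral.integral_mono_on hI.1 i0 i3 fun s hs => ?_
        have hsI : s ∈ Ico 0 T := ⟨hs.1, hs.2.trans_lt hI.2⟩
        simp only [hf]
        have hen := enstrophy_nonneg (u s)
        rw [Real.norm_eq_abs, abs_of_nonneg (by positivity), ← GG_eq h hsI]
        gcongr
        nlinarith [sq_nonneg (4 * Real.pi ^ 2 * GG (uh u s) - E0)]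
      refine j1.trans ?_
      rw [intervalIntegral.integral_const_mul, intervalIntegral.integral_add
        (i1.const_mul _) intervalIntegrable_const, intervalIntegral.integral_const_mul,
        intervalIntegral.integral_const, smul_eq_mul, sub_zero]
      have k1 : 2 * (4 * Real.pi ^ 2) ^ 2 * ∫ s in (0 : ℝ)..bb n, GG (uh u s) ^ 2
          ≤ 2 * (4 * Real.pi ^ 2) ^ 2 * ((EE (uh u 0) + M * B) * M / ν) :=
        mul_le_mul_of_nonneg_left (hG2 _ hI) (by positivity)
      have k2 : bb n * (2 * E0 ^ 2) ≤ 2 * E0 ^ 2 * T := by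
        rw [mul_comm]
        exact mul_le_mul_of_nonneg_left hI.2.le (by positivity)
      exact mul_le_mul_of_nonneg_left (add_le_add k1 k2) (by positivity)
  obtain ⟨C, -, hC⟩ := serrin (p := 6) (by norm_num) (q := 4) (by
      rw [ENNReal.toReal_inv]; norm_num) (K := 0) (lam := 0) (κ := 0) hν le_rfl le_rfl
      (by norm_num)
  have hz : SPV (fun _ : V => (0 : V)) := ⟨contDiff_const, fun _ _ => rfl⟩
  have hpz : ∀ (j : Fin 3) (x : V), pd j (fun _ : V => (0 : ℝ)) x = 0 := by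
    intro j x
    simp [pd]
  have hpz' : ∀ (j : Fin 3), pd j (fun _ : V => (0 : ℝ)) = fun _ => 0 := fun j =>
    funext (hpz j)
  refine (hC T 0 u p b (fun _ => 0) h le_rfl (fun t _ => ⟨hb0 t, le_rfl⟩) hbi
    integrableOn_zero (fun t ht => ⟨fun _ => 0, fun _ => 0, ∅, hz, hz, ?_, ?_, ?_, ?_, ?_, ?_,
      ?_⟩)).2
  · intro x r _
    simp
  · intro i k _
    simp [fr, fc]
  · unfold enstrophy
    simp [hpz]
  · unfold palin lap
    simp [hpz']
  · unfold enstrophy
    simp [hpz]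
  · unfold stretch
    simp [hpz]
  · intro i
    simp only [Pi.zero_apply, sub_zero]
    exact hL6 t ht i

end

end Pool.Agent.TH616.NSH
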