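import Pool.Agent.TH305.FB.NSf

/-!
The helical decomposition of a divergence-free field and the bound of the interaction of two modes
with opposite helicities.
-/

set_option autoImplicit false

open MeasureTheory Set Filter Topology
open H459R3.NS Pool.Agent.TH305.FB

namespace Pool.Agent.TH616.NSH

/-- The Euclidean length of a frequency. -/
noncomputable def len (k : K3) : ℝ := Real.sqrt (∑ j, (k j : ℝ) ^ 2)

theorem len_nonneg (k : K3) : 0 ≤ len k := Real.sqrt_nonneg _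

theorem len_sq (k : K3) : len k ^ 2 = ∑ j, (k j : ℝ) ^ 2 :=
  Real.sq_sqrt (Finset.sum_nonneg fun _ _ => sq_nonneg _)

theorem len_sq_nk2 (k : K3) : len k ^ 2 = nk2 k := len_sq k

theorem len_zero : len 0 = 0 := by simp [len]

theorem len_neg (k : K3) : len (-k) = len k := by simp [len]

theorem len_pos {k : K3} (hk : k ≠ 0) : 0 < len k := by
  obtain ⟨j, hj⟩ : ∃ j, k j ≠ 0 := by
    by_contra h
    push Not at h
    exact hk (funext h)
  unfold len
  refine Real.sqrt_pos.2 ?_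
  have h1 : 0 < (k j : ℝ) ^ 2 := by
    have : (k j : ℝ) ≠ 0 := by exact_mod_cast hj
    positivity
  exact h1.trans_le (Finset.single_le_sum (f := fun j => (k j : ℝ) ^ 2)
    (fun _ _ => sq_nonneg _) (Finset.mem_univ j))

theorem one_le_len {k : K3} (hk : k ≠ 0) : 1 ≤ len k := by
  obtain ⟨j, hj⟩ : ∃ j, k j ≠ 0 := by
    by_contra h
    push Not at h
    exact hk (funext h)
  unfold len
  refine Real.one_le_sqrt.2 ?_
  have h1 : 1 ≤ (k j : ℝ) ^ 2 := by
    have h2 : 0 < (k j) ^ 2 := by positivity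
    have h3 : 1 ≤ (k j) ^ 2 := h2
    exact_mod_cast h3
  exact h1.trans (Finset.single_le_sum (f := fun j => (k j : ℝ) ^ 2)
    (fun _ _ => sq_nonneg _) (Finset.mem_univ j))

theorem abs_le_len (k : K3) (j : Fin 3) : |(k j : ℝ)| ≤ len k := by
  refine Real.abs_le_sqrt ?_
  exact Finset.single_le_sum (f := fun j => (k j : ℝ) ^ 2)
    (fun _ _ => sq_nonneg _) (Finset.mem_univ j)

theorem norm_le_len (k : K3) (j : Fin 3) : ‖(k j : ℂ)‖ ≤ len k := by
  rw [Complex.norm_intCast]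
  exact abs_le_len k j

theorem len_le_N (k : K3) : len k ≤ 2 * N k := by
  have h := nk2_le k
  have h0 : (0 : ℝ) ≤ N k := by positivity
  rw [← len_sq_nk2] at h
  nlinarith [len_nonneg k]

theorem N_le_len (k : K3) : (N k : ℝ) ≤ len k := by
  have h := Pool.Agent.TH305.FB.N_sq_le k
  rw [← len_sq_nk2] at h
  exact (pow_le_pow_iff_left₀ (by positivity) (len_nonneg k) two_ne_zero).1 h

theorem len_eq_norm (k : K3) : len k = ‖(WithLp.toLp 2 fun j => (k j : ℝ) : EuclideanSpace ℝ (Fin 3))‖ := by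
  rw [EuclideanSpace.norm_eq, len]
  simp

theorem len_add_le (k l : K3) : len (k + l) ≤ len k + len l := by
  rw [len_eq_norm, len_eq_norm, len_eq_norm]
  refine le_trans (le_of_eq ?_) (norm_add_le _ _)
  congr 1
  ext j
  simp

/-- the lengths of the sides of a triad -/
theorem len_tri {a b c : K3} (h : a + b + c = 0) :
    len a ≤ len b + len c ∧ len b ≤ len a + len c ∧ len c ≤ len a + len b := by
  have h1 : a = -(b + c) := by rw [eq_neg_iff_add_eq_zero, ← h]; abel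
  have h2 : b = -(a + c) := by rw [eq_neg_iff_add_eq_zero, ← h]; abel
  have h3 : c = -(a + b) := by rw [eq_neg_iff_add_eq_zero, ← h]; abel
  refine ⟨?_, ?_, ?_⟩
  · rw [h1, len_neg]; exact len_add_le _ _
  · rw [h2, len_neg]; exact len_add_le _ _
  · rw [h3, len_neg]; exact len_add_le _ _

/-- The helical part with sign `s`. -/
noncomputable def hp (s : ℤˣ) (U : Fin 3 → K3 → ℂ) (i : Fin 3) (k : K3) : ℂ :=
  if k = 0 then 0 else (U i k + ((s : ℤ) : ℂ) *
    (Complex.I * crossProduct (fun j => (k j : ℂ)) (fun j => U j k) i / (len k : ℂ))) / 2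

variable {U : Fin 3 → K3 → ℂ}

theorem hp_zero (s : ℤˣ) (i : Fin 3) : hp s U i 0 = 0 := by simp [hp]

theorem hp_add {k : K3} (hk : k ≠ 0) (i : Fin 3) : hp 1 U i k + hp (-1) U i k = U i k := by
  simp only [hp, if_neg hk]
  push_cast
  ring

theorem cross0 (a b : Fin 3 → ℂ) : crossProduct a b 0 = a 1 * b 2 - a 2 * b 1 := by
  simp [cross_apply]

theorem cross1 (a b : Fin 3 → ℂ) : crossProduct a b 1 = a 2 * b 0 - a 0 * b 2 := by
  simp [cross_apply]

theorem cross2 (a b : Fin 3 → ℂ) : crossProduct a b 2 = a 0 * b 1 - a 1 * b 0 := by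
  simp [cross_apply]

theorem len_sq_C (k : K3) : (len k : ℂ) ^ 2 = (k 0 : ℂ) ^ 2 + (k 1 : ℂ) ^ 2 + (k 2 : ℂ) ^ 2 := by
  have := len_sq k
  rw [Fin.sum_univ_three] at this
  exact_mod_cast this

/-- The helical parts are eigenvectors of the curl. -/
theorem hp_curl (s : ℤˣ) (hdiv : ∀ k, ∑ j, (k j : ℂ) * U j k = 0) (k : K3) (i : Fin 3) :
    Complex.I * crossProduct (fun j => (k j : ℂ)) (fun j => hp s U j k) i
      = ((s : ℤ) : ℂ) * (len k : ℂ) * hp s U i k := by
  by_cases hk : k = 0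
  · subst hk
    simp [hp, len_zero]
  have hl : (len k : ℂ) ≠ 0 := by exact_mod_cast (len_pos hk).ne'
  have h2 := len_sq_C k
  have hd := hdiv k
  rw [Fin.sum_univ_three] at hd
  have hI : Complex.I ^ 2 = -1 := Complex.I_sq
  have hs : ((s : ℤ) : ℂ) ^ 2 = 1 := by
    rcases Int.units_eq_one_or s with h | h <;> simp [h]
  have hm := mul_inv_cancel₀ hl
  have e : ∀ i, hp s U i k = (U i k + ((s : ℤ) : ℂ) *
    (Complex.I * crossProduct (fun j => (k j : ℂ)) (fun j => U j k) i * (len k : ℂ)⁻¹)) / 2 := by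
    intro i
    rw [hp, if_neg hk, div_eq_mul_inv (Complex.I * _)]
  have e0 := e 0
  have e1 := e 1
  have e2 := e 2
  rw [cross0] at e0
  rw [cross1] at e1
  rw [cross2] at e2
  have g0 : Complex.I * ((k 1 : ℂ) * hp s U 2 k - (k 2 : ℂ) * hp s U 1 k)
      = ((s : ℤ) : ℂ) * (len k : ℂ) * hp s U 0 k := by
    rw [e0, e1, e2]
    generalize (len k : ℂ)⁻¹ = m at *
    generalize (len k : ℂ) = l at *
    generalize ((s : ℤ) : ℂ) = σ at *
    generalize (k 0 : ℂ) = x at *
    generalize (k 1 : ℂ) = y at *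
    generalize (k 2 : ℂ) = z at *
    generalize U 0 k = a at *
    generalize U 1 k = b at *
    generalize U 2 k = c at *
    linear_combination (-(Complex.I * (y * c - z * b) / 2)) * hs
      + (σ * Complex.I ^ 2 * m / 2 * x) * hd + (σ * Complex.I ^ 2 * m / 2 * a) * h2
      - (σ * m / 2 * a * l ^ 2) * hI
      + (σ * l * a / 2 - σ ^ 2 * Complex.I * (y * c - z * b) / 2) * hm
  have g1 : Complex.I * ((k 2 : ℂ) * hp s U 0 k - (k 0 : ℂ) * hp s U 2 k)
      = ((s : ℤ) : ℂ) * (len k : ℂ) * hp s U 1 k := by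
    rw [e0, e1, e2]
    generalize (len k : ℂ)⁻¹ = m at *
    generalize (len k : ℂ) = l at *
    generalize ((s : ℤ) : ℂ) = σ at *
    generalize (k 0 : ℂ) = x at *
    generalize (k 1 : ℂ) = y at *
    generalize (k 2 : ℂ) = z at *
    generalize U 0 k = a at *
    generalize U 1 k = b at *
    generalize U 2 k = c at *
    linear_combination (-(Complex.I * (z * a - x * c) / 2)) * hs
      + (σ * Complex.I ^ 2 * m / 2 * y) * hd + (σ * Complex.I ^ 2 * m / 2 * b) * h2
      - (σ * m / 2 * b * l ^ 2) * hI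
      + (σ * l * b / 2 - σ ^ 2 * Complex.I * (z * a - x * c) / 2) * hm
  have g2 : Complex.I * ((k 0 : ℂ) * hp s U 1 k - (k 1 : ℂ) * hp s U 0 k)
      = ((s : ℤ) : ℂ) * (len k : ℂ) * hp s U 2 k := by
    rw [e0, e1, e2]
    generalize (len k : ℂ)⁻¹ = m at *
    generalize (len k : ℂ) = l at *
    generalize ((s : ℤ) : ℂ) = σ at *
    generalize (k 0 : ℂ) = x at *
    generalize (k 1 : ℂ) = y at *
    generalize (k 2 : ℂ) = z at *
    generalize U 0 k = a at *
    generalize U 1 k = b at *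
    generalize U 2 k = c at *
    linear_combination (-(Complex.I * (x * b - y * a) / 2)) * hs
      + (σ * Complex.I ^ 2 * m / 2 * z) * hd + (σ * Complex.I ^ 2 * m / 2 * c) * h2
      - (σ * m / 2 * c * l ^ 2) * hI
      + (σ * l * c / 2 - σ ^ 2 * Complex.I * (x * b - y * a) / 2) * hm
  fin_cases i
  · show Complex.I * crossProduct _ _ 0 = _
    rw [cross0]; exact g0
  · show Complex.I * crossProduct _ _ 1 = _
    rw [cross1]; exact g1
  · show Complex.I * crossProduct _ _ 2 = _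
    rw [cross2]; exact g2

/-- The helical parts are divergence-free. -/
theorem hp_div (s : ℤˣ) (hdiv : ∀ k, ∑ j, (k j : ℂ) * U j k = 0) (k : K3) :
    ∑ j, (k j : ℂ) * hp s U j k = 0 := by
  by_cases hk : k = 0
  · subst hk; simp
  have hd := hdiv k
  rw [Fin.sum_univ_three] at hd ⊢
  simp only [hp, if_neg hk, cross0, cross1, cross2]
  linear_combination (1 / 2) * hd

theorem norm_sign (s : ℤˣ) : ‖((s : ℤ) : ℂ)‖ = 1 := by
  rcases Int.units_eq_one_or s with h | h <;> simp [h]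

theorem norm_hp_le (s : ℤˣ) (i : Fin 3) (k : K3) : ‖hp s U i k‖ ≤ am U k := by
  by_cases hk : k = 0
  · subst hk; rw [hp_zero, norm_zero]; exact am_nonneg U 0
  have hl := len_pos hk
  have hU : ‖U i k‖ ≤ am U k :=
    Finset.single_le_sum (f := fun i => ‖U i k‖) (fun _ _ => norm_nonneg _) (Finset.mem_univ i)
  have hx : ‖crossProduct (fun j => (k j : ℂ)) (fun j => U j k) i‖ ≤ len k * am U k := by
    have n0 := norm_le_len k 0
    have n1 := norm_le_len k 1
    have n2 := norm_le_len k 2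
    have a0 := norm_nonneg (U 0 k)
    have a1 := norm_nonneg (U 1 k)
    have a2 := norm_nonneg (U 2 k)
    have key : ∀ (x y : ℤ) (b c : ℂ), ‖(x : ℂ)‖ ≤ len k → ‖(y : ℂ)‖ ≤ len k →
        ‖(x : ℂ) * b - (y : ℂ) * c‖ ≤ len k * (‖b‖ + ‖c‖) := by
      intro x y b c hx hy
      calc _ ≤ ‖(x : ℂ) * b‖ + ‖(y : ℂ) * c‖ := norm_sub_le _ _
        _ = ‖(x : ℂ)‖ * ‖b‖ + ‖(y : ℂ)‖ * ‖c‖ := by rw [norm_mul, norm_mul]
        _ ≤ len k * ‖b‖ + len k * ‖c‖ := by gcongr
        _ = _ := by ring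
    have hl0 := len_nonneg k
    unfold am
    rw [Fin.sum_univ_three]
    fin_cases i
    · show ‖crossProduct _ _ 0‖ ≤ _
      rw [cross0]
      exact (key _ _ _ _ n1 n2).trans (mul_le_mul_of_nonneg_left (by linarith) hl0)
    · show ‖crossProduct _ _ 1‖ ≤ _
      rw [cross1]
      exact (key _ _ _ _ n2 n0).trans (mul_le_mul_of_nonneg_left (by linarith) hl0)
    · show ‖crossProduct _ _ 2‖ ≤ _
      rw [cross2]
      exact (key _ _ _ _ n0 n1).trans (mul_le_mul_of_nonneg_left (by linarith) hl0)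
  rw [hp, if_neg hk, norm_div, Complex.norm_ofNat, div_le_iff₀ two_pos]
  calc ‖U i k + ((s : ℤ) : ℂ) *
        (Complex.I * crossProduct (fun j => (k j : ℂ)) (fun j => U j k) i / (len k : ℂ))‖
      ≤ ‖U i k‖ + ‖((s : ℤ) : ℂ) *
        (Complex.I * crossProduct (fun j => (k j : ℂ)) (fun j => U j k) i / (len k : ℂ))‖ :=
        norm_add_le _ _
    _ = ‖U i k‖ + ‖crossProduct (fun j => (k j : ℂ)) (fun j => U j k) i‖ / len k := by
        rw [norm_mul, norm_sign, one_mul, norm_div, norm_mul, Complex.norm_I, one_mul,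
          Complex.norm_real, Real.norm_eq_abs, abs_of_pos hl]
    _ ≤ am U k + am U k := by
        gcongr
        rw [div_le_iff₀ hl, mul_comm]
        exact hx
    _ = am U k * 2 := by ring

theorem Rap_hp (s : ℤˣ) (hU : ∀ i, Rap (U i)) (i : Fin 3) : Rap (hp s U i) := by
  intro n
  refine Summable.of_nonneg_of_le (fun k => by positivity) (fun k => ?_) (summable_am_pow hU n)
  gcongr
  exact norm_hp_le s i k

/-- The determinant. -/
def det3 (a b c : Fin 3 → ℂ) : ℂ :=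
  a 0 * b 1 * c 2 - a 0 * b 2 * c 1 + a 1 * b 2 * c 0 - a 1 * b 0 * c 2
    + a 2 * b 0 * c 1 - a 2 * b 1 * c 0

theorem norm_dot_le (a b : Fin 3 → ℂ) :
    ‖a 0 * b 0 + a 1 * b 1 + a 2 * b 2‖ ≤ (∑ i, ‖a i‖) * ∑ i, ‖b i‖ := by
  rw [Fin.sum_univ_three, Fin.sum_univ_three]
  refine (norm_add₃_le).trans ?_
  rw [norm_mul, norm_mul, norm_mul]
  have a0 := norm_nonneg (a 0)
  have a1 := norm_nonneg (a 1)
  have a2 := norm_nonneg (a 2)
  have b0 := norm_nonneg (b 0)
  have b1 := norm_nonneg (b 1)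
  have b2 := norm_nonneg (b 2)
  nlinarith [mul_nonneg a0 b1, mul_nonneg a0 b2, mul_nonneg a1 b0, mul_nonneg a1 b2,
    mul_nonneg a2 b0, mul_nonneg a2 b1]

theorem norm_kdot_le (k : K3) (b : Fin 3 → ℂ) :
    ‖(k 0 : ℂ) * b 0 + (k 1 : ℂ) * b 1 + (k 2 : ℂ) * b 2‖ ≤ len k * ∑ i, ‖b i‖ := by
  rw [Fin.sum_univ_three]
  refine (norm_add₃_le).trans ?_
  rw [norm_mul, norm_mul, norm_mul]
  have n0 := norm_le_len k 0
  have n1 := norm_le_len k 1
  have n2 := norm_le_len k 2
  calc _ ≤ len k * ‖b 0‖ + len k * ‖b 1‖ + len k * ‖b 2‖ := by gcongr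
    _ = _ := by ring

/-- The interaction of two modes of opposite helicities. -/
theorem det_identity {a b c : K3} (habc : a + b + c = 0) (u P M : Fin 3 → ℂ)
    (hu : ∑ j, (a j : ℂ) * u j = 0) (hP0 : ∑ j, (b j : ℂ) * P j = 0)
    (hM0 : ∑ j, (c j : ℂ) * M j = 0)
    (hP : ∀ i, Complex.I * crossProduct (fun j => (b j : ℂ)) P i = (len b : ℂ) * P i)
    (hM : ∀ i, Complex.I * crossProduct (fun j => (c j : ℂ)) M i = -((len c : ℂ) * M i)) :
    ((len b : ℂ) + (len c : ℂ)) * det3 u P M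
      = -Complex.I * ((u 0 * P 0 + u 1 * P 1 + u 2 * P 2)
          * ((a 0 : ℂ) * M 0 + (a 1 : ℂ) * M 1 + (a 2 : ℂ) * M 2)
        + (u 0 * M 0 + u 1 * M 1 + u 2 * M 2)
          * ((a 0 : ℂ) * P 0 + (a 1 : ℂ) * P 1 + (a 2 : ℂ) * P 2)) := by
  have ha : ∀ j, (a j : ℂ) = -(b j : ℂ) - (c j : ℂ) := by
    intro j
    have h1 := congrFun habc j
    simp only [Pi.add_apply, Pi.zero_apply] at h1
    have h2 : a j = -b j - c j := by linarith
    rw [h2]
    push_cast
    ring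
  have P0 := hP 0
  have P1 := hP 1
  have P2 := hP 2
  have M0 := hM 0
  have M1 := hM 1
  have M2 := hM 2
  rw [cross0] at P0 M0
  rw [cross1] at P1 M1
  rw [cross2] at P2 M2
  rw [Fin.sum_univ_three] at hu hP0 hM0
  rw [ha 0, ha 1, ha 2] at hu ⊢
  unfold det3
  linear_combination (-(u 2 * M 1 - u 1 * M 2)) * P0 - (u 0 * M 2 - u 2 * M 0) * P1
    - (u 1 * M 0 - u 0 * M 1) * P2 + (u 1 * P 2 - u 2 * P 1) * M0 + (u 2 * P 0 - u 0 * P 2) * M1
    + (u 0 * P 1 - u 1 * P 0) * M2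
    - Complex.I * (u 0 * P 0 + u 1 * P 1 + u 2 * P 2) * hM0
    - Complex.I * (u 0 * M 0 + u 1 * M 1 + u 2 * M 2) * hP0
    + Complex.I * (M 0 * P 0 + M 1 * P 1 + M 2 * P 2) * hu

theorem norm_det_le {a b c : K3} (habc : a + b + c = 0) (u P M : Fin 3 → ℂ)
    (hu : ∑ j, (a j : ℂ) * u j = 0) (hP0 : ∑ j, (b j : ℂ) * P j = 0)
    (hM0 : ∑ j, (c j : ℂ) * M j = 0)
    (hP : ∀ i, Complex.I * crossProduct (fun j => (b j : ℂ)) P i = (len b : ℂ) * P i)
    (hM : ∀ i, Complex.I * crossProduct (fun j => (c j : ℂ)) M i = -((len c : ℂ) * M i)) :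
    (len b * len c) * ‖det3 u P M‖
      ≤ 2 * (len a * min (len b) (len c)) * ((∑ i, ‖u i‖) * (∑ i, ‖P i‖) * ∑ i, ‖M i‖) := by
  have h := det_identity habc u P M hu hP0 hM0 hP hM
  have h1 : (len b + len c) * ‖det3 u P M‖
      ≤ 2 * len a * ((∑ i, ‖u i‖) * (∑ i, ‖P i‖) * ∑ i, ‖M i‖) := by
    have e : ‖((len b : ℂ) + (len c : ℂ)) * det3 u P M‖ = (len b + len c) * ‖det3 u P M‖ := by
      rw [norm_mul, ← Complex.ofReal_add, Complex.norm_real, Real.norm_eq_abs,
        abs_of_nonneg (add_nonneg (len_nonneg b) (len_nonneg c))]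
    rw [← e, h, norm_mul, norm_neg, Complex.norm_I, one_mul]
    refine (norm_add_le _ _).trans ?_
    rw [norm_mul, norm_mul]
    have n1 := norm_dot_le u P
    have n2 := norm_kdot_le a M
    have n3 := norm_dot_le u M
    have n4 := norm_kdot_le a P
    have s1 : 0 ≤ ∑ i, ‖u i‖ := Finset.sum_nonneg fun _ _ => norm_nonneg _
    have s2 : 0 ≤ ∑ i, ‖P i‖ := Finset.sum_nonneg fun _ _ => norm_nonneg _
    have s3 : 0 ≤ ∑ i, ‖M i‖ := Finset.sum_nonneg fun _ _ => norm_nonneg _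
    have l1 := len_nonneg a
    calc _ ≤ ((∑ i, ‖u i‖) * ∑ i, ‖P i‖) * (len a * ∑ i, ‖M i‖)
          + ((∑ i, ‖u i‖) * ∑ i, ‖M i‖) * (len a * ∑ i, ‖P i‖) := by gcongr
      _ = _ := by ring
  have l2 := len_nonneg b
  have l3 := len_nonneg c
  have hmin : len b * len c ≤ min (len b) (len c) * (len b + len c) := by
    rcases le_total (len b) (len c) with h' | h'
    · rw [min_eq_left h']; nlinarith
    · rw [min_eq_right h']; nlinarith
  have hm0 : 0 ≤ min (len b) (len c) := le_min l2 l3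
  calc (len b * len c) * ‖det3 u P M‖
      ≤ (min (len b) (len c) * (len b + len c)) * ‖det3 u P M‖ := by gcongr
    _ = min (len b) (len c) * ((len b + len c) * ‖det3 u P M‖) := by ring
    _ ≤ min (len b) (len c) * (2 * len a * ((∑ i, ‖u i‖) * (∑ i, ‖P i‖) * ∑ i, ‖M i‖)) := by
        gcongr
    _ = _ := by ring

/-- collinear triads -/
theorem dot_zero {a b : K3} (hab : crossProduct a b = 0) {P : Fin 3 → ℂ}
    (hP0 : ∑ j, (b j : ℂ) * P j = 0) (hb : b = 0 → P = 0) :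
    (a 0 : ℂ) * P 0 + (a 1 : ℂ) * P 1 + (a 2 : ℂ) * P 2 = 0 := by
  by_cases h0 : b = 0
  · rw [hb h0]; simp
  have c0 : a 1 * b 2 - a 2 * b 1 = 0 := by
    have := congrFun hab 0
    simpa [cross_apply] using this
  have c1 : a 2 * b 0 - a 0 * b 2 = 0 := by
    have := congrFun hab 1
    simpa [cross_apply] using this
  have c2 : a 0 * b 1 - a 1 * b 0 = 0 := by
    have := congrFun hab 2
    simpa [cross_apply] using this
  have c0' : (a 1 : ℂ) * b 2 - a 2 * b 1 = 0 := by exact_mod_cast c0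
  have c1' : (a 2 : ℂ) * b 0 - a 0 * b 2 = 0 := by exact_mod_cast c1
  have c2' : (a 0 : ℂ) * b 1 - a 1 * b 0 = 0 := by exact_mod_cast c2
  rw [Fin.sum_univ_three] at hP0
  obtain ⟨j, hj⟩ : ∃ j, b j ≠ 0 := by
    by_contra h
    push Not at h
    exact h0 (funext h)
  have hj' : (b j : ℂ) ≠ 0 := by exact_mod_cast hj
  refine (mul_eq_zero.1 (?_ : (b j : ℂ) * _ = 0)).resolve_left hj'
  fin_cases j
  · show (b 0 : ℂ) * _ = 0
    linear_combination (a 0 : ℂ) * hP0 - P 1 * c2' + P 2 * c1'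
  · show (b 1 : ℂ) * _ = 0
    linear_combination (a 1 : ℂ) * hP0 + P 0 * c2' - P 2 * c0'
  · show (b 2 : ℂ) * _ = 0
    linear_combination (a 2 : ℂ) * hP0 - P 0 * c1' + P 1 * c0'

theorem det_zero {a b c : K3} (habc : a + b + c = 0) (hab : crossProduct a b = 0)
    (u P M : Fin 3 → ℂ)
    (hu : ∑ j, (a j : ℂ) * u j = 0) (hP0 : ∑ j, (b j : ℂ) * P j = 0)
    (hM0 : ∑ j, (c j : ℂ) * M j = 0)
    (hP : ∀ i, Complex.I * crossProduct (fun j => (b j : ℂ)) P i = (len b : ℂ) * P i)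
    (hM : ∀ i, Complex.I * crossProduct (fun j => (c j : ℂ)) M i = -((len c : ℂ) * M i))
    (hPz : b = 0 → P = 0) (hMz : c = 0 → M = 0) :
    (len b * len c) * ‖det3 u P M‖ = 0 := by
  have h := det_identity habc u P M hu hP0 hM0 hP hM
  have hac : crossProduct a c = 0 := by
    have hc : c = -a - b := by
      have : c = -(a + b) := by rw [eq_neg_iff_add_eq_zero, ← habc]; abel
      rw [this]; abel
    rw [hc, map_sub, map_neg, hab, cross_self]
    simp
  have z1 := dot_zero hab hP0 hPz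
  have z2 := dot_zero hac hM0 hMz
  rw [z1, z2, mul_zero, mul_zero, add_zero, mul_zero] at h
  rcases mul_eq_zero.1 h with h | h
  · have h' : len b + len c = 0 := by exact_mod_cast h
    have : len b = 0 := by linarith [len_nonneg b, len_nonneg c]
    rw [this]; simp
  · rw [h]; simp

end Pool.Agent.TH616.NSH
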