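import Pool.Agent.TH616.NSH.Hel

/-!
Sums over triads of frequencies.
-/

set_option autoImplicit false

open MeasureTheory Set Filter Topology
open scoped ENNReal
open H459R3.NS Pool.Agent.TH305.FB

namespace Pool.Agent.TH616.NSH

/-- The sum over all triads. -/
noncomputable def TZ (F : K3 → K3 → K3 → ℝ≥0∞) : ℝ≥0∞ :=
  ∑' p : K3 × K3, F p.1 p.2 (-p.1 - p.2)

theorem TZ_swap12 (F : K3 → K3 → K3 → ℝ≥0∞) : TZ (fun a b c => F b a c) = TZ F := by
  unfold TZ
  rw [← (Equiv.prodComm K3 K3).tsum_eq]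
  refine tsum_congr fun p => ?_
  simp only [Equiv.prodComm_apply, Prod.fst_swap, Prod.snd_swap]
  rw [show -p.2 - p.1 = -p.1 - p.2 by abel]

theorem TZ_swap23 (F : K3 → K3 → K3 → ℝ≥0∞) : TZ (fun a b c => F a c b) = TZ F := by
  unfold TZ
  rw [← inv23.tsum_eq]
  refine tsum_congr fun p => ?_
  have : inv23 p = (p.1, -p.1 - p.2) := rfl
  rw [this]
  simp only
  rw [show -p.1 - (-p.1 - p.2) = p.2 by abel]

theorem TZ_swap13 (F : K3 → K3 → K3 → ℝ≥0∞) : TZ (fun a b c => F c b a) = TZ F := by
  rw [← TZ_swap23 F, ← TZ_swap12 (fun a b c => F a c b), ← TZ_swap23 (fun a b c => F b c a)]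

theorem TZ_mono {F G : K3 → K3 → K3 → ℝ≥0∞} (h : ∀ a b c, a + b + c = 0 → F a b c ≤ G a b c) :
    TZ F ≤ TZ G :=
  ENNReal.tsum_le_tsum fun p => h _ _ _ (by abel)

theorem TZ_add (F G : K3 → K3 → K3 → ℝ≥0∞) :
    TZ (fun a b c => F a b c + G a b c) = TZ F + TZ G := ENNReal.tsum_add

theorem TZ_mul (r : ℝ≥0∞) (F : K3 → K3 → K3 → ℝ≥0∞) :
    TZ (fun a b c => r * F a b c) = r * TZ F := ENNReal.tsum_mul_left

theorem TZ_12 (f : K3 → K3 → ℝ≥0∞) : TZ (fun a b _ => f a b) = ∑' a, ∑' b, f a b :=
  ENNReal.tsum_prod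

theorem TZ_13 (f : K3 → K3 → ℝ≥0∞) : TZ (fun a _ c => f a c) = ∑' a, ∑' c, f a c := by
  rw [← TZ_12, ← TZ_swap23]

/-- The length as an extended real. -/
noncomputable def LL (k : K3) : ℝ≥0∞ := ENNReal.ofReal (len k)

/-- The powers of the length. -/
noncomputable def Lp (x : ℝ) (k : K3) : ℝ≥0∞ := ENNReal.ofReal (len k ^ x)

theorem LL_ne_top (k : K3) : LL k ≠ ∞ := ENNReal.ofReal_ne_top

theorem LL_zero : LL 0 = 0 := by simp [LL, len_zero]

theorem LL_le_LL {a b : K3} : LL a ≤ LL b ↔ len a ≤ len b :=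
  ENNReal.ofReal_le_ofReal_iff (len_nonneg b)

theorem LL_le_two {a b : K3} (h : len a ≤ 2 * len b) : LL a ≤ 2 * LL b := by
  unfold LL
  rw [← ENNReal.ofReal_ofNat, ← ENNReal.ofReal_mul (by norm_num)]
  exact ENNReal.ofReal_le_ofReal h

/-- The weight of a triad: the product of the longest and the shortest side. -/
noncomputable def wr (a b c : K3) : ℝ :=
  max (len a) (max (len b) (len c)) * min (len a) (min (len b) (len c))

/-- The weight of a triad. -/
noncomputable def W (a b c : K3) : ℝ≥0∞ := ENNReal.ofReal (wr a b c)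

theorem W_swap12 (a b c : K3) : W b a c = W a b c := by
  unfold W wr
  rw [max_left_comm, min_left_comm]

theorem W_swap23 (a b c : K3) : W a c b = W a b c := by
  unfold W wr
  rw [max_comm (len c), min_comm (len c)]

/-- the shortest side is `a` -/
theorem wr_le1 {a b c : K3} (h : a + b + c = 0) (h1 : len a ≤ len b) (h2 : len a ≤ len c) :
    wr a b c ≤ 2 * (len a * len b) ∧ wr a b c ≤ 2 * (len a * len c) := by
  obtain ⟨t1, t2, t3⟩ := len_tri h
  have l1 := len_nonneg a
  unfold wr
  rw [min_eq_left (le_min h1 h2)]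
  have m1 : max (len a) (max (len b) (len c)) ≤ 2 * len b :=
    max_le (by linarith) (max_le (by linarith) (by linarith))
  have m2 : max (len a) (max (len b) (len c)) ≤ 2 * len c :=
    max_le (by linarith) (max_le (by linarith) (by linarith))
  constructor
  · nlinarith
  · nlinarith

/-- the shortest side is `c` -/
theorem wr_le3 {a b c : K3} (h : a + b + c = 0) (h1 : len c ≤ len a) (h2 : len c ≤ len b) :
    wr a b c ≤ 2 * (len b * len c) := by
  obtain ⟨t1, t2, t3⟩ := len_tri h
  have l1 := len_nonneg c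
  unfold wr
  rw [min_eq_right h2, min_eq_right h1]
  have m1 : max (len a) (max (len b) (len c)) ≤ 2 * len b :=
    max_le (by linarith) (max_le (by linarith) (by linarith))
  nlinarith

theorem wr_nonneg (a b c : K3) : 0 ≤ wr a b c := by
  unfold wr
  have := len_nonneg a
  have := len_nonneg b
  have := len_nonneg c
  positivity

/-- the interaction coefficient and the weight -/
theorem coef_le_wr (a b c : K3) : len a * min (len b) (len c) ≤ wr a b c := by
  unfold wr
  have l1 := len_nonneg a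
  have l2 := len_nonneg b
  have l3 := len_nonneg c
  rcases le_total (len a) (min (len b) (len c)) with h | h
  · rw [min_eq_left h, mul_comm]
    refine mul_le_mul_of_nonneg_right ?_ l1
    exact (min_le_left _ _).trans ((le_max_left _ _).trans (le_max_right _ _))
  · rw [min_eq_right h]
    exact mul_le_mul_of_nonneg_right (le_max_left _ _) (le_min l2 l3)

theorem wr_le_two_mul {a b c : K3} (h : a + b + c = 0) : wr a b c ≤ 2 * (len b * len c) := by
  obtain ⟨t1, t2, t3⟩ := len_tri h
  have l1 := len_nonneg a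
  have l2 := len_nonneg b
  have l3 := len_nonneg c
  rcases le_total (len a) (len b) with h1 | h1
  · rcases le_total (len a) (len c) with h2 | h2
    · have := (wr_le1 h h1 h2).1
      have h3 := mul_le_mul_of_nonneg_right h2 l2
      linarith
    · exact wr_le3 h h2 (h2.trans h1)
  · rcases le_total (len b) (len c) with h2 | h2
    · -- the shortest is `b`
      have e : wr a b c = wr a c b := by
        unfold wr
        rw [max_comm (len c), min_comm (len c)]
      rw [e]
      have := wr_le3 (a := a) (b := c) (c := b) (by rw [← h]; abel) h1 h2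
      linarith
    · exact wr_le3 h (h2.trans h1) h2

theorem wr_le_sqrt {a b c : K3} (h : a + b + c = 0) :
    wr a b c ≤ 2 * (len a * Real.sqrt (len b * len c)) := by
  obtain ⟨t1, t2, t3⟩ := len_tri h
  have l1 := len_nonneg a
  have l2 := len_nonneg b
  have l3 := len_nonneg c
  have key : ∀ x y : ℝ, 0 ≤ x → x ≤ y → x ≤ Real.sqrt (x * y) ∧ Real.sqrt (x * y) ≤ y := by
    intro x y hx hxy
    constructor
    · exact Real.le_sqrt_of_sq_le (by nlinarith)
    · rw [Real.sqrt_le_left (hx.trans hxy)]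
      nlinarith
  have hs : Real.sqrt (len b * len c) ^ 2 = len b * len c := Real.sq_sqrt (mul_nonneg l2 l3)
  have hs0 := Real.sqrt_nonneg (len b * len c)
  have hsmall : min (len b) (len c) ≤ Real.sqrt (len b * len c) := by
    rcases le_total (len b) (len c) with h1 | h1
    · rw [min_eq_left h1]; exact (key _ _ l2 h1).1
    · rw [min_eq_right h1, mul_comm]; exact (key _ _ l3 h1).1
  have hlarge : Real.sqrt (len b * len c) ≤ max (len b) (len c) := by
    rcases le_total (len b) (len c) with h1 | h1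
    · rw [max_eq_right h1]; exact (key _ _ l2 h1).2
    · rw [max_eq_left h1, mul_comm]; exact (key _ _ l3 h1).2
  rcases le_total (len a) (min (len b) (len c)) with h1 | h1
  · -- the shortest side is `a`
    have h2 := le_min_iff.1 h1
    have h3 := wr_le1 h h2.1 h2.2
    have h4 : wr a b c ≤ 2 * (len a * min (len b) (len c)) := by
      rcases le_total (len b) (len c) with h5 | h5
      · rw [min_eq_left h5]; exact h3.1
      · rw [min_eq_right h5]; exact h3.2
    exact h4.trans (by gcongr)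
  · -- the shortest side is not `a`
    have h4 : max (len b) (len c) ≤ 2 * len a := by
      rcases le_total (len b) (len c) with h5 | h5
      · rw [min_eq_left h5] at h1
        rw [max_eq_right h5]; linarith
      · rw [min_eq_right h5] at h1
        rw [max_eq_left h5]; linarith
    have h5 := wr_le_two_mul h
    have h6 : 0 ≤ min (len b) (len c) := le_min l2 l3
    have h7 : wr a b c = max (len a) (max (len b) (len c)) * min (len b) (len c) := by
      unfold wr
      rw [min_eq_right h1]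
    have h8 : max (len a) (max (len b) (len c)) ≤ 2 * len a := max_le (by linarith) h4
    rw [h7]
    calc _ ≤ (2 * len a) * Real.sqrt (len b * len c) := by gcongr
      _ = _ := by ring

theorem wr_le_rpow {a b c : K3} (h : a + b + c = 0) {σ : ℝ} (h0 : 0 ≤ σ) (h1 : σ ≤ 1) :
    wr a b c ≤ 2 * (len a ^ σ * (len b ^ (1 - σ / 2) * len c ^ (1 - σ / 2))) := by
  have l1 := len_nonneg a
  have l2 := len_nonneg b
  have l3 := len_nonneg c
  have r1 := Real.rpow_nonneg l1 σ
  have r2 := Real.rpow_nonneg l2 (1 - σ / 2)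
  have r3 := Real.rpow_nonneg l3 (1 - σ / 2)
  rcases (wr_nonneg a b c).eq_or_lt with hw | hw
  · rw [← hw]; positivity
  have e1 := wr_le_two_mul h
  have e2 := wr_le_sqrt h
  have hbc : 0 < len b * len c := by nlinarith
  have hb : 0 < len b := by
    rcases l2.eq_or_lt with hb | hb
    · rw [← hb] at hbc; simp at hbc
    · exact hb
  have hc : 0 < len c := by
    rcases l3.eq_or_lt with hb | hb
    · rw [← hb] at hbc; simp at hbc
    · exact hb
  have hs := Real.sqrt_pos.2 hbc
  have ha : 0 < len a := by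
    rcases l1.eq_or_lt with hb | hb
    · rw [← hb] at e2; simp at e2; linarith
    · exact hb
  have e3 : wr a b c = wr a b c ^ (1 - σ) * wr a b c ^ σ := by
    rw [← Real.rpow_add hw]; simp
  have e4 : wr a b c ^ (1 - σ) ≤ (2 * (len b * len c)) ^ (1 - σ) :=
    Real.rpow_le_rpow hw.le e1 (by linarith)
  have e5 : wr a b c ^ σ ≤ (2 * (len a * Real.sqrt (len b * len c))) ^ σ :=
    Real.rpow_le_rpow hw.le e2 h0
  rw [e3]
  calc wr a b c ^ (1 - σ) * wr a b c ^ σ
      ≤ (2 * (len b * len c)) ^ (1 - σ) * (2 * (len a * Real.sqrt (len b * len c))) ^ σ := by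
        gcongr
    _ = 2 * (len a ^ σ * (len b ^ (1 - σ / 2) * len c ^ (1 - σ / 2))) := by
        rw [Real.mul_rpow two_pos.le hbc.le, Real.mul_rpow two_pos.le (by positivity),
          Real.mul_rpow l1 hs.le, Real.sqrt_eq_rpow, ← Real.rpow_mul hbc.le,
          ← Real.mul_rpow l2 l3]
        have t1 : (2 : ℝ) ^ (1 - σ) * 2 ^ σ = 2 := by
          rw [← Real.rpow_add two_pos]; simp
        have t2 : (len b * len c) ^ (1 - σ) * (len b * len c) ^ (1 / 2 * σ)
            = (len b * len c) ^ (1 - σ / 2) := by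
          rw [← Real.rpow_add hbc]; congr 1; ring
        rw [← t2]
        calc _ = (2 ^ (1 - σ) * 2 ^ σ) * (len a ^ σ * ((len b * len c) ^ (1 - σ)
              * (len b * len c) ^ (1 / 2 * σ))) := by ring
          _ = _ := by rw [t1]

theorem W_le_rpow {a b c : K3} (h : a + b + c = 0) {σ : ℝ} (h0 : 0 ≤ σ) (h1 : σ ≤ 1) :
    W a b c ≤ 2 * (Lp σ a * (Lp (1 - σ / 2) b * Lp (1 - σ / 2) c)) := by
  unfold W Lp
  have r1 := Real.rpow_nonneg (len_nonneg a) σ
  have r2 := Real.rpow_nonneg (len_nonneg b) (1 - σ / 2)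
  have r3 := Real.rpow_nonneg (len_nonneg c) (1 - σ / 2)
  rw [← ENNReal.ofReal_mul r2, ← ENNReal.ofReal_mul r1, ← ENNReal.ofReal_ofNat,
    ← ENNReal.ofReal_mul (by norm_num)]
  exact ENNReal.ofReal_le_ofReal (wr_le_rpow h h0 h1)

theorem Lp_sq (x : ℝ) (k : K3) : Lp x k ^ 2 = Lp (2 * x) k := by
  unfold Lp
  rw [← ENNReal.ofReal_pow (Real.rpow_nonneg (len_nonneg k) x), ← Real.rpow_mul_natCast
    (len_nonneg k)]
  congr 2
  push_cast
  ring

theorem mul_le_sq_add (x y : ℝ≥0∞) : x * y ≤ x ^ 2 + y ^ 2 := by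
  rcases le_total x y with h | h
  · calc x * y ≤ y * y := by gcongr
      _ = y ^ 2 := by rw [sq]
      _ ≤ _ := le_add_self
  · calc x * y ≤ x * x := by gcongr
      _ = x ^ 2 := by rw [sq]
      _ ≤ _ := le_self_add

/-- The estimate with the weighted absolute norm. -/
theorem TZ_wiener {σ : ℝ} (h0 : 0 ≤ σ) (h1 : σ ≤ 1) (x v : K3 → ℝ≥0∞) :
    TZ (fun a b c => W a b c * (x a * (v b * v c)))
      ≤ 4 * ((∑' k, Lp σ k * x k) * ∑' k, Lp (2 - σ) k * v k ^ 2) := by
  have e : ∀ k, (Lp (1 - σ / 2) k * v k) ^ 2 = Lp (2 - σ) k * v k ^ 2 := by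
    intro k
    rw [mul_pow, Lp_sq]
    congr 2
    ring
  calc TZ (fun a b c => W a b c * (x a * (v b * v c)))
      ≤ TZ (fun a b c => (2 * (Lp σ a * x a) * (Lp (2 - σ) b * v b ^ 2))
        + (2 * (Lp σ a * x a) * (Lp (2 - σ) c * v c ^ 2))) := by
        refine TZ_mono fun a b c h => ?_
        have h2 := W_le_rpow h h0 h1
        have h3 := mul_le_sq_add (Lp (1 - σ / 2) b * v b) (Lp (1 - σ / 2) c * v c)
        rw [e, e] at h3
        calc W a b c * (x a * (v b * v c))
            ≤ 2 * (Lp σ a * (Lp (1 - σ / 2) b * Lp (1 - σ / 2) c)) * (x a * (v b * v c)) := by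
              gcongr
          _ = 2 * (Lp σ a * x a) * ((Lp (1 - σ / 2) b * v b) * (Lp (1 - σ / 2) c * v c)) := by
              ring
          _ ≤ 2 * (Lp σ a * x a) * (Lp (2 - σ) b * v b ^ 2 + Lp (2 - σ) c * v c ^ 2) := by
              gcongr
          _ = _ := by ring
    _ = (∑' a, ∑' b, 2 * (Lp σ a * x a) * (Lp (2 - σ) b * v b ^ 2))
        + ∑' a, ∑' c, 2 * (Lp σ a * x a) * (Lp (2 - σ) c * v c ^ 2) := by
        rw [TZ_add, TZ_12 (fun a b => 2 * (Lp σ a * x a) * (Lp (2 - σ) b * v b ^ 2)),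
          TZ_13 (fun a c => 2 * (Lp σ a * x a) * (Lp (2 - σ) c * v c ^ 2))]
    _ = _ := by
        simp_rw [ENNReal.tsum_mul_left, ENNReal.tsum_mul_right, ENNReal.tsum_mul_left]
        ring

end Pool.Agent.TH616.NSH
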