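import Pool.Agent.TH616.NSH.Diff
import Pool.Agent.TH616.NSH.Gro

/-!
The criterion with helical modes.
-/

set_option autoImplicit false

open MeasureTheory Set Filter Topology
open scoped ENNReal
open H459R3.NS Pool.Agent.TH305.FB

namespace Pool.Agent.TH616.NSH

/-- The helical part of a field. -/
noncomputable def hel (s : ℤˣ) (v : V → V) (k : K3) (i : Fin 3) : ℂ :=
  if k = 0 then 0 else (fr (fun x => v x i) k + ((s : ℤ) : ℂ) *
    (Complex.I * crossProduct (fun j => (k j : ℂ)) (fun j => fr (fun x => v x j) k) i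
      / (len k : ℂ))) / 2

/-- The size of the part of `v` with modes in `Z` at the frequency `k`. -/
noncomputable def size (Z : Set (K3 × ℤˣ)) (v : V → V) (k : K3) : ℝ :=
  Real.sqrt (∑ s : ℤˣ, Z.indicator (fun m => ∑ i, ‖hel m.2 v m.1 i‖ ^ 2) (k, s))

/-- The norm of a dyadic block. -/
noncomputable def block (j : ℕ) (Z : Set (K3 × ℤˣ)) (v : V → V) : ℝ :=
  Real.sqrt (∑' k, {k | 2 ^ j ≤ len k ∧ len k < 2 ^ (j + 1)}.indicator
    (fun k => size Z v k ^ 2) k)

/-- The critical energy. -/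
noncomputable def crit (v : V → V) : ℝ := ∑' k, len k * ∑ i, ‖fr (fun x => v x i) k‖ ^ 2

section fixed

variable {U : Fin 3 → K3 → ℂ}

/-- The size in terms of the Fourier coefficients. -/
noncomputable def sz (Z : Set (K3 × ℤˣ)) (U : Fin 3 → K3 → ℂ) (k : K3) : ℝ :=
  Real.sqrt (∑ s : ℤˣ, Z.indicator (fun m => ∑ i, ‖hp m.2 U i m.1‖ ^ 2) (k, s))

theorem sum_units (f : ℤˣ → ℝ) : ∑ s, f s = f 1 + f (-1) := by
  have h : (Finset.univ : Finset ℤˣ) = {1, -1} := rfl
  rw [h, Finset.sum_insert (by decide), Finset.sum_singleton]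

/-- the real version of `mz` -/
noncomputable def mr (Z : Set (K3 × ℤˣ)) (U : Fin 3 → K3 → ℂ) (k : K3) : ℝ :=
  Z.indicator (fun m => ∑ i, ‖hp m.2 U i m.1‖) (k, 1)
    + Z.indicator (fun m => ∑ i, ‖hp m.2 U i m.1‖) (k, -1)

theorem mr_nonneg (Z : Set (K3 × ℤˣ)) (k : K3) : 0 ≤ mr Z U k := by
  unfold mr
  refine add_nonneg ?_ ?_ <;>
  · refine Set.indicator_nonneg (fun m _ => ?_) _
    exact Finset.sum_nonneg fun _ _ => norm_nonneg _

theorem mz_eq (Z : Set (K3 × ℤˣ)) (k : K3) : mz Z U k = ENNReal.ofReal (mr Z U k) := by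
  have h0 : ∀ s : ℤˣ, 0 ≤ Z.indicator (fun m => ∑ i, ‖hp m.2 U i m.1‖) (k, s) := by
    intro s
    refine Set.indicator_nonneg (fun m _ => ?_) _
    exact Finset.sum_nonneg fun _ _ => norm_nonneg _
  unfold mz mr hm
  rw [ENNReal.ofReal_add (h0 1) (h0 (-1))]
  congr 1
  · split_ifs with h
    · rw [Set.indicator_of_mem h]
    · rw [Set.indicator_of_notMem h]; simp
  · split_ifs with h
    · rw [Set.indicator_of_mem h]
    · rw [Set.indicator_of_notMem h]; simp

theorem sz_sq (Z : Set (K3 × ℤˣ)) (k : K3) : sz Z U k ^ 2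
    = Z.indicator (fun m => ∑ i, ‖hp m.2 U i m.1‖ ^ 2) (k, 1)
      + Z.indicator (fun m => ∑ i, ‖hp m.2 U i m.1‖ ^ 2) (k, -1) := by
  unfold sz
  rw [Real.sq_sqrt, sum_units]
  refine Finset.sum_nonneg fun s _ => Set.indicator_nonneg (fun m _ => ?_) _
  exact Finset.sum_nonneg fun _ _ => sq_nonneg _

theorem sum_sq_le (x : Fin 3 → ℝ) : (∑ i, x i) ^ 2 ≤ 3 * ∑ i, x i ^ 2 := by
  rw [Fin.sum_univ_three, Fin.sum_univ_three]
  nlinarith [sq_nonneg (x 0 - x 1), sq_nonneg (x 0 - x 2), sq_nonneg (x 1 - x 2)]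

theorem mr_le_sz (Z : Set (K3 × ℤˣ)) (k : K3) : mr Z U k ≤ 3 * sz Z U k := by
  have hs0 : 0 ≤ sz Z U k := Real.sqrt_nonneg _
  have h1 : ∀ s : ℤˣ, (Z.indicator (fun m => ∑ i, ‖hp m.2 U i m.1‖) (k, s)) ^ 2
      ≤ 3 * Z.indicator (fun m => ∑ i, ‖hp m.2 U i m.1‖ ^ 2) (k, s) := by
    intro s
    by_cases h : (k, s) ∈ Z
    · rw [Set.indicator_of_mem h, Set.indicator_of_mem h]
      exact sum_sq_le _
    · rw [Set.indicator_of_notMem h, Set.indicator_of_notMem h]
      simp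
  have h2 : mr Z U k ^ 2 ≤ (3 * sz Z U k) ^ 2 := by
    rw [mul_pow, sz_sq]
    have a1 := h1 1
    have a2 := h1 (-1)
    have a3 : 0 ≤ Z.indicator (fun m => ∑ i, ‖hp m.2 U i m.1‖ ^ 2) (k, 1) :=
      Set.indicator_nonneg (fun m _ => Finset.sum_nonneg fun _ _ => sq_nonneg _) _
    have a4 : 0 ≤ Z.indicator (fun m => ∑ i, ‖hp m.2 U i m.1‖ ^ 2) (k, -1) :=
      Set.indicator_nonneg (fun m _ => Finset.sum_nonneg fun _ _ => sq_nonneg _) _
    unfold mr
    nlinarith [sq_nonneg (Z.indicator (fun m => ∑ i, ‖hp m.2 U i m.1‖) (k, (1 : ℤˣ))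
      - Z.indicator (fun m => ∑ i, ‖hp m.2 U i m.1‖) (k, (-1 : ℤˣ)))]
  exact (pow_le_pow_iff_left₀ (mr_nonneg Z k) (by positivity) two_ne_zero).1 h2

theorem sz_le (Z : Set (K3 × ℤˣ)) (k : K3) : sz Z U k ≤ 6 * am U k := by
  have h0 := am_nonneg U k
  have h1 : ∀ s : ℤˣ, Z.indicator (fun m => ∑ i, ‖hp m.2 U i m.1‖ ^ 2) (k, s)
      ≤ 3 * am U k ^ 2 := by
    intro s
    by_cases h : (k, s) ∈ Z
    · rw [Set.indicator_of_mem h]
      have : ∀ i : Fin 3, ‖hp s U i k‖ ^ 2 ≤ am U k ^ 2 := fun i =>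
        pow_le_pow_left₀ (norm_nonneg _) (norm_hp_le s i k) 2
      show ∑ i, ‖hp s U i k‖ ^ 2 ≤ _
      rw [Fin.sum_univ_three]
      linarith [this 0, this 1, this 2]
    · rw [Set.indicator_of_notMem h]
      positivity
  have h2 : sz Z U k ^ 2 ≤ (6 * am U k) ^ 2 := by
    rw [sz_sq]
    nlinarith [h1 1, h1 (-1), sq_nonneg (am U k)]
  exact (pow_le_pow_iff_left₀ (Real.sqrt_nonneg _) (by positivity) two_ne_zero).1 h2

/-- The norm of a dyadic block in terms of the Fourier coefficients. -/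
noncomputable def blk (j : ℕ) (Z : Set (K3 × ℤˣ)) (U : Fin 3 → K3 → ℂ) : ℝ :=
  Real.sqrt (∑' k, {k | 2 ^ j ≤ len k ∧ len k < 2 ^ (j + 1)}.indicator
    (fun k => sz Z U k ^ 2) k)

theorem Sj_mz_le (hU : ∀ i, Rap (U i)) (Z : Set (K3 × ℤˣ)) (j : ℕ) :
    Sj j (fun k => mz Z U k ^ 2) ≤ ENNReal.ofReal (3 * blk j Z U) ^ 2 := by
  set Q : Set K3 := {k | 2 ^ j ≤ len k ∧ len k < 2 ^ (j + 1)} with hQ
  have hs : Summable (Q.indicator fun k => sz Z U k ^ 2) := by
    have h1 : Summable fun k => am U k ^ 2 := summable_sq_real (am_nonneg U) (summable_am hU)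
    refine Summable.of_nonneg_of_le (fun k => Set.indicator_nonneg (fun _ _ => sq_nonneg _) k)
      (fun k => ?_) (h1.mul_left 36)
    refine (Set.indicator_le_self' (fun _ _ => sq_nonneg _) k).trans ?_
    have h2 := sz_le (U := U) Z k
    have h3 : 0 ≤ sz Z U k := Real.sqrt_nonneg _
    nlinarith [am_nonneg U k]
  have h0 : ∀ k, 0 ≤ Q.indicator (fun k => sz Z U k ^ 2) k := fun k =>
    Set.indicator_nonneg (fun _ _ => sq_nonneg _) k
  have e : ENNReal.ofReal (3 * blk j Z U) ^ 2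
      = 9 * ∑' k, ENNReal.ofReal (Q.indicator (fun k => sz Z U k ^ 2) k) := by
    rw [← ENNReal.ofReal_tsum_of_nonneg h0 hs, ← ENNReal.ofReal_pow (by unfold blk; positivity),
      mul_pow]
    unfold blk
    rw [Real.sq_sqrt (tsum_nonneg h0), ENNReal.ofReal_mul (by norm_num)]
    congr 1
    rw [show (3 : ℝ) ^ 2 = 9 by norm_num]
    exact ENNReal.ofReal_ofNat 9
  rw [e, ← ENNReal.tsum_mul_left]
  unfold Sj
  refine ENNReal.tsum_le_tsum fun k => ?_
  split_ifs with hk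
  · show mz Z U k ^ 2 ≤ _
    by_cases h : k = 0
    · subst h; rw [mz_zero]; simp
    · have hkQ : k ∈ Q := (sh_eq h j).1 hk
      rw [Set.indicator_of_mem hkQ, mz_eq, ← ENNReal.ofReal_pow (mr_nonneg Z k)]
      have h1 := mr_le_sz (U := U) Z k
      have h2 := mr_nonneg (U := U) Z k
      calc ENNReal.ofReal (mr Z U k ^ 2) ≤ ENNReal.ofReal (9 * sz Z U k ^ 2) := by
            refine ENNReal.ofReal_le_ofReal ?_
            nlinarith
        _ = _ := by
            rw [ENNReal.ofReal_mul (by norm_num)]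
            congr 1
            exact ENNReal.ofReal_ofNat 9
  · exact bot_le

open Classical in
/-- The splitting of the Besov part. -/
theorem split_besov (hU : ∀ i, Rap (U i)) {X : Set (K3 × ℤˣ)} {α β s0 s : ℝ} (hα : 0 ≤ α)
    (hβ : 0 ≤ β) (h : ∀ j : ℕ, blk j X U ≤ α * 2 ^ (-s0 * (j : ℝ)) + β * 2 ^ (-s * (j : ℝ))) :
    ∃ x0 x1 : K3 → ℝ≥0∞, (∀ k, mz X U k ≤ x0 k + x1 k) ∧
      Bes s0 (ENNReal.ofReal (6 * α)) x0 ∧ Bes s (ENNReal.ofReal (6 * β)) x1 := by
  set a : ℕ → ℝ := fun j => α * 2 ^ (-s0 * (j : ℝ)) with ha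
  set b : ℕ → ℝ := fun j => β * 2 ^ (-s * (j : ℝ)) with hb
  have ha0 : ∀ j, 0 ≤ a j := fun j => by positivity
  have hb0 : ∀ j, 0 ≤ b j := fun j => by positivity
  refine ⟨fun k => if b (sh k) ≤ a (sh k) then mz X U k else 0,
    fun k => if b (sh k) ≤ a (sh k) then 0 else mz X U k, fun k => ?_, fun j => ?_, fun j => ?_⟩
  · show mz X U k ≤ (if b (sh k) ≤ a (sh k) then mz X U k else 0)
      + (if b (sh k) ≤ a (sh k) then 0 else mz X U k)
    split_ifs <;> simp
  · have e : ENNReal.ofReal (6 * α) * pw (-s0 * j) = ENNReal.ofReal (6 * a j) := by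
      unfold pw
      rw [← ENNReal.ofReal_mul (by positivity)]
      congr 1
      simp only [ha]
      ring
    rw [e]
    by_cases hj : b j ≤ a j
    · calc Sj j (fun k => (if b (sh k) ≤ a (sh k) then mz X U k else 0) ^ 2)
          ≤ Sj j (fun k => mz X U k ^ 2) := by
            refine Sj_mono fun k _ => ?_
            split_ifs <;> simp
        _ ≤ ENNReal.ofReal (3 * blk j X U) ^ 2 := Sj_mz_le hU X j
        _ ≤ _ := by
            refine pow_le_pow_left' (ENNReal.ofReal_le_ofReal ?_) 2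
            have h9 : blk j X U ≤ a j + b j := h j
            linarith
    · refine le_trans (Sj_mono (g := fun _ => 0) fun k hk => ?_) (by unfold Sj; simp)
      show (if b (sh k) ≤ a (sh k) then mz X U k else 0) ^ 2 ≤ 0
      rw [hk, if_neg hj]
      simp
  · have e : ENNReal.ofReal (6 * β) * pw (-s * j) = ENNReal.ofReal (6 * b j) := by
      unfold pw
      rw [← ENNReal.ofReal_mul (by positivity)]
      congr 1
      simp only [hb]
      ring
    rw [e]
    by_cases hj : b j ≤ a j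
    · refine le_trans (Sj_mono (g := fun _ => 0) fun k hk => ?_) (by unfold Sj; simp)
      show (if b (sh k) ≤ a (sh k) then 0 else mz X U k) ^ 2 ≤ 0
      rw [hk, if_pos hj]
      simp
    · calc Sj j (fun k => (if b (sh k) ≤ a (sh k) then 0 else mz X U k) ^ 2)
          ≤ Sj j (fun k => mz X U k ^ 2) := by
            refine Sj_mono fun k _ => ?_
            split_ifs <;> simp
        _ ≤ ENNReal.ofReal (3 * blk j X U) ^ 2 := Sj_mz_le hU X j
        _ ≤ _ := by
            refine pow_le_pow_left' (ENNReal.ofReal_le_ofReal ?_) 2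
            have h9 : blk j X U ≤ a j + b j := h j
            push Not at hj
            linarith

theorem wiener_enn (hU : ∀ i, Rap (U i)) {Y : Set (K3 × ℤˣ)} {γ σ : ℝ} (hσ0 : 0 ≤ σ)
    (hσ1 : σ ≤ 1) (h : ∑' k, len k ^ σ * sz Y U k ≤ γ) :
    ∑' k, Lp σ k * mz Y U k ≤ ENNReal.ofReal (3 * γ) := by
  have h0 : ∀ k, 0 ≤ len k ^ σ * sz Y U k := fun k =>
    mul_nonneg (Real.rpow_nonneg (len_nonneg k) σ) (Real.sqrt_nonneg _)
  have hs : Summable fun k => len k ^ σ * sz Y U k := by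
    have h1 := ((summable_am_pow hU 0).add ((summable_am_pow hU 1).mul_left 2)).mul_left 6
    refine Summable.of_nonneg_of_le h0 (fun k => ?_) h1
    have h2 := sz_le (U := U) Y k
    have h3 : 0 ≤ sz Y U k := Real.sqrt_nonneg _
    have h4 := am_nonneg U k
    have h5 := len_nonneg k
    have h6 := len_le_N k
    have h7 : len k ^ σ ≤ 1 + 2 * N k := by
      rcases le_total (len k) 1 with h8 | h8
      · have := Real.rpow_le_one h5 h8 hσ0
        have : (0 : ℝ) ≤ N k := by positivity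
        linarith
      · have := Real.rpow_le_rpow_of_exponent_le h8 hσ1
        rw [Real.rpow_one] at this
        linarith
    calc len k ^ σ * sz Y U k ≤ (1 + 2 * N k) * (6 * am U k) := by gcongr
      _ = _ := by ring
  have e : ENNReal.ofReal (∑' k, len k ^ σ * sz Y U k)
      = ∑' k, ENNReal.ofReal (len k ^ σ * sz Y U k) := ENNReal.ofReal_tsum_of_nonneg h0 hs
  calc ∑' k, Lp σ k * mz Y U k ≤ ∑' k, 3 * ENNReal.ofReal (len k ^ σ * sz Y U k) := by
        refine ENNReal.tsum_le_tsum fun k => ?_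
        have h2 := mr_le_sz (U := U) Y k
        have h3 := Real.rpow_nonneg (len_nonneg k) σ
        unfold Lp
        rw [mz_eq, ← ENNReal.ofReal_mul h3, ← ENNReal.ofReal_ofNat,
          ← ENNReal.ofReal_mul (by norm_num)]
        refine ENNReal.ofReal_le_ofReal ?_
        nlinarith [mul_le_mul_of_nonneg_left h2 h3]
    _ = 3 * ENNReal.ofReal (∑' k, len k ^ σ * sz Y U k) := by
        rw [ENNReal.tsum_mul_left, e]
    _ ≤ 3 * ENNReal.ofReal γ := by gcongr
    _ = _ := by rw [← ENNReal.ofReal_ofNat, ← ENNReal.ofReal_mul (by norm_num)]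

end fixed

/-- The absolute constant. -/
noncomputable def c0 : ℝ := 1 / (202176 * Kc (1 / 2))

theorem c0_pos : 0 < c0 := by
  unfold c0
  have := Kc_pos (s := 1 / 2) (by norm_num)
  positivity

theorem criterion {q r : ℝ} (hq : 1 < q) (hr1 : 1 ≤ r) (hr2 : r ≤ 2) :
    ∃ C : ℝ, 0 ≤ C ∧ ∀ (ν T A : ℝ) (u : ℝ → V → V) (p : ℝ → V → ℝ)
      (X Y : ℝ → Set (K3 × ℤˣ)) (β γ : ℝ → ℝ), 0 < ν → IsSol ν T u p → 0 ≤ A →
      (∀ t ∈ Ioo 0 T, 0 ≤ β t ∧ 0 ≤ γ t) → IntegrableOn (fun t => β t ^ q) (Ioo 0 T) →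
      IntegrableOn (fun t => γ t ^ r) (Ioo 0 T) →
      (∀ t ∈ Ioo 0 T, TwoD A (X t ∪ Y t)) →
      (∀ t ∈ Ioo 0 T, ∀ j : ℕ, blk j (X t) (uh u t)
        ≤ c0 * ν * 2 ^ (-(1 / 2) * (j : ℝ)) + β t * 2 ^ (-(1 / 2 + 2 / q) * (j : ℝ))) →
      (∀ t ∈ Ioo 0 T, ∑' k, len k ^ (2 / r - 1) * sz (Y t) (uh u t) k ≤ γ t) →
      (∀ t ∈ Ico 0 T, EE (uh u t) ≤ EE (uh u 0) * Real.exp
        (C * (ν ^ (1 - q) * (∫ s in Ioo 0 T, β s ^ q) + ν ^ (1 - r) * (∫ s in Ioo 0 T, γ s ^ r)
          + A / ν ^ 2 * energy (u 0)))) ∧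
      ∃ M, ∀ t ∈ Ico 0 T, ∀ x i, |u t x i| ≤ M := by
  have hq0 : 0 < q := by linarith
  have hr0 : 0 < r := by linarith
  have hs1 : 1 / 2 + 2 / q < 5 / 2 := by
    have : 2 / q < 2 := by rw [div_lt_iff₀ hq0]; linarith
    linarith
  have hK0 := Kc_pos (s := 1 / 2) (by norm_num)
  have hK1 := Kc_pos hs1
  set K0 := Kc (1 / 2) with hK0d
  set K1 := Kc (1 / 2 + 2 / q) with hK1d
  set C1 : ℝ := 33696 * K1 * (33696 * K1) ^ (q - 1) * 6 ^ q with hC1
  set C2 : ℝ := 134784 * 134784 ^ (r - 1) * 3 ^ r with hC2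
  set C3 : ℝ := 741312 ^ 2 with hC3
  have hC10 : 0 ≤ C1 := by positivity
  have hC20 : 0 ≤ C2 := by positivity
  have hC30 : 0 ≤ C3 := by positivity
  refine ⟨C1 + C2 + C3, by positivity, fun ν T A u p X Y β γ hν h hA h0 hβi hγi hZ hX hY => ?_⟩
  have hpi := Real.pi_pos
  have hpi3 := Real.pi_gt_three
  have hβ0 : ∀ t ∈ Ioo 0 T, 0 ≤ β t := fun t ht => (h0 t ht).1
  have hγ0 : ∀ t ∈ Ioo 0 T, 0 ≤ γ t := fun t ht => (h0 t ht).2
  set g : ℝ → ℝ := fun t => C1 * ν ^ (1 - q) * β t ^ q + C2 * ν ^ (1 - r) * γ t ^ r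
    + C3 * A / (4 * Real.pi ^ 2 * ν) * enstrophy (u t) with hg
  have hg0 : ∀ s ∈ Ioo 0 T, 0 ≤ g s := by
    intro s hs
    have h1 := Real.rpow_nonneg (hβ0 s hs) q
    have h2 := Real.rpow_nonneg (hγ0 s hs) r
    have h3 := enstrophy_nonneg (u s)
    simp only [hg]
    positivity
  have hIβ : 0 ≤ ∫ s in Ioo 0 T, β s ^ q :=
    setIntegral_nonneg measurableSet_Ioo fun s hs => Real.rpow_nonneg (hβ0 s hs) q
  have hIγ : 0 ≤ ∫ s in Ioo 0 T, γ s ^ r :=
    setIntegral_nonneg measurableSet_Ioo fun s hs => Real.rpow_nonneg (hγ0 s hs) r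
  have hE0 := energy_nonneg (u 0)
  have hβ1 : ∀ t ∈ Ico 0 T, IntegrableOn (fun s => β s ^ q) (Icc 0 t) := by
    intro t ht
    rw [integrableOn_Icc_iff_integrableOn_Ioc, integrableOn_Ioc_iff_integrableOn_Ioo]
    exact hβi.mono_set (Ioo_subset_Ioo_right ht.2.le)
  have hγ1 : ∀ t ∈ Ico 0 T, IntegrableOn (fun s => γ s ^ r) (Icc 0 t) := by
    intro t ht
    rw [integrableOn_Icc_iff_integrableOn_Ioc, integrableOn_Ioc_iff_integrableOn_Ioo]
    exact hγi.mono_set (Ioo_subset_Ioo_right ht.2.le)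
  have hy1 : ∀ t ∈ Ico 0 T, IntegrableOn (fun s => enstrophy (u s)) (Icc 0 t) := by
    intro t ht
    have hyc : ContinuousOn (fun s => enstrophy (u s)) (Icc 0 t) :=
      h.enstrophy_continuousOn.mono fun s hs => ⟨hs.1, hs.2.trans_lt ht.2⟩
    exact hyc.integrableOn_Icc
  refine crit_gron h hν (g := g) hg0 (fun t ht => (((hβ1 t ht).const_mul _).add
    ((hγ1 t ht).const_mul _)).add ((hy1 t ht).const_mul _)) (fun t ht => ?_) (fun s hs => ?_)
  · -- the integral of `g`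
    have i1 : IntervalIntegrable (fun s => C1 * ν ^ (1 - q) * β s ^ q) volume 0 t :=
      ((intervalIntegrable_iff_integrableOn_Icc_of_le ht.1).2 (hβ1 t ht)).const_mul _
    have i3 : IntervalIntegrable (fun s => C2 * ν ^ (1 - r) * γ s ^ r) volume 0 t :=
      ((intervalIntegrable_iff_integrableOn_Icc_of_le ht.1).2 (hγ1 t ht)).const_mul _
    have i2 : IntervalIntegrable (fun s => C3 * A / (4 * Real.pi ^ 2 * ν) * enstrophy (u s))
        volume 0 t :=
      ((intervalIntegrable_iff_integrableOn_Icc_of_le ht.1).2 (hy1 t ht)).const_mul _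
    have i13 : IntervalIntegrable (fun s => C1 * ν ^ (1 - q) * β s ^ q
      + C2 * ν ^ (1 - r) * γ s ^ r) volume 0 t := i1.add i3
    simp only [hg]
    rw [intervalIntegral.integral_add i13 i2, intervalIntegral.integral_add i1 i3,
      intervalIntegral.integral_const_mul, intervalIntegral.integral_const_mul,
      intervalIntegral.integral_const_mul]
    have a1 : ∫ s in (0 : ℝ)..t, β s ^ q ≤ ∫ s in Ioo 0 T, β s ^ q := by
      rw [intervalIntegral.integral_of_le ht.1, integral_Ioc_eq_integral_Ioo]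
      refine setIntegral_mono_set hβi ?_ (Ioo_subset_Ioo_right ht.2.le).eventuallyLE
      filter_upwards [ae_restrict_mem measurableSet_Ioo] with s hs
      exact Real.rpow_nonneg (hβ0 s hs) q
    have a1' : ∫ s in (0 : ℝ)..t, γ s ^ r ≤ ∫ s in Ioo 0 T, γ s ^ r := by
      rw [intervalIntegral.integral_of_le ht.1, integral_Ioc_eq_integral_Ioo]
      refine setIntegral_mono_set hγi ?_ (Ioo_subset_Ioo_right ht.2.le).eventuallyLE
      filter_upwards [ae_restrict_mem measurableSet_Ioo] with s hs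
      exact Real.rpow_nonneg (hγ0 s hs) r
    have a2 := h.int_enstrophy hν ht
    have hν1 : 0 ≤ ν ^ (1 - q) := by positivity
    have hν2 : 0 ≤ ν ^ (1 - r) := by positivity
    have b1 : C1 * ν ^ (1 - q) * ∫ s in (0 : ℝ)..t, β s ^ q
        ≤ C1 * (ν ^ (1 - q) * ∫ s in Ioo 0 T, β s ^ q) := by
      rw [mul_assoc]
      gcongr
    have b2 : C2 * ν ^ (1 - r) * ∫ s in (0 : ℝ)..t, γ s ^ r
        ≤ C2 * (ν ^ (1 - r) * ∫ s in Ioo 0 T, γ s ^ r) := by
      rw [mul_assoc]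
      gcongr
    have b3 : C3 * A / (4 * Real.pi ^ 2 * ν) * ∫ s in (0 : ℝ)..t, enstrophy (u s)
        ≤ C3 * (A / ν ^ 2 * energy (u 0)) := by
      calc _ ≤ C3 * A / (4 * Real.pi ^ 2 * ν) * (energy (u 0) / (2 * ν)) := by gcongr
        _ = C3 * (A / ν ^ 2 * energy (u 0)) * (1 / (8 * Real.pi ^ 2)) := by
            field_simp
            ring
        _ ≤ C3 * (A / ν ^ 2 * energy (u 0)) * 1 := by
            gcongr
            rw [div_le_one (by positivity)]
            nlinarith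
        _ = _ := mul_one _
    set I1 := ν ^ (1 - q) * ∫ s in Ioo 0 T, β s ^ q with hI1
    set I2 := ν ^ (1 - r) * ∫ s in Ioo 0 T, γ s ^ r with hI2
    set I3 := A / ν ^ 2 * energy (u 0) with hI3
    have c1 : 0 ≤ I1 := by positivity
    have c2 : 0 ≤ I2 := by positivity
    have c3 : 0 ≤ I3 := by positivity
    have d1 : 0 ≤ C1 * (I2 + I3) := by positivity
    have d2 : 0 ≤ C2 * (I1 + I3) := by positivity
    have d3 : 0 ≤ C3 * (I1 + I2) := by positivity
    have e : (C1 + C2 + C3) * (I1 + I2 + I3) = C1 * I1 + C2 * I2 + C3 * I3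
        + C1 * (I2 + I3) + C2 * (I1 + I3) + C3 * (I1 + I2) := by ring
    rw [e]
    linarith
  · -- the differential inequality
    have hI : s ∈ Ico 0 T := ⟨hs.1.le, hs.2⟩
    have hU := rap_uh h hI
    have hdiv := div_uh h hI
    obtain ⟨x0, x1, hx, hx0, hx1⟩ := split_besov hU (α := c0 * ν) (β := β s) (s0 := 1 / 2)
      (s := 1 / 2 + 2 / q) (mul_nonneg c0_pos.le hν.le) (hβ0 s hs) (hX s hs)
    have hσ0 : 0 ≤ 2 / r - 1 := by
      have : 1 ≤ 2 / r := by rw [le_div_iff₀ hr0]; linarith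
      linarith
    have hσ1 : 2 / r - 1 ≤ 1 := by
      have : 2 / r ≤ 2 := by rw [div_le_iff₀ hr0]; linarith
      linarith
    have hy := wiener_enn hU hσ0 hσ1 (hY s hs)
    have hb := CC_real (X s) (Y s) hU hdiv (ε1 := ν / (33696 * K1)) (ε2 := ν / 134784)
      (ε3 := ν / 2) hA (hZ s hs) hq hr1 hr2 (by
        have := c0_pos
        positivity : 0 ≤ 6 * (c0 * ν)) (by
        have := hβ0 s hs
        positivity : 0 ≤ 6 * β s) (by
        have := hγ0 s hs
        positivity : 0 ≤ 3 * γ s) (by positivity) (by positivity) (by positivity) hx hx0 hx1 hy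
    have hE := EE_nonneg (uh u s)
    have hD := DD_nonneg (uh u s)
    have hre : -(CC (uh u s)).re ≤ ‖CC (uh u s)‖ := (neg_le_abs _).trans (Complex.abs_re_le_norm _)
    -- simplify the constants
    have f1 : 16848 * K0 * (6 * (c0 * ν)) * DD (uh u s) = ν / 2 * DD (uh u s) := by
      unfold c0
      rw [← hK0d]
      field_simp
      ring
    have f2 : 16848 * K1 * ((ν / (33696 * K1)) ^ (1 - q) * (6 * β s) ^ q * EE (uh u s)
          + ν / (33696 * K1) * DD (uh u s))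
        = C1 / 2 * ν ^ (1 - q) * β s ^ q * EE (uh u s) + ν / 2 * DD (uh u s) := by
      have e1 : (ν / (33696 * K1)) ^ (1 - q) = ν ^ (1 - q) * (33696 * K1) ^ (q - 1) := by
        rw [Real.div_rpow hν.le (by positivity), div_eq_mul_inv, ← Real.rpow_neg (by positivity)]
        congr 2
        ring
      rw [e1, Real.mul_rpow (by norm_num) (hβ0 s hs)]
      have e2 : 16848 * K1 * (ν / (33696 * K1) * DD (uh u s)) = ν / 2 * DD (uh u s) := by
        field_simp
        ring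
      rw [mul_add, e2, hC1]
      ring
    have f3 : 67392 * ((ν / 134784) ^ (1 - r) * (3 * γ s) ^ r * EE (uh u s)
          + ν / 134784 * DD (uh u s))
        = C2 / 2 * ν ^ (1 - r) * γ s ^ r * EE (uh u s) + ν / 2 * DD (uh u s) := by
      have e1 : (ν / 134784) ^ (1 - r) = ν ^ (1 - r) * 134784 ^ (r - 1) := by
        rw [Real.div_rpow hν.le (by positivity), div_eq_mul_inv, ← Real.rpow_neg (by positivity)]
        congr 2
        ring
      rw [e1, Real.mul_rpow (by norm_num) (hγ0 s hs), hC2]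
      ring
    have f4 : 741312 ^ 2 * A * GG (uh u s) / (4 * (ν / 2)) * EE (uh u s)
        + ν / 2 * DD (uh u s)
        = C3 * A / (4 * Real.pi ^ 2 * ν) * enstrophy (u s) / 2 * EE (uh u s)
          + ν / 2 * DD (uh u s) := by
      rw [← GG_eq h hI, hC3]
      field_simp
      ring
    rw [f1, f2, f3, f4] at hb
    have g1 : 0 ≤ ν * DD (uh u s) := by positivity
    have g2 : 8 * Real.pi ^ 2 * ν * DD (uh u s) ≥ 72 * (ν * DD (uh u s)) := by
      have : 72 ≤ 8 * Real.pi ^ 2 := by nlinarith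
      have := mul_le_mul_of_nonneg_right this g1
      linarith
    show _ ≤ -(ν * DD (uh u s)) + (C1 * ν ^ (1 - q) * β s ^ q + C2 * ν ^ (1 - r) * γ s ^ r
      + C3 * A / (4 * Real.pi ^ 2 * ν) * enstrophy (u s)) * EE (uh u s)
    have e : (C1 * ν ^ (1 - q) * β s ^ q + C2 * ν ^ (1 - r) * γ s ^ r
      + C3 * A / (4 * Real.pi ^ 2 * ν) * enstrophy (u s)) * EE (uh u s)
      = 2 * (C1 / 2 * ν ^ (1 - q) * β s ^ q * EE (uh u s)
        + C2 / 2 * ν ^ (1 - r) * γ s ^ r * EE (uh u s)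
        + C3 * A / (4 * Real.pi ^ 2 * ν) * enstrophy (u s) / 2 * EE (uh u s)) := by ring
    rw [e]
    linarith

end Pool.Agent.TH616.NSH
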