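import Pool.Agent.TH616.NSH.Ker

/-!
Dyadic shells of frequencies.
-/

set_option autoImplicit false

open MeasureTheory Set Filter Topology
open scoped ENNReal
open H459R3.NS Pool.Agent.TH305.FB

namespace Pool.Agent.TH616.NSH

/-- The index of the dyadic shell. -/
noncomputable def sh (k : K3) : ℕ := Nat.log 2 ⌊len k⌋₊

theorem sh_le {k : K3} (hk : k ≠ 0) : (2 : ℝ) ^ sh k ≤ len k := by
  have h1 := one_le_len hk
  have h2 : ⌊len k⌋₊ ≠ 0 := by
    have : 1 ≤ ⌊len k⌋₊ := Nat.le_floor (by exact_mod_cast h1)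
    omega
  have h3 := Nat.pow_log_le_self 2 h2
  have h4 : ((2 ^ Nat.log 2 ⌊len k⌋₊ : ℕ) : ℝ) ≤ len k :=
    (Nat.cast_le.2 h3).trans (Nat.floor_le (len_nonneg k))
  exact_mod_cast h4

theorem lt_sh (k : K3) : len k < (2 : ℝ) ^ (sh k + 1) := by
  have h1 := Nat.lt_pow_succ_log_self (b := 2) (by norm_num) ⌊len k⌋₊
  have h2 := Nat.lt_floor_add_one (len k)
  have h3 : (⌊len k⌋₊ : ℝ) + 1 ≤ ((2 ^ (Nat.log 2 ⌊len k⌋₊ + 1) : ℕ) : ℝ) := by
    exact_mod_cast h1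
  refine h2.trans_le (h3.trans (le_of_eq ?_))
  unfold sh
  push_cast
  rfl

theorem sh_zero : sh 0 = 0 := by simp [sh, len_zero]

theorem sh_lt {k : K3} {n : ℕ} (h : len k < (2 : ℝ) ^ (n + 1)) : sh k ≤ n := by
  by_cases hk : k = 0
  · subst hk; rw [sh_zero]; exact Nat.zero_le _
  have h1 := (sh_le hk).trans_lt h
  have h2 : sh k < n + 1 := (pow_lt_pow_iff_right₀ (by norm_num : (1 : ℝ) < 2)).1 h1
  omega

theorem le_sh {k : K3} {n : ℕ} (h : (2 : ℝ) ^ n ≤ len k) : n ≤ sh k := by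
  have h1 := h.trans_lt (lt_sh k)
  have h2 : n < sh k + 1 := (pow_lt_pow_iff_right₀ (by norm_num : (1 : ℝ) < 2)).1 h1
  omega

theorem sh_eq {k : K3} (hk : k ≠ 0) (j : ℕ) :
    sh k = j ↔ (2 : ℝ) ^ j ≤ len k ∧ len k < (2 : ℝ) ^ (j + 1) := by
  constructor
  · rintro rfl
    exact ⟨sh_le hk, lt_sh k⟩
  · rintro ⟨h1, h2⟩
    exact le_antisymm (sh_lt h2) (le_sh h1)

theorem sh_mono {a b : K3} (h : len a ≤ len b) : sh a ≤ sh b := sh_lt (h.trans_lt (lt_sh b))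

theorem sh_le_succ {a b : K3} (h : len a ≤ 2 * len b) : sh a ≤ sh b + 1 := by
  refine sh_lt ?_
  have := lt_sh b
  rw [pow_succ]
  linarith

/-- The sum over a shell. -/
noncomputable def Sj (j : ℕ) (f : K3 → ℝ≥0∞) : ℝ≥0∞ := ∑' k, if sh k = j then f k else 0

theorem tsum_Sj (f : K3 → ℝ≥0∞) : ∑' j, Sj j f = ∑' k, f k := by
  unfold Sj
  rw [ENNReal.tsum_comm]
  refine tsum_congr fun k => ?_
  have : (fun j => if sh k = j then f k else 0) = fun j => if j = sh k then f k else 0 := by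
    funext j; simp only [eq_comm]
  rw [this, tsum_ite_eq]

theorem Sj_mono {j : ℕ} {f g : K3 → ℝ≥0∞} (h : ∀ k, sh k = j → f k ≤ g k) : Sj j f ≤ Sj j g := by
  unfold Sj
  refine ENNReal.tsum_le_tsum fun k => ?_
  split_ifs with hk
  · exact h k hk
  · exact le_rfl

theorem Sj_mul (j : ℕ) (r : ℝ≥0∞) (f : K3 → ℝ≥0∞) : Sj j (fun k => r * f k) = r * Sj j f := by
  unfold Sj
  rw [← ENNReal.tsum_mul_left]
  refine tsum_congr fun k => ?_
  split_ifs
  · rfl
  · simp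

/-- The number of frequencies in a shell. -/
theorem Sj_one (j : ℕ) : Sj j (fun _ => 1) ≤ 125 * 8 ^ j := by
  set F : Finset K3 := Finset.Icc (fun _ => -(2 ^ (j + 1) : ℤ)) (fun _ => (2 ^ (j + 1) : ℤ))
    with hF
  have hsub : ∀ k : K3, sh k = j → k ∈ F := by
    intro k hk
    have h1 := lt_sh k
    rw [hk] at h1
    rw [hF, Finset.mem_Icc]
    have h2 : ∀ i, |k i| ≤ 2 ^ (j + 1) := by
      intro i
      have h3 := (abs_le_len k i).trans h1.le
      exact_mod_cast h3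
    exact ⟨fun i => (abs_le.1 (h2 i)).1, fun i => (abs_le.1 (h2 i)).2⟩
  have h1 : Sj j (fun _ => 1) ≤ ∑' k : K3, (F : Set K3).indicator (fun _ => (1 : ℝ≥0∞)) k := by
    unfold Sj
    refine ENNReal.tsum_le_tsum fun k => ?_
    split_ifs with hk
    · rw [Set.indicator_of_mem (Finset.mem_coe.2 (hsub k hk))]
    · exact bot_le
  have h2 : ∑' k : K3, (F : Set K3).indicator (fun _ => (1 : ℝ≥0∞)) k = F.card := by
    rw [← tsum_subtype, Finset.tsum_subtype' F (fun _ => (1 : ℝ≥0∞))]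
    simp
  have h3 : F.card = (2 * 2 ^ (j + 1) + 1) ^ 3 := by
    rw [hF, Pi.card_Icc]
    simp only [Int.card_Icc, Finset.prod_const, Finset.card_univ, Fintype.card_fin]
    congr 1
    have : (2 ^ (j + 1) + 1 - -2 ^ (j + 1) : ℤ) = ((2 * 2 ^ (j + 1) + 1 : ℕ) : ℤ) := by
      push_cast; ring
    rw [this, Int.toNat_natCast]
  have h4 : (2 * 2 ^ (j + 1) + 1) ^ 3 ≤ 125 * 8 ^ j := by
    have h5 : 1 ≤ 2 ^ j := Nat.one_le_two_pow
    calc (2 * 2 ^ (j + 1) + 1) ^ 3 ≤ (5 * 2 ^ j) ^ 3 := by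
          gcongr
          rw [pow_succ]; omega
      _ = 125 * 8 ^ j := by
          rw [mul_pow, ← pow_mul, mul_comm j 3, pow_mul]; norm_num
  calc Sj j (fun _ => 1) ≤ (F.card : ℝ≥0∞) := h1.trans h2.le
    _ ≤ ((125 * 8 ^ j : ℕ) : ℝ≥0∞) := by rw [h3]; exact_mod_cast h4
    _ = _ := by push_cast; rfl

/-- powers of two -/
noncomputable def pw (x : ℝ) : ℝ≥0∞ := ENNReal.ofReal ((2 : ℝ) ^ x)

theorem pw_add (x y : ℝ) : pw (x + y) = pw x * pw y := by
  unfold pw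
  rw [← ENNReal.ofReal_mul (by positivity), Real.rpow_add two_pos]

theorem pw_ne_top (x : ℝ) : pw x ≠ ∞ := ENNReal.ofReal_ne_top

theorem pw_ne_zero (x : ℝ) : pw x ≠ 0 := by
  unfold pw
  have : (0 : ℝ) < 2 ^ x := by positivity
  simpa using this

theorem pw_mono {x y : ℝ} (h : x ≤ y) : pw x ≤ pw y :=
  ENNReal.ofReal_le_ofReal (Real.rpow_le_rpow_of_exponent_le (by norm_num) h)

theorem pw_zero : pw 0 = 1 := by simp [pw]

theorem pw_one : pw 1 = 2 := by simp [pw]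

theorem pw_sqrt (x : ℝ) : pw x ^ (1 / 2 : ℝ) = pw (x / 2) := by
  unfold pw
  rw [ENNReal.ofReal_rpow_of_pos (by positivity), ← Real.rpow_mul two_pos.le]
  congr 2
  ring

theorem pw_sq (x : ℝ) : pw x ^ 2 = pw (2 * x) := by
  rw [sq, ← pw_add]; congr 1; ring

theorem pw_nat (n : ℕ) : pw n = 2 ^ n := by
  unfold pw
  rw [Real.rpow_natCast, ENNReal.ofReal_pow two_pos.le, ENNReal.ofReal_ofNat]

theorem pw_mul_nat (x : ℝ) (n : ℕ) : pw (x * n) = pw x ^ n := by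
  unfold pw
  rw [← ENNReal.ofReal_pow (by positivity), Real.rpow_mul_natCast two_pos.le]

theorem sqrt_sq_enn (x : ℝ≥0∞) : (x ^ 2) ^ (1 / 2 : ℝ) = x := by
  rw [← ENNReal.rpow_natCast, ← ENNReal.rpow_mul]
  norm_num

theorem Sj_cs (j : ℕ) (f g : K3 → ℝ≥0∞) :
    Sj j (fun k => f k * g k)
      ≤ (Sj j fun k => f k ^ 2) ^ (1 / 2 : ℝ) * (Sj j fun k => g k ^ 2) ^ (1 / 2 : ℝ) := by
  have h := enn_cs (fun k => if sh k = j then f k else 0) (fun k => if sh k = j then g k else 0)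
  unfold Sj
  refine le_trans (le_of_eq ?_) (h.trans (le_of_eq ?_))
  · refine tsum_congr fun k => ?_
    split_ifs <;> simp
  · congr 2
    · refine tsum_congr fun k => ?_
      split_ifs <;> simp
    · refine tsum_congr fun k => ?_
      split_ifs <;> simp

theorem Sj_l1 (j : ℕ) (f : K3 → ℝ≥0∞) :
    Sj j f ≤ 12 * pw (3 / 2 * j) * (Sj j fun k => f k ^ 2) ^ (1 / 2 : ℝ) := by
  have h := Sj_cs j (fun _ => 1) f
  simp only [one_mul, one_pow] at h
  refine h.trans ?_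
  gcongr
  have h1 : Sj j (fun _ => 1) ≤ (12 * pw (3 / 2 * j)) ^ 2 := by
    refine (Sj_one j).trans ?_
    rw [mul_pow, pw_sq]
    have e : pw (2 * (3 / 2 * j)) = 8 ^ j := by
      rw [show (2 * (3 / 2 * j) : ℝ) = 3 * j by ring, pw_mul_nat]
      congr 1
      have : pw 3 = 2 ^ 3 := by
        have := pw_nat 3
        exact_mod_cast this
      rw [this]; norm_num
    rw [e]
    gcongr
    norm_num
  calc (Sj j fun _ => 1) ^ (1 / 2 : ℝ) ≤ ((12 * pw (3 / 2 * j)) ^ 2) ^ (1 / 2 : ℝ) := by gcongr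
    _ = _ := sqrt_sq_enn _

theorem geo1 (r : ℝ≥0∞) (J : ℕ) :
    ∑' j, (if j ≤ J then r ^ (J - j) else 0) ≤ (1 - r)⁻¹ := by
  rw [← ENNReal.tsum_geometric]
  have h1 : ∑' j, (if j ≤ J then r ^ (J - j) else 0)
      = ∑ j ∈ Finset.range (J + 1), r ^ (J - j) := by
    rw [tsum_eq_sum (s := Finset.range (J + 1))]
    · refine Finset.sum_congr rfl fun j hj => ?_
      rw [Finset.mem_range] at hj
      rw [if_pos (by omega)]
    · intro j hj
      rw [Finset.mem_range] at hj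
      rw [if_neg (by omega)]
  rw [h1]
  have h2 : ∑ j ∈ Finset.range (J + 1), r ^ (J - j) = ∑ j ∈ Finset.range (J + 1), r ^ j := by
    rw [← Finset.sum_range_reflect (fun j => r ^ j) (J + 1)]
    refine Finset.sum_congr rfl fun j _ => ?_
    congr 1
  rw [h2]
  exact ENNReal.sum_le_tsum _

theorem geo2 (r : ℝ≥0∞) (l : ℕ) :
    ∑' j, (if l ≤ j then r ^ (j - l) else 0) ≤ (1 - r)⁻¹ := by
  rw [← ENNReal.tsum_geometric]
  have h := (add_left_injective l).tsum_eq (f := fun j => if l ≤ j then r ^ (j - l) else 0) (by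
    intro j hj
    rw [Function.mem_support] at hj
    by_cases h : l ≤ j
    · exact ⟨j - l, by simp; omega⟩
    · exact absurd (if_neg h) hj)
  rw [← h]
  refine le_of_eq (tsum_congr fun m => ?_)
  simp

theorem LL_le_pw {k : K3} {j : ℕ} (h : sh k = j) : LL k ≤ 2 * pw j := by
  have h1 := lt_sh k
  rw [h] at h1
  rw [pw_nat]
  unfold LL
  calc ENNReal.ofReal (len k) ≤ ENNReal.ofReal (2 ^ (j + 1)) := ENNReal.ofReal_le_ofReal h1.le
    _ = 2 * 2 ^ j := by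
      rw [ENNReal.ofReal_pow two_pos.le, ENNReal.ofReal_ofNat, pow_succ, mul_comm]

theorem Lp_le_pw {k : K3} (hk : k ≠ 0) {x : ℝ} (h2 : x ≤ 1) :
    Lp x k ≤ 2 * pw (x * sh k) := by
  have h3 := sh_le hk
  have h4 := lt_sh k
  have hp : (0 : ℝ) < 2 ^ sh k := by positivity
  rw [← pw_one, ← pw_add]
  unfold Lp pw
  refine ENNReal.ofReal_le_ofReal ?_
  rcases le_total 0 x with h | h
  · calc len k ^ x ≤ ((2 : ℝ) ^ (sh k + 1)) ^ x := Real.rpow_le_rpow (len_nonneg k) h4.le h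
      _ = 2 ^ ((sh k + 1 : ℝ) * x) := by
        rw [← Real.rpow_natCast, ← Real.rpow_mul two_pos.le]
        push_cast; rfl
      _ ≤ 2 ^ (1 + x * sh k) := by
        refine Real.rpow_le_rpow_of_exponent_le (by norm_num) ?_
        linarith
  · calc len k ^ x ≤ ((2 : ℝ) ^ sh k) ^ x := Real.rpow_le_rpow_of_nonpos hp h3 h
      _ = 2 ^ ((sh k : ℝ) * x) := by
        rw [← Real.rpow_natCast, ← Real.rpow_mul two_pos.le]
      _ ≤ 2 ^ (1 + x * sh k) := by
        refine Real.rpow_le_rpow_of_exponent_le (by norm_num) ?_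
        linarith

theorem pw_le_Lp {k : K3} (hk : k ≠ 0) {x : ℝ} (h0 : 0 ≤ x) : pw (x * sh k) ≤ Lp x k := by
  have h3 := sh_le hk
  unfold Lp pw
  refine ENNReal.ofReal_le_ofReal ?_
  calc (2 : ℝ) ^ (x * sh k) = ((2 : ℝ) ^ sh k) ^ x := by
        rw [← Real.rpow_natCast, ← Real.rpow_mul two_pos.le]
        congr 1; ring
    _ ≤ len k ^ x := Real.rpow_le_rpow (by positivity) h3 h0

end Pool.Agent.TH616.NSH
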